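import Pool.Agent.J4.H27.UL.Lin
import Pool.Agent.J4.H27.EC.Cox2
import Pool.Agent.N13.QC.Xs

/-!
The cells of the quotients of the Davis complex.
-/

set_option autoImplicit false
set_option linter.unusedSectionVars false

open scoped Classical

namespace Pool.Agent.J4.H27.UL

open Pool.Agent.Q134.SV Pool.Agent.N13.QC Pool.Agent.J4.H27.EC

variable {S W : Type} [Group W] {M : CoxeterMatrix S}

/-- the special subgroup generated by `T` -/
def spc (cs : CoxeterSystem M W) (T : Finset S) : Subgroup W :=
  Subgroup.closure (cs.simple '' (T : Set S))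

/-- The number of the cells of the type `T` of the quotient `Σ / H` of the Davis complex with its cell
structure by Coxeter polytopes (the cells of `Σ` of the type `T` are the cosets `w W_T`, for finite `W_T`):
the number of the double cosets `W_T w H`. -/
noncomputable def cells (cs : CoxeterSystem M W) (H : Subgroup W) (T : Finset S) : ℕ :=
  if Finite (spc cs T) then Nat.card (MulAction.orbitRel.Quotient (spc cs T) (W ⧸ H)) else 0

/-- the Euler characteristic of `Σ / H` -/
noncomputable def chiQ [Fintype S] (cs : CoxeterSystem M W) (H : Subgroup W) : ℤ :=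
  ∑ T : Finset S, (-1) ^ T.card * (cells cs H T : ℤ)

/-- free actions -/
theorem cells_mul (cs : CoxeterSystem M W) {H : Subgroup W} (T : Finset S)
    (hT : Finite (spc cs T)) (ht : ∀ h ∈ H, IsOfFinOrder h → h = 1) :
    cells cs H T * Nat.card (spc cs T) = H.index := by
  unfold cells
  rw [if_pos hT]
  have hstab : ∀ p : W ⧸ H, MulAction.stabilizer (spc cs T) p = ⊥ := by
    intro p
    rw [eq_bot_iff]
    rintro ⟨g, hg⟩ hs
    rw [MulAction.mem_stabilizer_iff] at hs
    obtain ⟨w, rfl⟩ := QuotientGroup.mk_surjective p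
    have h1 : (QuotientGroup.mk (g * w) : W ⧸ H) = QuotientGroup.mk w := hs
    rw [QuotientGroup.eq] at h1
    have h2 : IsOfFinOrder g := by
      have := isOfFinOrder_of_finite (⟨g, hg⟩ : spc cs T)
      exact (Submonoid.isOfFinOrder_coe (H := (spc cs T).toSubmonoid)).2 this
    have h3 : (g * w)⁻¹ * w = 1 := by
      apply ht _ h1
      have : (g * w)⁻¹ * w = (w⁻¹ * g * w)⁻¹ := by group
      rw [this, isOfFinOrder_inv_iff]
      have e : w⁻¹ * g * w = MulAut.conj w⁻¹ g := by
        rw [MulAut.conj_apply, inv_inv]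
      rw [e]
      exact (MulAut.conj w⁻¹).toMonoidHom.isOfFinOrder h2
    have h4 : g = 1 := by
      have h5 : w = g * w := by
        rw [inv_mul_eq_one] at h3
        exact h3.symm
      exact (mul_eq_right.1 h5.symm)
    rw [Subgroup.mem_bot]
    exact Subtype.ext h4
  have h1 := Nat.card_congr (MulAction.selfEquivSigmaOrbitsQuotientStabilizer (spc cs T) (W ⧸ H))
  have h2 : (Σ ω : MulAction.orbitRel.Quotient (spc cs T) (W ⧸ H),
      (spc cs T) ⧸ MulAction.stabilizer (spc cs T) ω.out) ≃
      (MulAction.orbitRel.Quotient (spc cs T) (W ⧸ H)) × (spc cs T) := by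
    refine (Equiv.sigmaCongrRight fun ω => ?_).trans (Equiv.sigmaEquivProd _ _)
    rw [hstab]
    exact QuotientGroup.quotientBot.toEquiv
  rw [Nat.card_congr h2, Nat.card_prod] at h1
  rw [Subgroup.index]
  exact h1.symm

/-- special subgroups of even Coxeter groups are large -/
theorem card_spc (cs : CoxeterSystem M W) (hev : ∀ x y, x ≠ y → 2 ∣ M x y) (T : Finset S)
    (hT : Finite (spc cs T)) : 2 ^ T.card ≤ Nat.card (spc cs T) := by
  have hlift : M.IsLiftable fun x => (Pi.mulSingle x (-1) : S → ℤˣ) := by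
    intro x y
    change (Pi.mulSingle x (-1) * Pi.mulSingle y (-1) : S → ℤˣ) ^ M x y = 1
    by_cases h : x = y
    · subst h
      rw [M.diagonal, pow_one, ← Pi.mulSingle_mul]
      simp
    · obtain ⟨l, hl⟩ := hev x y h
      rw [hl, pow_mul]
      have : (Pi.mulSingle x (-1) * Pi.mulSingle y (-1) : S → ℤˣ) ^ 2 = 1 := by
        funext z
        simp only [Pi.pow_apply, Pi.one_apply]
        exact Int.units_sq _
      rw [this, one_pow]
  let δ : W →* (S → ℤˣ) := cs.lift ⟨_, hlift⟩
  have hδ : ∀ x, δ (cs.simple x) = Pi.mulSingle x (-1) := fun x => cs.lift_apply_simple hlift x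
  have key : ∀ A : Finset S, A ⊆ T → ∃ g : spc cs T, ∀ y, δ (g : W) y = if y ∈ A then -1 else 1 := by
    intro A
    induction A using Finset.induction_on with
    | empty =>
      intro _
      refine ⟨1, fun y => ?_⟩
      simp
    | insert x A hx ih =>
      intro hA
      obtain ⟨g, hg⟩ := ih (fun z hz => hA (Finset.mem_insert_of_mem hz))
      have hxT : cs.simple x ∈ spc cs T :=
        Subgroup.subset_closure ⟨x, hA (Finset.mem_insert_self x A), rfl⟩
      refine ⟨⟨cs.simple x, hxT⟩ * g, fun y => ?_⟩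
      change δ (cs.simple x * (g : W)) y = _
      rw [map_mul, Pi.mul_apply, hg, hδ]
      by_cases hy : y = x
      · subst hy
        rw [Pi.mulSingle_eq_same, if_neg hx, if_pos (Finset.mem_insert_self _ _), mul_one]
      · rw [Pi.mulSingle_eq_of_ne hy, one_mul]
        simp only [Finset.mem_insert, hy, false_or]
  have h1 : ∀ A : {A : Finset S // A ∈ T.powerset}, ∃ g : spc cs T,
      ∀ y, δ (g : W) y = if y ∈ A.1 then -1 else 1 := fun A => key A.1 (Finset.mem_powerset.1 A.2)
  choose g hg using h1
  have hinj : Function.Injective g := by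
    intro A B h
    apply Subtype.ext
    ext y
    have h2 := hg A y
    rw [h, hg B y] at h2
    by_cases hA : y ∈ A.1
    · by_cases hB : y ∈ B.1
      · exact ⟨fun _ => hB, fun _ => hA⟩
      · rw [if_pos hA, if_neg hB] at h2
        exact absurd h2 (by decide)
    · by_cases hB : y ∈ B.1
      · rw [if_neg hA, if_pos hB] at h2
        exact absurd h2 (by decide)
      · exact ⟨fun h => absurd h hA, fun h => absurd h hB⟩
  have h3 := Nat.card_le_card_of_injective g hinj
  rw [← Finset.card_powerset]
  refine le_trans (le_of_eq ?_) h3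
  rw [Nat.card_eq_fintype_card, Fintype.card_coe]

theorem push_id {S : Type} [Fintype S] {n : ℕ} (a : (Fin n → S) → ℝ) : push id a = a := by
  funext u
  unfold push
  rw [Finset.sum_eq_single u]
  · exact if_pos rfl
  · intro v _ hv
    exact if_neg fun h => hv h
  · intro h
    exact absurd (Finset.mem_univ _) h

/-- The sum of the numbers of the cells -/
theorem cells_le [Fintype S] {k : ℕ} (cs : CoxeterSystem M W) (col : S → ℕ) (h₀ : Even2 k M col)
    (hl : ∀ x y, M x y ≠ 0 → col x % 2 = 0 → col y = col x + 1 → 4 ≤ M x y)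
    {a : (Fin (2 * k) → S) → ℝ} (ha : IsCyc (2 * k) (finG M) a) (hs : Sph cs a)
    (h1 : ∀ v, a v ≠ 0 → 1 ≤ |a v|)
    (hp : ∀ T : Finset S, Finite (spc cs T) → ∃ v, a v ≠ 0 ∧ (T : Set S) ⊆ Set.range v)
    {H : Subgroup W} (hH : H.index ≠ 0) (hε : H ≤ (sgn cs).ker)
    (ht : ∀ h ∈ H, IsOfFinOrder h → h = 1) :
    ∑ T : Finset S, (cells cs H T : ℝ) ≤ 9 ^ k * svol (sgn cs) cs.simple (2 * k) a H := by
  have hlin := linear cs M col h₀ id (fun x y hxy hM => Or.inr ⟨hxy, hM, dvd_rfl⟩) ha hs hH hε
  rw [push_id] at hlin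
  set Nn : Finset (Fin (2 * k) → S) := Finset.univ.filter fun v => a v ≠ 0 ∧ ∀ j, col (v j) = j
    with hNn
  have hN : (Nn.card : ℝ) ≤ ∑ u : Fin (2 * k) → S, (if Srt M col u then |a u| else 0) := by
    have h2 : (Nn.card : ℝ) = ∑ v : Fin (2 * k) → S, if v ∈ Nn then (1 : ℝ) else 0 := by simp
    rw [h2]
    refine Finset.sum_le_sum fun v _ => ?_
    by_cases hv : v ∈ Nn
    · rw [if_pos hv]
      rw [hNn, Finset.mem_filter] at hv
      have hsrt : Srt M col v := by
        refine ⟨hv.2.2, fun i => ?_⟩
        have c1 := hv.2.2 ⟨2 * i, by omega⟩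
        have c2 := hv.2.2 ⟨2 * i + 1, by omega⟩
        simp only at c1 c2
        refine hl _ _ (ha.supp v hv.2.1 _ _ ?_).2 (by omega) (by omega)
        rw [Ne, Fin.mk.injEq]
        omega
      rw [if_pos hsrt]
      exact h1 v hv.2.1
    · rw [if_neg hv]
      split_ifs
      · exact abs_nonneg _
      · exact le_rfl
  -- sorting
  have hsort : ∀ v, a v ≠ 0 → ∃ v' ∈ Nn, Set.range v' = Set.range v := by
    intro v hv
    have hinj : Function.Injective fun j => (⟨col (v j), h₀.1 _⟩ : Fin (2 * k)) := by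
      intro i j hij
      by_contra hne
      have := ha.supp v hv i j hne
      exact (h₀.2 _ _ this.1 this.2).1 (congrArg Fin.val hij)
    let τ : Equiv.Perm (Fin (2 * k)) := Equiv.ofBijective _ (Finite.injective_iff_bijective.1 hinj)
    refine ⟨v ∘ τ.symm, ?_, ?_⟩
    · rw [hNn, Finset.mem_filter]
      refine ⟨Finset.mem_univ _, ?_, ?_⟩
      · rw [alt_perm a ha.alt]
        refine mul_ne_zero ?_ hv
        exact Int.cast_ne_zero.2 (Units.ne_zero _)
      · intro j
        have h2 := τ.apply_symm_apply j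
        exact congrArg Fin.val h2
    · exact τ.symm.surjective.range_comp v
  -- the cells
  have hcell : ∀ T : Finset S, (cells cs H T : ℝ) ≤
      ∑ v ∈ Nn, if T ⊆ Finset.univ.image v then (H.index : ℝ) * (1 / 2) ^ T.card else 0 := by
    intro T
    by_cases hT : Finite (spc cs T)
    · obtain ⟨v, hv, hTv⟩ := hp T hT
      obtain ⟨v', hv', hr⟩ := hsort v hv
      have h2 : T ⊆ Finset.univ.image v' := by
        intro x hx
        have : x ∈ Set.range v' := by
          rw [hr]
          exact hTv hx
        obtain ⟨j, rfl⟩ := this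
        exact Finset.mem_image_of_mem _ (Finset.mem_univ _)
      have h3 := Finset.single_le_sum (f := fun v => if T ⊆ Finset.univ.image v then
        (H.index : ℝ) * (1 / 2) ^ T.card else 0) (fun v _ => by split_ifs <;> positivity) hv'
      simp only [if_pos h2] at h3
      refine le_trans ?_ h3
      have h4 := cells_mul cs T hT ht
      have hev : ∀ x y, x ≠ y → 2 ∣ M x y := by
        intro x y hxy
        by_cases h : M x y = 0
        · rw [h]
          exact dvd_zero 2
        · exact (h₀.2 x y hxy h).2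
      have h5 := card_spc cs hev T hT
      have h6 : (cells cs H T : ℝ) * 2 ^ T.card ≤ (H.index : ℝ) := by
        rw [← h4]
        push_cast
        have h7 : (2 : ℝ) ^ T.card ≤ Nat.card (spc cs T) := by exact_mod_cast h5
        exact mul_le_mul_of_nonneg_left h7 (Nat.cast_nonneg _)
      have h8 : (2 : ℝ) ^ T.card * (1 / 2) ^ T.card = 1 := by
        rw [← mul_pow]
        norm_num
      calc (cells cs H T : ℝ) = ((cells cs H T : ℝ) * 2 ^ T.card) * (1 / 2) ^ T.card := by
            rw [mul_assoc, h8, mul_one]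
        _ ≤ _ := mul_le_mul_of_nonneg_right h6 (by positivity)
    · unfold cells
      rw [if_neg hT, Nat.cast_zero]
      exact Finset.sum_nonneg fun v _ => by split_ifs <;> positivity
  have hsum : ∑ T : Finset S, (cells cs H T : ℝ) ≤ (Nn.card : ℝ) * ((H.index : ℝ) * (9 / 4) ^ k) := by
    refine (Finset.sum_le_sum fun T _ => hcell T).trans ?_
    rw [Finset.sum_comm]
    have h2 : ∀ v ∈ Nn, ∑ T : Finset S, (if T ⊆ Finset.univ.image v then
        (H.index : ℝ) * (1 / 2) ^ T.card else 0) = (H.index : ℝ) * (9 / 4) ^ k := by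
      intro v hv
      rw [hNn, Finset.mem_filter] at hv
      have hvinj : Function.Injective v := by
        intro i j hij
        have := congrArg col hij
        rw [hv.2.2, hv.2.2] at this
        exact Fin.ext this
      have hc : (Finset.univ.image v).card = 2 * k := by
        rw [Finset.card_image_of_injective _ hvinj, Finset.card_univ, Fintype.card_fin]
      have h3 := Xs.sum_powerset (Finset.univ.image v)
      rw [hc, pow_mul] at h3
      rw [← Finset.sum_filter, ← Finset.mul_sum]
      congr 1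
      have h4 : (Finset.univ.filter fun T : Finset S => T ⊆ Finset.univ.image v) =
          (Finset.univ.image v).powerset := by
        ext T
        simp
      rw [h4, h3]
      norm_num
    rw [Finset.sum_congr rfl h2, Finset.sum_const, nsmul_eq_mul]
  refine hsum.trans ?_
  have h9 : (9 : ℝ) ^ k = (9 / 4) ^ k * 4 ^ k := by
    rw [← mul_pow]
    norm_num
  have h10 : (H.index : ℝ) * (Nn.card : ℝ) ≤ 4 ^ k * svol (sgn cs) cs.simple (2 * k) a H :=
    le_trans (mul_le_mul_of_nonneg_left hN (Nat.cast_nonneg _)) hlin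
  calc (Nn.card : ℝ) * ((H.index : ℝ) * (9 / 4) ^ k) =
        (9 / 4) ^ k * ((H.index : ℝ) * (Nn.card : ℝ)) := by ring
    _ ≤ (9 / 4) ^ k * (4 ^ k * svol (sgn cs) cs.simple (2 * k) a H) :=
        mul_le_mul_of_nonneg_left h10 (by positivity)
    _ = _ := by rw [h9]; ring

theorem chi_le [Fintype S] {k : ℕ} (cs : CoxeterSystem M W) (col : S → ℕ) (h₀ : Even2 k M col)
    (hl : ∀ x y, M x y ≠ 0 → col x % 2 = 0 → col y = col x + 1 → 4 ≤ M x y)
    {a : (Fin (2 * k) → S) → ℝ} (ha : IsCyc (2 * k) (finG M) a) (hs : Sph cs a)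
    (h1 : ∀ v, a v ≠ 0 → 1 ≤ |a v|)
    (hp : ∀ T : Finset S, Finite (spc cs T) → ∃ v, a v ≠ 0 ∧ (T : Set S) ⊆ Set.range v)
    {H : Subgroup W} (hH : H.index ≠ 0) (hε : H ≤ (sgn cs).ker)
    (ht : ∀ h ∈ H, IsOfFinOrder h → h = 1) :
    |(chiQ cs H : ℝ)| ≤ 9 ^ k * svol (sgn cs) cs.simple (2 * k) a H := by
  refine le_trans ?_ (cells_le cs col h₀ hl ha hs h1 hp hH hε ht)
  unfold chiQ
  push_cast
  refine (Finset.abs_sum_le_sum_abs _ _).trans (le_of_eq ?_)
  refine Finset.sum_congr rfl fun T _ => ?_
  rw [abs_mul, abs_pow, abs_neg, abs_one, one_pow, one_mul, Nat.abs_cast]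

end Pool.Agent.J4.H27.UL
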