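import Pool.Agent.J4.H27.EC.Dual

/-!
Evaluation of products of cochains on the flags of a product of groups.
-/

set_option autoImplicit false
set_option linter.unusedSectionVars false

open scoped Classical

namespace Pool.Agent.J4.H27.UL

open Pool.Agent.Q134.SV Pool.Agent.N13.QC Pool.Agent.J4.H27.EC

section

variable {G : Type} [Group G]

/-- the mean over three groups -/
noncomputable def M3 (F : G → G → G → ℝ) (A B E : Subgroup G) : ℝ :=
  mean (A × B × E) (fun p => F (p.1 : G) (p.2.1 : G) (p.2.2 : G))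

theorem M3_left {F : G → G → G → ℝ} (hF : ∀ a b c, F b a c = - F a b c) (A E : Subgroup G) :
    M3 F A A E = 0 := by
  unfold M3
  let e : (A × A × E) ≃ (A × A × E) :=
    { toFun := fun p => (p.2.1, p.1, p.2.2)
      invFun := fun p => (p.2.1, p.1, p.2.2)
      left_inv := fun p => rfl
      right_inv := fun p => rfl }
  have h := mean_equiv e (fun p => F (p.1 : G) (p.2.1 : G) (p.2.2 : G))
  have h2 : mean (A × A × E) (fun p => F ((e p).1 : G) ((e p).2.1 : G) ((e p).2.2 : G)) =
      - mean (A × A × E) (fun p => F (p.1 : G) (p.2.1 : G) (p.2.2 : G)) := by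
    rw [← mean_neg]
    exact mean_congr fun p => hF _ _ _
  rw [h2] at h
  linarith

theorem M3_right {F : G → G → G → ℝ} (hF : ∀ a b c, F a c b = - F a b c) (A B : Subgroup G) :
    M3 F A B B = 0 := by
  unfold M3
  let e : (A × B × B) ≃ (A × B × B) :=
    { toFun := fun p => (p.1, p.2.2, p.2.1)
      invFun := fun p => (p.1, p.2.2, p.2.1)
      left_inv := fun p => rfl
      right_inv := fun p => rfl }
  have h := mean_equiv e (fun p => F (p.1 : G) (p.2.1 : G) (p.2.2 : G))
  have h2 : mean (A × B × B) (fun p => F ((e p).1 : G) ((e p).2.1 : G) ((e p).2.2 : G)) =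
      - mean (A × B × B) (fun p => F (p.1 : G) (p.2.1 : G) (p.2.2 : G)) := by
    rw [← mean_neg]
    exact mean_congr fun p => hF _ _ _
  rw [h2] at h
  linarith

end

section

variable {k : ℕ} {V₀ G : Type} [Group G] (p : V₀ → Fin k) (R : V₀ → G)

/-- the generators of the product -/
noncomputable def gp (v : V₀) : Fin k → G := Pi.mulSingle (p v) (R v)

/-- the group of the index `i` -/
def Dp {n : ℕ} (u : Fin n → V₀) (j : ℕ) (i : Fin k) : Subgroup G :=
  Subgroup.closure (R '' {x | x ∈ ini u j ∧ p x = i})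

theorem Cp_eq {n : ℕ} (u : Fin n → V₀) (j : ℕ) :
    C (gp p R) u j = Subgroup.pi Set.univ fun i => Dp p R u j i := by
  apply le_antisymm
  · unfold C
    rw [Subgroup.closure_le]
    rintro _ ⟨v, hv, rfl⟩
    rw [SetLike.mem_coe, Subgroup.mem_pi]
    intro i _
    unfold gp
    by_cases h : i = p v
    · subst h
      rw [Pi.mulSingle_eq_same]
      exact Subgroup.subset_closure ⟨v, ⟨hv, rfl⟩, rfl⟩
    · rw [Pi.mulSingle_eq_of_ne h]
      exact one_mem _
  · intro g hg
    rw [Subgroup.mem_pi] at hg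
    apply Subgroup.pi_mem_of_mulSingle_mem
    intro i
    have h1 : (Dp p R u j i).map (MonoidHom.mulSingle (fun _ : Fin k => G) i) ≤
        C (gp p R) u j := by
      unfold Dp C
      rw [MonoidHom.map_closure, Subgroup.closure_le]
      rintro _ ⟨_, ⟨x, ⟨hx, hx'⟩, rfl⟩, rfl⟩
      refine Subgroup.subset_closure ⟨x, hx, ?_⟩
      unfold gp
      rw [hx']
      rfl
    exact h1 (Subgroup.mem_map_of_mem _ (hg i (Set.mem_univ _)))

theorem Dp_fin {n : ℕ} (u : Fin n → V₀) (j : ℕ) (h : Finite (C (gp p R) u j)) (i : Fin k) :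
    Finite (Dp p R u j i) := by
  have h1 : ∀ x : Dp p R u j i, Pi.mulSingle i (x : G) ∈ C (gp p R) u j := by
    intro x
    rw [Cp_eq, Subgroup.mem_pi]
    intro i' _
    by_cases e : i' = i
    · subst e
      rw [Pi.mulSingle_eq_same]
      exact x.2
    · rw [Pi.mulSingle_eq_of_ne e]
      exact one_mem _
  refine Finite.of_injective (fun x : Dp p R u j i => (⟨_, h1 x⟩ : C (gp p R) u j)) ?_
  intro x y hxy
  have h2 := congrArg (fun z : C (gp p R) u j => (z : Fin k → G) i) hxy
  simp only [Pi.mulSingle_eq_same] at h2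
  exact Subtype.ext h2

/-- the cochains of the factors -/
def cf (F : Fin k → G → G → G → ℝ) (i : Fin k) (g0 g1 g2 : Fin k → G) : ℝ :=
  F i (g0 i) (g1 i) (g2 i)

/-- the value of the product at the flag of a tuple -/
theorem av_PC (F : Fin k → G → G → G → ℝ) (u : Fin (2 * k) → V₀)
    (hf : ∀ j, Finite (C (gp p R) u j)) :
    av (PC k (cf F)) (fun j : Fin (2 * k + 1) => C (gp p R) u j) 1 =
      ∏ i : Fin k, M3 (F i) (Dp p R u (2 * i) i) (Dp p R u (2 * i + 1) i)
        (Dp p R u (2 * i + 2) i) := by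
  have hD := fun j i => Dp_fin p R u j (hf j) i
  have hmem : ∀ (j : ℕ) (g : C (gp p R) u j) (i : Fin k), (g : Fin k → G) i ∈ Dp p R u j i := by
    intro j g i
    have := (SetLike.ext_iff.1 (Cp_eq p R u j) (g : Fin k → G)).1 g.2
    rw [Subgroup.mem_pi] at this
    exact this i (Set.mem_univ _)
  let Φ : (∀ j : Fin (2 * k + 1), C (gp p R) u j) →*
      (∀ i : Fin k, Dp p R u (2 * i) i × Dp p R u (2 * i + 1) i × Dp p R u (2 * i + 2) i) :=
    { toFun := fun h i => (⟨_, hmem _ (h ⟨2 * i, by omega⟩) i⟩,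
        ⟨_, hmem _ (h ⟨2 * i + 1, by omega⟩) i⟩, ⟨_, hmem _ (h ⟨2 * i + 2, by omega⟩) i⟩)
      map_one' := rfl
      map_mul' := fun _ _ => rfl }
  have hΦ : Function.Surjective Φ := by
    intro q
    let g : ∀ j : Fin (2 * k + 1), Fin k → G := fun j i =>
      if (j : ℕ) = 2 * i then (q i).1 else if (j : ℕ) = 2 * i + 1 then (q i).2.1 else
        if (j : ℕ) = 2 * i + 2 then (q i).2.2 else 1
    have hg : ∀ j : Fin (2 * k + 1), g j ∈ C (gp p R) u j := by
      intro j
      rw [Cp_eq, Subgroup.mem_pi]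
      intro i _
      simp only [g]
      split_ifs with h1 h2 h3
      · rw [h1]; exact (q i).1.2
      · rw [h2]; exact (q i).2.1.2
      · rw [h3]; exact (q i).2.2.2
      · exact one_mem _
    refine ⟨fun j => ⟨g j, hg j⟩, ?_⟩
    funext i
    refine Prod.ext ?_ (Prod.ext ?_ ?_)
    · apply Subtype.ext
      change g ⟨2 * i, _⟩ i = _
      simp only [g]
      rw [if_pos trivial]
    · apply Subtype.ext
      change g ⟨2 * i + 1, _⟩ i = _
      simp only [g]
      rw [if_neg (by omega)]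
      simp
    · apply Subtype.ext
      change g ⟨2 * i + 2, _⟩ i = _
      simp only [g]
      rw [if_neg (by omega), if_neg (by omega)]
      simp
  let H : (∀ i : Fin k, Dp p R u (2 * i) i × Dp p R u (2 * i + 1) i × Dp p R u (2 * i + 2) i) → ℝ :=
    fun q => ∏ i : Fin k, F i ((q i).1 : G) ((q i).2.1 : G) ((q i).2.2 : G)
  have h1 : av (PC k (cf F)) (fun j : Fin (2 * k + 1) => C (gp p R) u j) 1 =
      mean (∀ j : Fin (2 * k + 1), C (gp p R) u j) (fun h => H (Φ h)) := by
    unfold av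
    refine mean_congr fun h => ?_
    rw [PC_eq]
    refine Finset.prod_congr rfl fun i _ => ?_
    unfold cf
    simp only [Pi.one_apply, one_mul]
    rfl
  rw [h1, mean_surj Φ hΦ H]
  exact mean_pi (Y := fun i : Fin k => Dp p R u (2 * i) i × Dp p R u (2 * i + 1) i ×
    Dp p R u (2 * i + 2) i) (fun i q => F i (q.1 : G) (q.2.1 : G) (q.2.2 : G))

theorem Dp_succ (u : Fin (2 * k) → V₀) (j : ℕ) (hj : j < 2 * k) (i : Fin k)
    (h : p (u ⟨j, hj⟩) ≠ i) : Dp p R u (j + 1) i = Dp p R u j i := by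
  unfold Dp
  rw [ini_succ u j hj]
  congr 2
  ext x
  simp only [Set.mem_insert_iff, Set.mem_ofPred_eq]
  constructor
  · rintro ⟨e | e, e'⟩
    · rw [e] at e'
      exact absurd e' h
    · exact ⟨e, e'⟩
  · exact fun e => ⟨Or.inr e.1, e.2⟩

theorem M3_zero {F : Fin k → G → G → G → ℝ} (hF : ∀ i a b c, F i b a c = - F i a b c)
    (hF' : ∀ i a b c, F i a c b = - F i a b c) (u : Fin (2 * k) → V₀) (i : Fin k)
    (h : ¬ (p (u ⟨2 * i, by omega⟩) = i ∧ p (u ⟨2 * i + 1, by omega⟩) = i)) :
    M3 (F i) (Dp p R u (2 * i) i) (Dp p R u (2 * i + 1) i) (Dp p R u (2 * i + 2) i) = 0 := by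
  by_cases h1 : p (u ⟨2 * i, by omega⟩) = i
  · have h2 : p (u ⟨2 * i + 1, by omega⟩) ≠ i := fun e => h ⟨h1, e⟩
    rw [Dp_succ p R u (2 * i + 1) (by omega) i h2, M3_right (hF' i)]
  · rw [Dp_succ p R u (2 * i) (by omega) i h1, M3_left (hF i)]

/-- the groups of a tuple whose entries are sorted in pairs -/
theorem M3_sorted {F : Fin k → G → G → G → ℝ} (u : Fin (2 * k) → V₀)
    (h : ∀ i : Fin k, p (u ⟨2 * i, by omega⟩) = i ∧ p (u ⟨2 * i + 1, by omega⟩) = i) (i : Fin k) :
    M3 (F i) (Dp p R u (2 * i) i) (Dp p R u (2 * i + 1) i) (Dp p R u (2 * i + 2) i) =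
      M3 (F i) ⊥ (Subgroup.closure {R (u ⟨2 * i, by omega⟩)})
        (Subgroup.closure {R (u ⟨2 * i, by omega⟩), R (u ⟨2 * i + 1, by omega⟩)}) := by
  have h0 : {x | x ∈ ini u (2 * i) ∧ p x = i} = (∅ : Set V₀) := by
    ext x
    simp only [Set.mem_ofPred_eq, Set.mem_empty_iff_false, iff_false]
    rintro ⟨⟨l, hl, he⟩, hp⟩
    rcases idx l with ⟨i', rfl⟩ | ⟨i', rfl⟩
    · rw [← he, (h i').1] at hp
      rw [hp] at hl
      simp only at hl
      omega
    · rw [← he, (h i').2] at hp
      rw [hp] at hl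
      simp only at hl
      omega
  have h1 : {x | x ∈ ini u (2 * i + 1) ∧ p x = i} = {u ⟨2 * i, by omega⟩} := by
    rw [ini_succ u (2 * i) (by omega)]
    ext x
    have h0' : (x ∈ ini u (2 * i) ∧ p x = i) ↔ False := by
      have := Set.ext_iff.1 h0 x
      simpa using this
    simp only [Set.mem_insert_iff, Set.mem_ofPred_eq, Set.mem_singleton_iff]
    constructor
    · rintro ⟨e | e, e'⟩
      · exact e
      · exact absurd ⟨e, e'⟩ h0'.1
    · rintro rfl
      exact ⟨Or.inl rfl, (h i).1⟩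
  have h2 : {x | x ∈ ini u (2 * i + 2) ∧ p x = i} =
      {u ⟨2 * i, by omega⟩, u ⟨2 * i + 1, by omega⟩} := by
    rw [ini_succ u (2 * i + 1) (by omega)]
    ext x
    have h0' : (x ∈ ini u (2 * i + 1) ∧ p x = i) ↔ x = u ⟨2 * i, by omega⟩ := by
      have := Set.ext_iff.1 h1 x
      simpa using this
    simp only [Set.mem_insert_iff, Set.mem_ofPred_eq, Set.mem_singleton_iff]
    constructor
    · rintro ⟨e | e, e'⟩
      · exact Or.inr e
      · exact Or.inl (h0'.1 ⟨e, e'⟩)
    · rintro (e | e)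
      · have := h0'.2 e
        exact ⟨Or.inr this.1, this.2⟩
      · rw [e]
        exact ⟨Or.inl rfl, (h i).2⟩
  unfold Dp
  rw [h0, h1, h2, Set.image_empty, Subgroup.closure_empty, Set.image_singleton, Set.image_pair]

end

/-- the value at a flag of a dihedral group -/
theorem M3_flag {G : Type} [Group G] (F : G → G → G → ℝ) (A B : G) (hA : A * A = 1)
    [Finite (Subgroup.closure {A, B})] :
    M3 F ⊥ (Subgroup.closure {A}) (Subgroup.closure {A, B}) =
      (1 / 2) * (mean (Subgroup.closure {A, B}) (fun h => F 1 1 h) +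
        mean (Subgroup.closure {A, B}) (fun h => F 1 A h)) := by
  have h1 := mean_one_inv A hA
  have := h1.1
  unfold M3
  rw [mean_prod]
  rw [mean_unique (X := (⊥ : Subgroup G))]
  rw [mean_prod]
  have h2 := h1.2 (fun a => mean (Subgroup.closure {A, B}) (fun h => F 1 a h))
  exact h2

end Pool.Agent.J4.H27.UL
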