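import Pool.Agent.J4.H27.UL.Spec
import Pool.Agent.J4.H27.EC.Cox

/-!
The universal linear bound.
-/

set_option autoImplicit false
set_option linter.unusedSectionVars false

open scoped Classical

namespace Pool.Agent.J4.H27.UL

open Monoid
open Equiv (Perm)
open Pool.Agent.Q134.SV Pool.Agent.N13.QC Pool.Agent.J4.H27.EC

section

variable {k : ℕ} {V G : Type} [Group G] (p : V → Fin k) (R : V → G)

theorem gp_sq (hR : ∀ v, R v * R v = 1) (v : V) : gp p R v * gp p R v = 1 := by
  unfold gp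
  rw [← Pi.mulSingle_mul, hR, Pi.mulSingle_one]

theorem pair_fin {n : ℕ} (u : Fin n → V) (j : ℕ) (h : Finite (C (gp p R) u j)) (i : Fin k) (x y : V)
    (hx : x ∈ ini u j) (hy : y ∈ ini u j) (px : p x = i) (py : p y = i) :
    Finite (Subgroup.closure {R x, R y}) := by
  have := Dp_fin p R u j h i
  have hle : Subgroup.closure {R x, R y} ≤ Dp p R u j i := by
    rw [Subgroup.closure_le]
    rintro _ (rfl | h)
    · exact Subgroup.subset_closure ⟨x, ⟨hx, px⟩, rfl⟩
    · rw [Set.mem_singleton_iff.1 h]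
      exact Subgroup.subset_closure ⟨y, ⟨hy, py⟩, rfl⟩
  exact Finite.of_injective _ (Subgroup.inclusion_injective hle)

/-- linear combinations of products -/
noncomputable def cT {T : Type} [Fintype T] (Θ : (Fin k → T) → ℝ) (F : T → G → G → G → ℝ)
    (w : Fin (2 * k + 1) → (Fin k → G)) : ℝ := ∑ e, Θ e * PC k (cf fun i => F (e i)) w

variable {T : Type} [Fintype T] {Θ : (Fin k → T) → ℝ} {F : T → G → G → G → ℝ}

theorem cT_coc (hF : ∀ e g₀ g₁ g₂ g₃, F e g₁ g₂ g₃ - F e g₀ g₂ g₃ + F e g₀ g₁ g₃ - F e g₀ g₁ g₂ = 0)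
    (w : Fin (2 * k + 2) → (Fin k → G)) : cobd (cT Θ F) w = 0 := by
  have h : cobd (cT Θ F) w = ∑ e, Θ e * cobd (PC k (cf fun i => F (e i))) w := by
    unfold cobd cT
    simp only [Finset.mul_sum]
    rw [Finset.sum_comm]
    refine Finset.sum_congr rfl fun e _ => Finset.sum_congr rfl fun j _ => ?_
    ring
  rw [h]
  refine Finset.sum_eq_zero fun e _ => ?_
  rw [Up.PC_coc k (cf fun i => F (e i)) (fun i g₀ g₁ g₂ g₃ => hF (e i) _ _ _ _) w, mul_zero]

theorem cT_neg (hF : ∀ e v a b c, F e (R v * a) (R v * b) (R v * c) = - F e a b c) (v : V)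
    (w : Fin (2 * k + 1) → (Fin k → G)) : cT Θ F (fun j => gp p R v * w j) = - cT Θ F w := by
  unfold cT
  rw [← Finset.sum_neg_distrib]
  refine Finset.sum_congr rfl fun e _ => ?_
  rw [Up.PC_mul (gp p R v) k (fun i => if i = p v then -1 else 1) (cf fun i => F (e i))]
  · rw [Finset.prod_ite_eq' Finset.univ (p v) (fun _ => (-1 : ℝ))]
    simp
  · intro i g0 g1 g2
    unfold cf gp
    by_cases h : i = p v
    · subst h
      rw [if_pos rfl]
      simp only [Pi.mul_apply, Pi.mulSingle_eq_same]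
      rw [hF]
      ring
    · rw [if_neg h]
      simp only [Pi.mul_apply, Pi.mulSingle_eq_of_ne h, one_mul]

theorem cT_le (hΘ : ∀ e, |Θ e| ≤ 1) {B : ℝ} (hB : ∀ g0 g1 g2, ∑ e, |F e g0 g1 g2| ≤ B)
    (w : Fin (2 * k + 1) → (Fin k → G)) : |cT Θ F w| ≤ B ^ k := by
  have h1 : |cT Θ F w| ≤ ∑ e : Fin k → T, ∏ i : Fin k, |F (e i) (w ⟨2 * i, by omega⟩ i)
      (w ⟨2 * i + 1, by omega⟩ i) (w ⟨2 * i + 2, by omega⟩ i)| := by
    unfold cT
    refine le_trans (Finset.abs_sum_le_sum_abs _ _) (Finset.sum_le_sum fun e _ => ?_)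
    rw [abs_mul, PC_eq, Finset.abs_prod]
    calc |Θ e| * _ ≤ 1 * _ := mul_le_mul_of_nonneg_right (hΘ e)
          (Finset.prod_nonneg fun _ _ => abs_nonneg _)
      _ = _ := by
        rw [one_mul]
        rfl
  refine le_trans h1 ?_
  have h2 := Finset.prod_univ_sum (fun _ : Fin k => (Finset.univ : Finset T))
    (fun i e => |F e (w ⟨2 * i, by omega⟩ i) (w ⟨2 * i + 1, by omega⟩ i)
      (w ⟨2 * i + 2, by omega⟩ i)|)
  rw [Fintype.piFinset_univ] at h2
  rw [← h2]
  calc _ ≤ ∏ _i : Fin k, B := Finset.prod_le_prod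
        (fun _ _ => Finset.sum_nonneg fun _ _ => abs_nonneg _) fun i _ => hB _ _ _
    _ = B ^ k := by simp

theorem av_lin {n : ℕ} {ι Γ : Type} [Group Γ] (s : Finset ι) (t : ι → ℝ)
    (c : ι → (Fin n → Γ) → ℝ) (P : Fin n → Subgroup Γ) [∀ i, Finite (P i)] (x : Fin n → Γ) :
    av (fun g => ∑ e ∈ s, t e * c e g) P x = ∑ e ∈ s, t e * av (c e) P x := by
  unfold av
  rw [mean_sum]
  refine Finset.sum_congr rfl fun e _ => ?_
  rw [mean_mul]

end

section

variable {k : ℕ} {S₀ : Type} (M₀ : CoxeterMatrix S₀) (col : S₀ → ℕ)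

/-- the labels of the pairs of colours -/
def mm (y x : S₀) : ℕ := if col y % 2 = 0 ∧ col x = col y + 1 then M₀ y x else 0

theorem mm_ne (y x : S₀) : mm M₀ col y x ≠ 1 := by
  unfold mm
  split_ifs with h
  · intro e
    have hne : y ≠ x := by
      rintro rfl
      omega
    exact M₀.off_diagonal y x hne e
  · omega

/-- the generators of the pairs -/
noncomputable def Rg (s : S₀) : Perm (KK (mm M₀ col)) :=
  if col s % 2 = 0 then lp (mm M₀ col) s else ap (mm M₀ col) s

theorem Rg_sq (s : S₀) : Rg M₀ col s * Rg M₀ col s = 1 := by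
  unfold Rg
  split_ifs
  · exact lp_sq _ _
  · exact ap_sq _ _

theorem Fe_Rg (e : S₀ × S₀) (s : S₀) (a b c : Perm (KK (mm M₀ col))) :
    Fe (mm M₀ col) e (Rg M₀ col s * a) (Rg M₀ col s * b) (Rg M₀ col s * c) =
      - Fe (mm M₀ col) e a b c := by
  unfold Rg
  split_ifs
  · exact Fe_lp _ _ _ _ _ _
  · exact Fe_ap _ (mm_ne M₀ col) _ _ _ _ _

/-- the pairs of colours -/
def pc (hcol : ∀ x, col x < 2 * k) (s : S₀) : Fin k := ⟨col s / 2, by have := hcol s; omega⟩

/-- the homomorphism given by a labelled map -/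
theorem liftable' {S : Type} (M : CoxeterMatrix S) (hcol : ∀ x, col x < 2 * k)
    (h0 : ∀ x y, x ≠ y → M₀ x y ≠ 0 → col x ≠ col y ∧ 2 ∣ M₀ x y) (f : S → S₀)
    (hf : ∀ x y, x ≠ y → M x y ≠ 0 → f x = f y ∨
      (f x ≠ f y ∧ M₀ (f x) (f y) ≠ 0 ∧ M₀ (f x) (f y) ∣ M x y)) :
    M.IsLiftable fun x => gp (pc col hcol) (Rg M₀ col) (f x) := by
  have hsq := gp_sq (pc col hcol) (Rg M₀ col) (Rg_sq M₀ col)
  intro x y
  change (gp (pc col hcol) (Rg M₀ col) (f x) * gp (pc col hcol) (Rg M₀ col) (f y)) ^ M x y = 1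
  by_cases hxy : x = y
  · subst hxy
    rw [M.diagonal, pow_one, hsq]
  by_cases hM : M x y = 0
  · rw [hM, pow_zero]
  rcases hf x y hxy hM with h | ⟨hne, h1, l, hl⟩
  · rw [h, hsq, one_pow]
  · rw [hl, pow_mul]
    obtain ⟨hc, hev⟩ := h0 _ _ hne h1
    generalize f x = a at *
    generalize f y = b at *
    have hab : (gp (pc col hcol) (Rg M₀ col) a * gp (pc col hcol) (Rg M₀ col) b) ^ M₀ a b = 1 := by
      by_cases hp : pc col hcol a = pc col hcol b
      · have hp' : col a / 2 = col b / 2 := congrArg Fin.val hp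
        unfold gp
        rw [hp, ← Pi.mulSingle_mul, ← Pi.mulSingle_pow]
        have : (Rg M₀ col a * Rg M₀ col b) ^ M₀ a b = 1 := by
          rcases Nat.mod_two_eq_zero_or_one (col a) with g | g
          · have g' : ¬ col b % 2 = 0 := by omega
            have e : col b = col a + 1 := by omega
            unfold Rg
            rw [if_pos g, if_neg g']
            have hmm : mm M₀ col a b = M₀ a b := if_pos ⟨g, e⟩
            have h3 := ap_lp_pow (mm M₀ col) b a (M₀ a b) hev (by rw [hmm])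
            have e4 : lp (mm M₀ col) a * ap (mm M₀ col) b =
                (ap (mm M₀ col) b * lp (mm M₀ col) a)⁻¹ := by
              rw [mul_inv_rev, inv_eq_of_mul_eq_one_left (lp_sq _ a),
                inv_eq_of_mul_eq_one_left (ap_sq _ b)]
            rw [e4, inv_pow, h3, inv_one]
          · have g' : col b % 2 = 0 := by omega
            have g'' : ¬ col a % 2 = 0 := by omega
            have e : col a = col b + 1 := by omega
            unfold Rg
            rw [if_neg g'', if_pos g']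
            have hmm : mm M₀ col b a = M₀ b a := if_pos ⟨g', e⟩
            refine ap_lp_pow (mm M₀ col) a b (M₀ a b) hev ?_
            rw [hmm, M₀.symmetric]
        rw [this, Pi.mulSingle_one]
      · refine even_pow (hsq a) (hsq b) ?_ hev
        unfold gp
        exact Pi.mulSingle_commute hp _ _
    rw [hab, one_pow]

/-- The tuple of pairs. -/
def je (e : Fin k → S₀ × S₀) (j : Fin (2 * k)) : S₀ :=
  if (j : ℕ) % 2 = 0 then (e ⟨j / 2, by omega⟩).1 else (e ⟨j / 2, by omega⟩).2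

theorem je_even (e : Fin k → S₀ × S₀) (i : Fin k) : je e ⟨2 * i, by omega⟩ = (e i).1 := by
  unfold je
  have h1 : 2 * (i : ℕ) / 2 = i := by omega
  simp only [h1, Nat.mul_mod_right, if_true]

theorem je_odd (e : Fin k → S₀ × S₀) (i : Fin k) : je e ⟨2 * i + 1, by omega⟩ = (e i).2 := by
  unfold je
  have h1 : (2 * (i : ℕ) + 1) / 2 = i := by omega
  have h2 : (2 * (i : ℕ) + 1) % 2 = 1 := by omega
  simp only [h1, h2, one_ne_zero, if_false]

/-- the pairs of a tuple -/
def pe (u : Fin (2 * k) → S₀) (i : Fin k) : S₀ × S₀ := (u ⟨2 * i, by omega⟩, u ⟨2 * i + 1, by omega⟩)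

theorem je_pe (u : Fin (2 * k) → S₀) : je (pe u) = u := by
  funext j
  rcases idx j with ⟨i, rfl⟩ | ⟨i, rfl⟩
  · rw [je_even]
    rfl
  · rw [je_odd]
    rfl

/-- the values of the products at the flags -/
theorem val_flag [Fintype S₀] (hcol : ∀ x, col x < 2 * k) (Θ : (Fin k → S₀ × S₀) → ℝ)
    (u : Fin (2 * k) → S₀) (hu : ∀ i j, i ≠ j → col (u i) ≠ col (u j))
    (hf : ∀ j, Finite (C (gp (pc col hcol) (Rg M₀ col)) u j)) :
    av (cT Θ (Fe (mm M₀ col)))
      (fun j : Fin (2 * k + 1) => C (gp (pc col hcol) (Rg M₀ col)) u j) 1 =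
      if ∀ j : Fin (2 * k), col (u j) = j then
        Θ (pe u) * ∏ i : Fin k, (-(1 / 2) * wt (M₀ (u ⟨2 * i, by omega⟩) (u ⟨2 * i + 1, by omega⟩)))
      else 0 := by
  have hf' : ∀ j : Fin (2 * k + 1), Finite (C (gp (pc col hcol) (Rg M₀ col)) u j) := fun j => hf j
  have h1 : av (cT Θ (Fe (mm M₀ col)))
      (fun j : Fin (2 * k + 1) => C (gp (pc col hcol) (Rg M₀ col)) u j) 1 =
      ∑ e, Θ e * ∏ i : Fin k, M3 (Fe (mm M₀ col) (e i))
        (Dp (pc col hcol) (Rg M₀ col) u (2 * i) i) (Dp (pc col hcol) (Rg M₀ col) u (2 * i + 1) i)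
        (Dp (pc col hcol) (Rg M₀ col) u (2 * i + 2) i) := by
    have h2 := av_lin Finset.univ Θ (fun e => PC k (cf fun i => Fe (mm M₀ col) (e i)))
      (fun j : Fin (2 * k + 1) => C (gp (pc col hcol) (Rg M₀ col)) u j) 1
    have h3 : av (cT Θ (Fe (mm M₀ col)))
      (fun j : Fin (2 * k + 1) => C (gp (pc col hcol) (Rg M₀ col)) u j) 1 = _ := h2
    rw [h3]
    refine Finset.sum_congr rfl fun e _ => ?_
    rw [av_PC (pc col hcol) (Rg M₀ col) (fun i => Fe (mm M₀ col) (e i)) u hf]
  rw [h1]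
  by_cases hp : ∀ i : Fin k, pc col hcol (u ⟨2 * i, by omega⟩) = i ∧
      pc col hcol (u ⟨2 * i + 1, by omega⟩) = i
  · have h2 : ∀ e : Fin k → S₀ × S₀, (∏ i : Fin k, M3 (Fe (mm M₀ col) (e i))
        (Dp (pc col hcol) (Rg M₀ col) u (2 * i) i) (Dp (pc col hcol) (Rg M₀ col) u (2 * i + 1) i)
        (Dp (pc col hcol) (Rg M₀ col) u (2 * i + 2) i)) =
        ∏ i : Fin k, M3 (Fe (mm M₀ col) (e i)) ⊥
          (Subgroup.closure {Rg M₀ col (u ⟨2 * i, by omega⟩)})
          (Subgroup.closure {Rg M₀ col (u ⟨2 * i, by omega⟩),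
            Rg M₀ col (u ⟨2 * i + 1, by omega⟩)}) := by
      intro e
      refine Finset.prod_congr rfl fun i _ => ?_
      exact M3_sorted (pc col hcol) (Rg M₀ col) (F := fun i => Fe (mm M₀ col) (e i)) u hp i
    simp only [h2]
    have hfin : ∀ i : Fin k, Finite (Subgroup.closure {Rg M₀ col (u ⟨2 * i, by omega⟩),
            Rg M₀ col (u ⟨2 * i + 1, by omega⟩)}) := by
      intro i
      exact pair_fin (pc col hcol) (Rg M₀ col) u (2 * i + 2) (hf _) i _ _
        ⟨⟨2 * i, by omega⟩, by simp, rfl⟩ ⟨⟨2 * i + 1, by omega⟩, by simp, rfl⟩ (hp i).1 (hp i).2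
    -- the colours
    have hc : ∀ i : Fin k, (col (u ⟨2 * i, by omega⟩) = 2 * i ∧
        col (u ⟨2 * i + 1, by omega⟩) = 2 * i + 1) ∨ (col (u ⟨2 * i, by omega⟩) = 2 * i + 1 ∧
        col (u ⟨2 * i + 1, by omega⟩) = 2 * i) := by
      intro i
      have e1 : col (u ⟨2 * i, by omega⟩) / 2 = i := congrArg Fin.val (hp i).1
      have e2 : col (u ⟨2 * i + 1, by omega⟩) / 2 = i := congrArg Fin.val (hp i).2
      have e3 := hu ⟨2 * i, by omega⟩ ⟨2 * i + 1, by omega⟩ (by rw [Ne, Fin.mk.injEq]; omega)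
      omega
    by_cases hs : ∀ j : Fin (2 * k), col (u j) = j
    · rw [if_pos hs]
      have h3 : ∀ (e : Fin k → S₀ × S₀) (i : Fin k), M3 (Fe (mm M₀ col) (e i)) ⊥
          (Subgroup.closure {Rg M₀ col (u ⟨2 * i, by omega⟩)})
          (Subgroup.closure {Rg M₀ col (u ⟨2 * i, by omega⟩),
            Rg M₀ col (u ⟨2 * i + 1, by omega⟩)}) = -(1 / 2) * (if e i = pe u i then
            wt (M₀ (u ⟨2 * i, by omega⟩) (u ⟨2 * i + 1, by omega⟩)) else 0) := by
        intro e i
        have c1 := hs ⟨2 * i, by omega⟩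
        have c2 := hs ⟨2 * i + 1, by omega⟩
        simp only at c1 c2
        have g1 : col (u ⟨2 * i, by omega⟩) % 2 = 0 := by omega
        have g2 : ¬ col (u ⟨2 * i + 1, by omega⟩) % 2 = 0 := by omega
        have r1 : Rg M₀ col (u ⟨2 * i, by omega⟩) = lp (mm M₀ col) (u ⟨2 * i, by omega⟩) :=
          if_pos g1
        have r2 : Rg M₀ col (u ⟨2 * i + 1, by omega⟩) =
            ap (mm M₀ col) (u ⟨2 * i + 1, by omega⟩) := if_neg g2
        have hmm : mm M₀ col (u ⟨2 * i, by omega⟩) (u ⟨2 * i + 1, by omega⟩) =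
            M₀ (u ⟨2 * i, by omega⟩) (u ⟨2 * i + 1, by omega⟩) := if_pos ⟨g1, by omega⟩
        have := hfin i
        rw [r1, r2] at this ⊢
        rw [flag_lp (mm M₀ col) (mm_ne M₀ col), hmm]
        rfl
      simp only [h3]
      rw [Finset.sum_eq_single (pe u)]
      · simp
      · intro e _ he
        have : ∃ i, e i ≠ pe u i := by
          by_contra hcon
          push Not at hcon
          exact he (funext hcon)
        obtain ⟨i, hi⟩ := this
        rw [Finset.prod_eq_zero (Finset.mem_univ i), mul_zero]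
        rw [if_neg hi, mul_zero]
      · intro h
        exact absurd (Finset.mem_univ _) h
    · rw [if_neg hs]
      -- a pair in the wrong order
      have : ∃ i : Fin k, col (u ⟨2 * i, by omega⟩) = 2 * i + 1 := by
        by_contra hcon
        push Not at hcon
        apply hs
        intro j
        rcases idx j with ⟨i, rfl⟩ | ⟨i, rfl⟩
        · rcases hc i with h | h
          · exact h.1
          · exact absurd h.1 (hcon i)
        · rcases hc i with h | h
          · exact h.2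
          · exact absurd h.1 (hcon i)
      obtain ⟨i, hi⟩ := this
      refine Finset.sum_eq_zero fun e _ => ?_
      rw [Finset.prod_eq_zero (Finset.mem_univ i), mul_zero]
      have g1 : ¬ col (u ⟨2 * i, by omega⟩) % 2 = 0 := by omega
      have r1 : Rg M₀ col (u ⟨2 * i, by omega⟩) = ap (mm M₀ col) (u ⟨2 * i, by omega⟩) :=
        if_neg g1
      have := hfin i
      rw [r1] at this ⊢
      exact flag_ap (mm M₀ col) (e i) _ _
  · have hs : ¬ ∀ j : Fin (2 * k), col (u j) = j := by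
      intro hs
      apply hp
      intro i
      constructor
      · apply Fin.ext
        change col (u ⟨2 * i, by omega⟩) / 2 = i
        rw [hs]
        simp
      · apply Fin.ext
        change col (u ⟨2 * i + 1, by omega⟩) / 2 = i
        rw [hs]
        simp only
        omega
    rw [if_neg hs]
    push Not at hp
    obtain ⟨i, hi⟩ := hp
    refine Finset.sum_eq_zero fun e _ => ?_
    rw [Finset.prod_eq_zero (Finset.mem_univ i), mul_zero]
    exact M3_zero (pc col hcol) (Rg M₀ col) (F := fun i => Fe (mm M₀ col) (e i))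
      (fun i => Fe_swap _ _) (fun i => Fe_swap' _ _) u i fun h => hi h.1 h.2

end

end Pool.Agent.J4.H27.UL
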