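import Mathlib

/-!
Free products: normal forms as lists, and the centre of three elements.
-/

set_option autoImplicit false
set_option linter.unusedSectionVars false

open scoped Classical

namespace Pool.Agent.J4.H27.UL

open Monoid

section

variable {ι : Type} {G : ι → Type} [∀ i, Group (G i)]

/-- the product of a list of letters -/
def pr (l : List (Σ i, G i)) : CoprodI G := (l.map fun s => CoprodI.of s.2).prod

/-- reduced lists -/
def Red (l : List (Σ i, G i)) : Prop :=
  (∀ s ∈ l, Sigma.snd s ≠ 1) ∧ l.IsChain fun s t => Sigma.fst s ≠ Sigma.fst t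

/-- the normal form of an element of a free product -/
noncomputable def ls (g : CoprodI G) : List (Σ i, G i) := (CoprodI.Word.equiv g).toList

theorem red_ls (g : CoprodI G) : Red (ls g) :=
  ⟨(CoprodI.Word.equiv g).ne_one, (CoprodI.Word.equiv g).chain_ne⟩

theorem pr_ls (g : CoprodI G) : pr (ls g) = g := CoprodI.Word.equiv.left_inv g

theorem ls_pr {l : List (Σ i, G i)} (h : Red l) : ls (pr l) = l := by
  have := CoprodI.Word.equiv.right_inv (⟨l, h.1, h.2⟩ : CoprodI.Word G)
  exact congrArg CoprodI.Word.toList this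

@[simp] theorem pr_nil : pr ([] : List (Σ i, G i)) = 1 := rfl

@[simp] theorem pr_cons (s : Σ i, G i) (l : List (Σ i, G i)) : pr (s :: l) = CoprodI.of s.2 * pr l := by
  simp [pr]

@[simp] theorem pr_append (l l' : List (Σ i, G i)) : pr (l ++ l') = pr l * pr l' := by
  simp [pr]

theorem red_nil : Red ([] : List (Σ i, G i)) := ⟨by simp, List.isChain_nil⟩

theorem ls_one : ls (1 : CoprodI G) = [] := by
  have := ls_pr (red_nil (G := G))
  simpa using this

/-- the index of the first letter is not `i` -/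
def nh (i : ι) (t : List (Σ i, G i)) : Prop := ∀ s ∈ t.head?, i ≠ Sigma.fst s

theorem nh_nil (i : ι) : nh i ([] : List (Σ i, G i)) := by simp [nh]

theorem nh_cons {i : ι} {s : Σ i, G i} {t : List (Σ i, G i)} : nh i (s :: t) ↔ i ≠ s.1 := by
  simp [nh]

theorem red_cons {s : Σ i, G i} {t : List (Σ i, G i)} :
    Red (s :: t) ↔ s.2 ≠ 1 ∧ nh s.1 t ∧ Red t := by
  unfold Red nh
  rw [List.isChain_cons]
  constructor
  · rintro ⟨h1, h2, h3⟩
    exact ⟨h1 s (by simp), h2, fun x hx => h1 x (by simp [hx]), h3⟩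
  · rintro ⟨h1, h2, h3, h4⟩
    refine ⟨?_, h2, h4⟩
    intro x hx
    rcases List.mem_cons.1 hx with rfl | hx
    · exact h1
    · exact h3 x hx

/-- the letter at the beginning with the index `i` -/
theorem split (i : ι) (g : CoprodI G) : ∃ (d : G i) (t : List (Σ i, G i)),
    Red t ∧ nh i t ∧ g = CoprodI.of d * pr t := by
  have h := red_ls g
  have h2 := pr_ls g
  generalize ls g = l at h h2
  cases l with
  | nil => exact ⟨1, [], red_nil, nh_nil i, by simpa using h2.symm⟩
  | cons s t =>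
    obtain ⟨j, d⟩ := s
    rw [red_cons] at h
    by_cases hj : i = j
    · subst hj
      exact ⟨d, t, h.2.2, h.2.1, by rw [← h2]; simp⟩
    · exact ⟨1, ⟨j, d⟩ :: t, red_cons.2 h, nh_cons.2 hj, by rw [← h2]; simp⟩

/-- add a letter, unless it is one -/
noncomputable def rc {i : ι} (d : G i) (t : List (Σ i, G i)) : List (Σ i, G i) :=
  if d = 1 then t else ⟨i, d⟩ :: t

theorem red_rc {i : ι} (d : G i) {t : List (Σ i, G i)} (ht : Red t) (hi : nh i t) : Red (rc d t) := by
  unfold rc
  split_ifs with h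
  · exact ht
  · exact red_cons.2 ⟨h, hi, ht⟩

theorem pr_rc {i : ι} (d : G i) (t : List (Σ i, G i)) : pr (rc d t) = CoprodI.of d * pr t := by
  unfold rc
  split_ifs with h
  · rw [h, map_one, one_mul]
  · simp

theorem ls_of_mul {i : ι} (d : G i) {t : List (Σ i, G i)} (ht : Red t) (hi : nh i t) :
    ls (CoprodI.of d * pr t) = rc d t := by
  rw [← pr_rc, ls_pr (red_rc d ht hi)]

theorem ls_of {i : ι} (d : G i) : ls (CoprodI.of d : CoprodI G) = rc d [] := by
  have := ls_of_mul d (red_nil (G := G)) (nh_nil i)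
  simpa using this

/-- the inverse of a list -/
def iv (l : List (Σ i, G i)) : List (Σ i, G i) :=
  (l.map fun s => (⟨s.1, s.2⁻¹⟩ : Σ i, G i)).reverse

theorem iv_nil : iv ([] : List (Σ i, G i)) = [] := rfl

theorem iv_cons (s : Σ i, G i) (l : List (Σ i, G i)) : iv (s :: l) = iv l ++ [⟨s.1, s.2⁻¹⟩] := by
  simp [iv]

theorem pr_iv (l : List (Σ i, G i)) : pr (iv l) = (pr l)⁻¹ := by
  induction l with
  | nil => simp [iv_nil]
  | cons s l ih =>
    rw [iv_cons, pr_append, ih]
    simp [pr_cons, mul_inv_rev]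

theorem red_append {u v : List (Σ i, G i)} : Red (u ++ v) ↔ Red u ∧ Red v ∧
    ∀ x ∈ u.getLast?, ∀ y ∈ v.head?, Sigma.fst x ≠ Sigma.fst y := by
  unfold Red
  rw [List.isChain_append]
  constructor
  · rintro ⟨h1, h2, h3, h4⟩
    exact ⟨⟨fun x hx => h1 x (by simp [hx]), h2⟩, ⟨fun x hx => h1 x (by simp [hx]), h3⟩, h4⟩
  · rintro ⟨⟨h1, h2⟩, ⟨h3, h4⟩, h5⟩
    refine ⟨?_, h2, h4, h5⟩
    intro x hx
    rcases List.mem_append.1 hx with h | h
    · exact h1 x h
    · exact h3 x h

theorem last_iv (l : List (Σ i, G i)) (x : Σ i, G i) (hx : x ∈ (iv l).getLast?) :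
    ∃ s ∈ l.head?, Sigma.fst x = Sigma.fst s := by
  cases l with
  | nil => simp [iv_nil] at hx
  | cons s l =>
    rw [iv_cons] at hx
    simp at hx
    exact ⟨s, by simp, by rw [← hx]⟩

theorem red_iv {l : List (Σ i, G i)} (h : Red l) : Red (iv l) := by
  induction l with
  | nil => exact h
  | cons s l ih =>
    rw [red_cons] at h
    rw [iv_cons, red_append]
    refine ⟨ih h.2.2, red_cons.2 ⟨inv_ne_one.2 h.1, nh_nil _, red_nil⟩, ?_⟩
    intro x hx y hy
    obtain ⟨t, ht, e⟩ := last_iv l x hx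
    have e2 : y = ⟨s.1, s.2⁻¹⟩ := by simpa using hy.symm
    rw [e, e2]
    exact (h.2.1 t ht).symm

theorem ls_inv (g : CoprodI G) : ls g⁻¹ = iv (ls g) := by
  conv_lhs => rw [← pr_ls g, ← pr_iv]
  exact ls_pr (red_iv (red_ls g))

/-- the first letters have different indices -/
def dj (t t' : List (Σ i, G i)) : Prop := ∀ s ∈ t.head?, nh (Sigma.fst s) t'

theorem dj_nil (t : List (Σ i, G i)) : dj t [] := fun _ _ => nh_nil _

theorem nil_dj (t : List (Σ i, G i)) : dj [] t := by simp [dj]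

theorem red_iv_append {t t' : List (Σ i, G i)} (h : Red t) (h' : Red t') (hd : dj t t') :
    Red (iv t ++ t') := by
  rw [red_append]
  refine ⟨red_iv h, h', ?_⟩
  intro x hx y hy
  obtain ⟨s, hs, e⟩ := last_iv t x hx
  rw [e]
  exact hd s hs y hy

theorem red_iv_append_cons {t t' : List (Σ i, G i)} {i : ι} {d : G i} (h : Red t) (h' : Red t')
    (hd : d ≠ 1) (hi : nh i t) (hi' : nh i t') : Red (iv t ++ ⟨i, d⟩ :: t') := by
  refine red_iv_append h (red_cons.2 ⟨hd, hi', h'⟩) ?_
  intro s hs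
  rw [nh_cons]
  exact (hi s hs).symm

/-- The centre of three elements: a vertex, or a coset of one of the groups. -/
inductive Cen (a0 a1 a2 : CoprodI G) : Prop
  | vtx (m : CoprodI G) (t0 t1 t2 : List (Σ i, G i)) (r0 : Red t0) (r1 : Red t1) (r2 : Red t2)
      (d01 : dj t0 t1) (d12 : dj t1 t2) (d02 : dj t0 t2) (e0 : a0 = m * pr t0)
      (e1 : a1 = m * pr t1) (e2 : a2 = m * pr t2)
  | cos (m : CoprodI G) (i : ι) (c0 c1 c2 : G i) (t0 t1 t2 : List (Σ i, G i))
      (h01 : c0 ≠ c1) (h12 : c1 ≠ c2) (h02 : c0 ≠ c2) (r0 : Red t0) (r1 : Red t1) (r2 : Red t2)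
      (n0 : nh i t0) (n1 : nh i t1) (n2 : nh i t2) (e0 : a0 = m * (CoprodI.of c0 * pr t0))
      (e1 : a1 = m * (CoprodI.of c1 * pr t1)) (e2 : a2 = m * (CoprodI.of c2 * pr t2))

theorem cen_aux : ∀ (l1 l2 t0 : List (Σ i, G i)) (m : CoprodI G), Red l1 → Red l2 → Red t0 →
    dj t0 l1 → dj t0 l2 → Cen (m * pr t0) (m * pr l1) (m * pr l2) := by
  intro l1
  induction l1 with
  | nil =>
    intro l2 t0 m h1 h2 h0 d1 d2
    exact Cen.vtx m t0 [] l2 h0 h1 h2 d1 (nil_dj _) d2 rfl rfl rfl
  | cons s l1 ih =>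
    intro l2 t0 m h1 h2 h0 d1 d2
    cases l2 with
    | nil => exact Cen.vtx m t0 (s :: l1) [] h0 h1 h2 d1 (dj_nil _) d2 rfl rfl rfl
    | cons s' l2 =>
      obtain ⟨i, c⟩ := s
      obtain ⟨j, d⟩ := s'
      by_cases hij : i = j
      · subst hij
        have n0 : nh i t0 := fun s hs => ((nh_cons.1 (d1 s hs)) : s.1 ≠ i).symm
        have h1' := red_cons.1 h1
        have h2' := red_cons.1 h2
        by_cases hcd : c = d
        · subst hcd
          have := ih l2 (⟨i, c⁻¹⟩ :: t0) (m * CoprodI.of c) h1'.2.2 h2'.2.2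
            (red_cons.2 ⟨inv_ne_one.2 h1'.1, n0, h0⟩) (by
              intro s hs
              have e : s = ⟨i, c⁻¹⟩ := by simpa using hs.symm
              rw [e]
              exact h1'.2.1) (by
              intro s hs
              have e : s = ⟨i, c⁻¹⟩ := by simpa using hs.symm
              rw [e]
              exact h2'.2.1)
          have e0 : m * CoprodI.of c * pr (⟨i, c⁻¹⟩ :: t0) = m * pr t0 := by
            rw [pr_cons, map_inv]
            group
          have e1 : m * CoprodI.of c * pr l1 = m * pr (⟨i, c⟩ :: l1) := by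
            rw [pr_cons, mul_assoc]
          have e2 : m * CoprodI.of c * pr l2 = m * pr (⟨i, c⟩ :: l2) := by
            rw [pr_cons, mul_assoc]
          rw [e0, e1, e2] at this
          exact this
        · exact Cen.cos m i 1 c d t0 l1 l2 h1'.1.symm hcd h2'.1.symm h0 h1'.2.2 h2'.2.2 n0
            h1'.2.1 h2'.2.1 (by simp) (by simp) (by simp)
      · refine Cen.vtx m t0 (⟨i, c⟩ :: l1) (⟨j, d⟩ :: l2) h0 h1 h2 d1 ?_ d2 rfl rfl rfl
        intro s hs
        have e : s = ⟨i, c⟩ := by simpa using hs.symm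
        rw [e, nh_cons]
        exact hij

theorem cen (a0 a1 a2 : CoprodI G) : Cen a0 a1 a2 := by
  have := cen_aux (ls (a0⁻¹ * a1)) (ls (a0⁻¹ * a2)) [] a0 (red_ls _) (red_ls _) red_nil (nil_dj _)
    (nil_dj _)
  simpa [pr_ls] using this

/-- differences of the branches at a vertex -/
theorem ls_vtx {m : CoprodI G} {t t' : List (Σ i, G i)} (h : Red t) (h' : Red t') (hd : dj t t') :
    ls ((m * pr t)⁻¹ * (m * pr t')) = iv t ++ t' := by
  have : (m * pr t)⁻¹ * (m * pr t') = pr (iv t ++ t') := by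
    rw [pr_append, pr_iv]
    group
  rw [this, ls_pr (red_iv_append h h' hd)]

/-- differences of the branches at a coset -/
theorem ls_cos {m : CoprodI G} {i : ι} {c c' : G i} {t t' : List (Σ i, G i)} (h : Red t)
    (h' : Red t') (hc : c ≠ c') (n : nh i t) (n' : nh i t') :
    ls ((m * (CoprodI.of c * pr t))⁻¹ * (m * (CoprodI.of c' * pr t'))) =
      iv t ++ ⟨i, c⁻¹ * c'⟩ :: t' := by
  have : (m * (CoprodI.of c * pr t))⁻¹ * (m * (CoprodI.of c' * pr t')) =
      pr (iv t ++ ⟨i, c⁻¹ * c'⟩ :: t') := by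
    rw [pr_append, pr_iv, pr_cons, map_mul, map_inv]
    group
  rw [this, ls_pr (red_iv_append_cons h h' (by
    intro e
    exact hc (inv_mul_eq_one.1 e)) n n')]

end

/-! ### maps of free products -/

section

variable {ι : Type} {G : ι → Type} [∀ i, Group (G i)]

/-- the homomorphism given by endomorphisms of the factors -/
def fm (f : ∀ i, G i →* G i) : CoprodI G →* CoprodI G := CoprodI.lift fun i => CoprodI.of.comp (f i)

/-- the same on lists -/
def fl (f : ∀ i, G i →* G i) (l : List (Σ i, G i)) : List (Σ i, G i) :=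
  l.map fun s => (⟨s.1, f s.1 s.2⟩ : Σ i, G i)

theorem fm_of (f : ∀ i, G i →* G i) {i : ι} (d : G i) :
    fm f (CoprodI.of d) = CoprodI.of (f i d) := by
  unfold fm
  rw [CoprodI.lift_of]
  rfl

theorem pr_fl (f : ∀ i, G i →* G i) (l : List (Σ i, G i)) : pr (fl f l) = fm f (pr l) := by
  induction l with
  | nil => simp [fl]
  | cons s l ih =>
    have : fl f (s :: l) = ⟨s.1, f s.1 s.2⟩ :: fl f l := rfl
    rw [this, pr_cons, ih, pr_cons, map_mul, fm_of]

theorem nh_fl (f : ∀ i, G i →* G i) (i : ι) {l : List (Σ i, G i)} : nh i (fl f l) ↔ nh i l := by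
  cases l with
  | nil => rfl
  | cons s l =>
    have : fl f (s :: l) = ⟨s.1, f s.1 s.2⟩ :: fl f l := rfl
    rw [this, nh_cons, nh_cons]

theorem red_fl (f : ∀ i, G i →* G i) (hf : ∀ i, Function.Injective (f i)) {l : List (Σ i, G i)}
    (h : Red l) : Red (fl f l) := by
  induction l with
  | nil => exact h
  | cons s l ih =>
    rw [red_cons] at h
    have : fl f (s :: l) = ⟨s.1, f s.1 s.2⟩ :: fl f l := rfl
    rw [this, red_cons]
    refine ⟨?_, (nh_fl f _).2 h.2.1, ih h.2.2⟩
    intro e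
    apply h.1
    apply hf s.1
    rw [map_one]
    exact e

theorem ls_fm (f : ∀ i, G i →* G i) (hf : ∀ i, Function.Injective (f i)) (g : CoprodI G) :
    ls (fm f g) = fl f (ls g) := by
  conv_lhs => rw [← pr_ls g, ← pr_fl]
  exact ls_pr (red_fl f hf (red_ls g))

theorem fm_comp (f f' : ∀ i, G i →* G i) (g : CoprodI G) :
    fm f (fm f' g) = fm (fun i => (f i).comp (f' i)) g := by
  have : (fm f).comp (fm f') = fm fun i => (f i).comp (f' i) := by
    apply CoprodI.ext_hom
    intro i
    ext d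
    simp only [MonoidHom.comp_apply, fm_of]
  exact DFunLike.congr_fun this g

theorem fm_id (f : ∀ i, G i →* G i) (h : ∀ i d, f i d = d) (g : CoprodI G) : fm f g = g := by
  have : fm f = MonoidHom.id _ := by
    apply CoprodI.ext_hom
    intro i
    ext d
    simp only [MonoidHom.comp_apply, fm_of, h, MonoidHom.id_apply]
  rw [this]
  rfl

end

end Pool.Agent.J4.H27.UL
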