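import Pool.Agent.J4.H27.UL.Loc

/-!
The local functions of the polygons with at least eight sides.
-/

set_option autoImplicit false
set_option linter.unusedSectionVars false

open scoped Classical

namespace Pool.Agent.J4.H27.UL

variable {m : ℕ} (hm : 4 ≤ m)

include hm

theorem tau_m1 : tau m (-1) = -1 / 2 := by
  rw [tau_neg hm, tau_one hm]
  norm_num

theorem tau_m2 : tau m (-2) = -1 := by
  rw [tau_neg hm, tau_two hm]

theorem adj1 (a b : ZMod (2 * m)) (h : a = 1 ∨ a = -1) : |tau m a + tau m b - tau m (a + b)| ≤ 1 := by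
  rcases h with rfl | rfl
  · have h1 := tau_lip hm b
    rw [add_comm (1 : ZMod (2 * m)) b, tau_one hm]
    rw [abs_le] at h1 ⊢
    constructor <;> linarith
  · have h1 := tau_lip hm (b - 1)
    rw [sub_add_cancel] at h1
    have e : -1 + b = b - 1 := by ring
    rw [e, tau_m1 hm]
    rw [abs_le] at h1 ⊢
    constructor <;> linarith

theorem adj (a b : ZMod (2 * m)) (h : (a = 1 ∨ a = -1) ∨ (b = 1 ∨ b = -1) ∨ a + b = 1 ∨ a + b = -1) :
    |tau m a + tau m b - tau m (a + b)| ≤ 1 := by
  rcases h with h | h | h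
  · exact adj1 hm a b h
  · have := adj1 hm b a h
    rw [add_comm b a] at this
    rw [add_comm (tau m a)]
    exact this
  · -- `a = (a + b) + (-b)`
    have h1 := adj1 hm (a + b) (-b) h
    have e : a + b + -b = a := by ring
    rw [e, tau_neg hm] at h1
    have e2 : tau m a + tau m b - tau m (a + b) = -(tau m (a + b) + -tau m b - tau m a) := by ring
    rw [e2, abs_neg]
    exact h1

variable (dbl : ZMod m →+ ZMod (2 * m)) (hd : dbl 1 = 2)

include hd

theorem act_pos {r : SignType} {a c : Multiplicative (ZMod m)}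
    (h : st (Multiplicative.ofAdd 1) r (c⁻¹ * a) ≠ 0) :
    (r = 1 ∧ dbl a.toAdd = dbl c.toAdd + 2) ∨ (r = -1 ∧ dbl a.toAdd = dbl c.toAdd - 2) := by
  rcases st_ne _ h with ⟨e, f⟩ | ⟨e, f⟩
  · left
    refine ⟨e, ?_⟩
    have : a = c * Multiplicative.ofAdd 1 := by rw [← f]; group
    rw [this, toAdd_mul, toAdd_ofAdd, map_add, hd]
  · right
    refine ⟨e, ?_⟩
    have : a = c * (Multiplicative.ofAdd 1)⁻¹ := by rw [← f]; group
    rw [this, toAdd_mul, toAdd_inv, toAdd_ofAdd, map_add, map_neg, hd]
    ring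

theorem adjP {r : SignType} {a c : Multiplicative (ZMod m)}
    (h : st (Multiplicative.ofAdd 1) r (c⁻¹ * a) ≠ 0) :
    dbl a.toAdd - (dbl c.toAdd + ((r : ℤ) : ZMod (2 * m))) = 1 ∨
      dbl a.toAdd - (dbl c.toAdd + ((r : ℤ) : ZMod (2 * m))) = -1 := by
  rcases act_pos hm dbl hd h with ⟨rfl, f⟩ | ⟨rfl, f⟩
  · left
    rw [f]
    simp
    ring
  · right
    rw [f]
    simp
    ring

theorem win {r r' : SignType} {a c c' : Multiplicative (ZMod m)}
    (h : st (Multiplicative.ofAdd 1) r (c⁻¹ * a) ≠ 0)
    (h' : st (Multiplicative.ofAdd 1) r' (c'⁻¹ * a) ≠ 0) (hc : c ≠ c') :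
    (dbl a.toAdd - (dbl c.toAdd + ((r : ℤ) : ZMod (2 * m))) = 1 ∧
      dbl a.toAdd - (dbl c'.toAdd + ((r' : ℤ) : ZMod (2 * m))) = -1) ∨
    (dbl a.toAdd - (dbl c.toAdd + ((r : ℤ) : ZMod (2 * m))) = -1 ∧
      dbl a.toAdd - (dbl c'.toAdd + ((r' : ℤ) : ZMod (2 * m))) = 1) := by
  have key : ∀ {x y : Multiplicative (ZMod m)}, x⁻¹ * a = y⁻¹ * a → x = y := by
    intro x y e
    exact inv_injective (mul_right_cancel e)
  rcases st_ne _ h with ⟨e1, f1⟩ | ⟨e1, f1⟩ <;> rcases st_ne _ h' with ⟨e2, f2⟩ | ⟨e2, f2⟩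
  · exact absurd (key (f1.trans f2.symm)) hc
  · left
    rcases act_pos hm dbl hd h with ⟨g1, f⟩ | ⟨g1, f⟩
    · rcases act_pos hm dbl hd h' with ⟨g2, f'⟩ | ⟨g2, f'⟩
      · rw [g2] at e2
        exact absurd e2 (by decide)
      · constructor
        · rw [f, g1]
          simp
          ring
        · rw [f', g2]
          simp
          ring
    · rw [g1] at e1
      exact absurd e1 (by decide)
  · right
    rcases act_pos hm dbl hd h with ⟨g1, f⟩ | ⟨g1, f⟩
    · rw [g1] at e1
      exact absurd e1 (by decide)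
    · rcases act_pos hm dbl hd h' with ⟨g2, f'⟩ | ⟨g2, f'⟩
      · constructor
        · rw [f, g1]
          simp
          ring
        · rw [f', g2]
          simp
          ring
      · rw [g2] at e2
        exact absurd e2 (by decide)
  · exact absurd (key (f1.trans f2.symm)) hc

theorem phi_K (r0 r1 r2 : SignType) (c0 c1 c2 : Multiplicative (ZMod m)) :
    phi m dbl r0 r1 (c0⁻¹ * c1) + phi m dbl r1 r2 (c1⁻¹ * c2) - phi m dbl r0 r2 (c0⁻¹ * c2) =
      tau m ((dbl c1.toAdd + ((r1 : ℤ) : ZMod (2 * m))) - (dbl c0.toAdd + ((r0 : ℤ) : ZMod (2 * m)))) +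
      tau m ((dbl c2.toAdd + ((r2 : ℤ) : ZMod (2 * m))) - (dbl c1.toAdd + ((r1 : ℤ) : ZMod (2 * m)))) -
      tau m ((dbl c2.toAdd + ((r2 : ℤ) : ZMod (2 * m))) -
        (dbl c0.toAdd + ((r0 : ℤ) : ZMod (2 * m)))) := by
  unfold phi
  simp only [toAdd_mul, toAdd_inv, map_add, map_neg]
  have e : ∀ x y r r' : ZMod (2 * m), -x + y + (r' - r) = (y + r') - (x + r) := by
    intro x y r r'
    ring
  rw [e, e, e]
  ring

noncomputable def locPoly : Loc (Multiplicative.ofAdd (1 : ZMod m)) 1 where
  φ := phi m dbl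
  zero := by
    intro l r
    unfold phi
    rw [toAdd_one, map_zero, zero_add]
    rcases l.trichotomy with rfl | rfl | rfl <;> rcases r.trichotomy with rfl | rfl | rfl
    · simp [tau_zero hm]
    · have e : (((0 : SignType) : ℤ) : ZMod (2 * m)) - (((-1 : SignType) : ℤ) : ZMod (2 * m)) = 1 := by
        simp
      rw [e, tau_one hm]
      simp
      norm_num
    · have e : (((1 : SignType) : ℤ) : ZMod (2 * m)) - (((-1 : SignType) : ℤ) : ZMod (2 * m)) = 2 := by
        simp
        norm_num
      rw [e, tau_two hm]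
      simp
      norm_num
    · have e : (((-1 : SignType) : ℤ) : ZMod (2 * m)) - (((0 : SignType) : ℤ) : ZMod (2 * m)) = -1 := by
        simp
      rw [e, tau_m1 hm]
      simp
      norm_num
    · simp [tau_zero hm]
    · have e : (((1 : SignType) : ℤ) : ZMod (2 * m)) - (((0 : SignType) : ℤ) : ZMod (2 * m)) = 1 := by
        simp
      rw [e, tau_one hm]
      simp
      norm_num
    · have e : (((-1 : SignType) : ℤ) : ZMod (2 * m)) - (((1 : SignType) : ℤ) : ZMod (2 * m)) = -2 := by
        simp
        norm_num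
      rw [e, tau_m2 hm]
      simp
    · have e : (((0 : SignType) : ℤ) : ZMod (2 * m)) - (((1 : SignType) : ℤ) : ZMod (2 * m)) = -1 := by
        simp
      rw [e, tau_m1 hm]
      simp
      norm_num
    · simp [tau_zero hm]
  neg := by
    intro l r j
    unfold phi
    have e : dbl (Multiplicative.toAdd j⁻¹) + ((((-r : SignType) : ℤ) : ZMod (2 * m)) -
        (((-l : SignType) : ℤ) : ZMod (2 * m))) = -(dbl (Multiplicative.toAdd j) +
        (((r : ℤ) : ZMod (2 * m)) - ((l : ℤ) : ZMod (2 * m)))) := by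
      rw [toAdd_inv, map_neg]
      simp only [SignType.coe_neg, Int.cast_neg]
      ring
    rw [e, tau_neg hm]
    simp only [SignType.coe_neg, Int.cast_neg]
    ring
  inv := by
    intro l r j
    unfold phi
    have e : dbl (Multiplicative.toAdd j⁻¹) + (((l : ℤ) : ZMod (2 * m)) -
        ((r : ℤ) : ZMod (2 * m))) = -(dbl (Multiplicative.toAdd j) +
        (((r : ℤ) : ZMod (2 * m)) - ((l : ℤ) : ZMod (2 * m)))) := by
      rw [toAdd_inv, map_neg]
      ring
    rw [e, tau_neg hm]
    ring
  flip := by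
    intro r j
    unfold phi
    have e : dbl (Multiplicative.toAdd (Multiplicative.ofAdd 1 * j⁻¹)) +
        ((((-r : SignType) : ℤ) : ZMod (2 * m)) - (((1 : SignType) : ℤ) : ZMod (2 * m))) =
        -(dbl (Multiplicative.toAdd j) +
        (((r : ℤ) : ZMod (2 * m)) - (((1 : SignType) : ℤ) : ZMod (2 * m)))) := by
      rw [toAdd_mul, toAdd_inv, toAdd_ofAdd, map_add, map_neg, hd]
      simp only [SignType.coe_neg, Int.cast_neg, SignType.coe_one, Int.cast_one]
      ring
    rw [e, tau_neg hm]
    simp only [SignType.coe_neg, Int.cast_neg, SignType.coe_one, Int.cast_one]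
    ring
  same := by
    intro z
    unfold phi
    rw [toAdd_ofAdd, hd]
    rcases z.trichotomy with rfl | rfl | rfl
    · have e : (2 : ZMod (2 * m)) + ((((-1 : SignType) : ℤ) : ZMod (2 * m)) -
        (((-1 : SignType) : ℤ) : ZMod (2 * m))) = 2 := by simp
      have e' : (2 : ZMod (2 * m)) + ((((-1 : SignType) : ℤ) : ZMod (2 * m)) -
        (((0 : SignType) : ℤ) : ZMod (2 * m))) = 1 := by simp; ring
      rw [e, e', tau_two hm, tau_one hm]
      simp
      norm_num
    · rfl
    · have e : (2 : ZMod (2 * m)) + ((((-1 : SignType) : ℤ) : ZMod (2 * m)) -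
        (((1 : SignType) : ℤ) : ZMod (2 * m))) = 0 := by simp; ring
      have e' : (2 : ZMod (2 * m)) + ((((-1 : SignType) : ℤ) : ZMod (2 * m)) -
        (((0 : SignType) : ℤ) : ZMod (2 * m))) = 1 := by simp; ring
      rw [e, e', tau_zero hm, tau_one hm]
      simp
      norm_num
  act := by
    unfold phi
    rw [toAdd_ofAdd, hd]
    have e : (2 : ZMod (2 * m)) + ((((0 : SignType) : ℤ) : ZMod (2 * m)) -
      (((1 : SignType) : ℤ) : ZMod (2 * m))) = 1 := by simp; ring
    have e' : (2 : ZMod (2 * m)) + ((((0 : SignType) : ℤ) : ZMod (2 * m)) -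
      (((0 : SignType) : ℤ) : ZMod (2 * m))) = 2 := by simp
    rw [e, e', tau_two hm, tau_one hm]
    simp
    norm_num
  one := by
    intro z r j
    have h := phi_lip hm (dbl (Multiplicative.toAdd j) + ((r : ℤ) : ZMod (2 * m))) z
    have e : phi m dbl z r j - phi m dbl 0 r j = ((z : ℤ) : ℝ) / 2 +
        tau m (dbl (Multiplicative.toAdd j) + ((r : ℤ) : ZMod (2 * m)) - ((z : ℤ) : ZMod (2 * m))) -
        tau m (dbl (Multiplicative.toAdd j) + ((r : ℤ) : ZMod (2 * m))) := by
      unfold phi
      have e1 : dbl (Multiplicative.toAdd j) + (((r : ℤ) : ZMod (2 * m)) -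
          ((z : ℤ) : ZMod (2 * m))) = dbl (Multiplicative.toAdd j) + ((r : ℤ) : ZMod (2 * m)) -
          ((z : ℤ) : ZMod (2 * m)) := by ring
      have e2 : dbl (Multiplicative.toAdd j) + (((r : ℤ) : ZMod (2 * m)) -
          (((0 : SignType) : ℤ) : ZMod (2 * m))) = dbl (Multiplicative.toAdd j) +
          ((r : ℤ) : ZMod (2 * m)) := by simp
      rw [e1, e2]
      simp only [SignType.coe_zero, Int.cast_zero]
      ring
    rw [e]
    exact h
  main := by
    intro r0 r1 r2 c0 c1 c2 h01 h12 h02
    have hK := phi_K hm dbl hd r0 r1 r2 c0 c1 c2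
    set P0 := dbl c0.toAdd + ((r0 : ℤ) : ZMod (2 * m)) with hP0
    set P1 := dbl c1.toAdd + ((r1 : ℤ) : ZMod (2 * m)) with hP1
    set P2 := dbl c2.toAdd + ((r2 : ℤ) : ZMod (2 * m)) with hP2
    have e20 : P2 - P0 = (P1 - P0) + (P2 - P1) := by ring
    rw [e20] at hK
    -- the positions of the active pairs
    have z0 : r0 = 0 → P0 = dbl c0.toAdd := by rintro rfl; simp [hP0]
    have z1 : r1 = 0 → P1 = dbl c1.toAdd := by rintro rfl; simp [hP1]
    have z2 : r2 = 0 → P2 = dbl c2.toAdd := by rintro rfl; simp [hP2]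
    refine main_of _ (φ := phi m dbl) r0 r1 r2 c0 c1 c2 h01 h12 h02 hK.symm
      (tau_tri hm _ _) ?_ ?_ ?_ ?_ ?_ ?_
    · rintro (⟨e, h⟩ | ⟨e, h⟩)
      · apply adj hm
        have := adjP hm dbl hd h
        rw [← hP1, ← z0 e] at this
        left
        rcases this with h' | h'
        · right; linear_combination -h'
        · left; linear_combination -h'
      · apply adj hm
        have := adjP hm dbl hd h
        rw [← hP2, ← z0 e] at this
        right; right
        rcases this with h' | h'
        · right; linear_combination -h'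
        · left; linear_combination -h'
    · rintro (⟨e, h⟩ | ⟨e, h⟩)
      · apply adj hm
        have := adjP hm dbl hd h
        rw [← hP0, ← z1 e] at this
        left
        exact this
      · apply adj hm
        have := adjP hm dbl hd h
        rw [← hP2, ← z1 e] at this
        right; left
        rcases this with h' | h'
        · right; linear_combination -h'
        · left; linear_combination -h'
    · rintro (⟨e, h⟩ | ⟨e, h⟩)
      · apply adj hm
        have := adjP hm dbl hd h
        rw [← hP0, ← z2 e] at this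
        right; right
        rcases this with h' | h'
        · left; linear_combination h'
        · right; linear_combination h'
      · apply adj hm
        have := adjP hm dbl hd h
        rw [← hP1, ← z2 e] at this
        right; left
        exact this
    · rintro ⟨e, h⟩ ⟨-, h'⟩
      have := win hm dbl hd h h' h12
      rw [← hP1, ← hP2, ← z0 e] at this
      rcases this with ⟨g, g'⟩ | ⟨g, g'⟩
      · have f1 : P1 - P0 = -1 := by linear_combination -g
        have f2 : P2 - P1 = 2 := by linear_combination g - g'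
        rw [f1, f2, tau_m1 hm, tau_two hm]
        have : (-1 + 2 : ZMod (2 * m)) = 1 := by norm_num
        rw [this, tau_one hm]
        norm_num
      · have f1 : P1 - P0 = 1 := by linear_combination -g
        have f2 : P2 - P1 = -2 := by linear_combination g - g'
        rw [f1, f2, tau_one hm, tau_m2 hm]
        have : (1 + -2 : ZMod (2 * m)) = -1 := by norm_num
        rw [this, tau_m1 hm]
        norm_num
    · rintro ⟨e, h⟩ ⟨-, h'⟩
      have := win hm dbl hd h h' h02
      rw [← hP0, ← hP2, ← z1 e] at this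
      rcases this with ⟨g, g'⟩ | ⟨g, g'⟩
      · have f2 : P2 - P1 = 1 := by linear_combination -g'
        rw [g, f2, tau_one hm]
        have : (1 + 1 : ZMod (2 * m)) = 2 := by norm_num
        rw [this, tau_two hm]
        norm_num
      · have f2 : P2 - P1 = -1 := by linear_combination -g'
        rw [g, f2, tau_m1 hm]
        have : (-1 + -1 : ZMod (2 * m)) = -2 := by norm_num
        rw [this, tau_m2 hm]
        norm_num
    · rintro ⟨e, h⟩ ⟨-, h'⟩
      have := win hm dbl hd h h' h01
      rw [← hP0, ← hP1, ← z2 e] at this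
      rcases this with ⟨g, g'⟩ | ⟨g, g'⟩
      · have f1 : P1 - P0 = 2 := by linear_combination g - g'
        rw [f1, g', tau_two hm, tau_m1 hm]
        have : (2 + -1 : ZMod (2 * m)) = 1 := by norm_num
        rw [this, tau_one hm]
        norm_num
      · have f1 : P1 - P0 = -2 := by linear_combination g - g'
        rw [f1, g', tau_m2 hm, tau_one hm]
        have : (-2 + 1 : ZMod (2 * m)) = -1 := by norm_num
        rw [this, tau_m1 hm]
        norm_num

end Pool.Agent.J4.H27.UL
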