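import Pool.Agent.J4.H27.UL.Fp
import Pool.Agent.J4.H27.UL.Loc2

/-!
The quasi-cocycle of a star: free products of cyclic groups.
-/

set_option autoImplicit false
set_option linter.unusedSectionVars false

open scoped Classical

namespace Pool.Agent.J4.H27.UL

open Monoid

/-- the `ℓ¹`-norm -/
noncomputable def nm {S : Type} [Fintype S] (v : S → ℝ) : ℝ := ∑ x, |v x|

section

variable {S : Type} [Fintype S]

theorem nm_nonneg (v : S → ℝ) : 0 ≤ nm v := Finset.sum_nonneg fun _ _ => abs_nonneg _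

theorem nm_add (v w : S → ℝ) : nm (v + w) ≤ nm v + nm w := by
  unfold nm
  rw [← Finset.sum_add_distrib]
  exact Finset.sum_le_sum fun x _ => abs_add_le _ _

theorem nm_neg (v : S → ℝ) : nm (-v) = nm v := by
  unfold nm
  simp

theorem nm_sub (v w : S → ℝ) : nm (v - w) ≤ nm v + nm w := by
  rw [sub_eq_add_neg, ← nm_neg w]
  exact nm_add _ _

theorem nm_zero : nm (0 : S → ℝ) = 0 := by
  unfold nm
  simp

theorem nm_single (x : S) (t : ℝ) : nm (Pi.single x t : S → ℝ) = |t| := by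
  unfold nm
  rw [Finset.sum_eq_single x]
  · rw [Pi.single_eq_same]
  · intro y _ hy
    rw [Pi.single_eq_of_ne hy, abs_zero]
  · intro h
    exact absurd (Finset.mem_univ _) h

end

section

variable {S : Type} {C : S → Type} [∀ x, CommGroup (C x)] {ρ : ∀ x, C x} {c : S → ℝ}
  (L : ∀ x, Loc (ρ x) (c x))

variable (ρ) in
/-- the type of the region of the last vertex, at the first vertex -/
noncomputable def RR (f : SignType) : List (Σ x, C x) → SignType
  | [] => f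
  | s :: t => st (ρ s.1) (RR f t) s.2⁻¹

variable (ρ) in
/-- the type of the region of the first vertex, at the last vertex -/
noncomputable def LL : SignType → List (Σ x, C x) → SignType
  | l, [] => l
  | l, s :: t => LL (st (ρ s.1) l s.2) t

/-- the sum of the local functions along a path -/
noncomputable def bs : SignType → SignType → List (Σ x, C x) → (S → ℝ)
  | _, _, [] => 0
  | l, f, s :: t => Pi.single s.1 ((L s.1).φ l (RR ρ f t) s.2) + bs (st (ρ s.1) l s.2) f t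

theorem RR_append (f : SignType) (u v : List (Σ x, C x)) : RR ρ f (u ++ v) = RR ρ (RR ρ f v) u := by
  induction u with
  | nil => rfl
  | cons s u ih =>
    change st (ρ s.1) (RR ρ f (u ++ v)) s.2⁻¹ = _
    rw [ih]
    rfl

theorem LL_append (l : SignType) (u v : List (Σ x, C x)) : LL ρ l (u ++ v) = LL ρ (LL ρ l u) v := by
  induction u generalizing l with
  | nil => rfl
  | cons s u ih => exact ih _

theorem bs_append (l f : SignType) (u v : List (Σ x, C x)) :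
    bs L l f (u ++ v) = bs L l (RR ρ f v) u + bs L (LL ρ l u) f v := by
  induction u generalizing l with
  | nil =>
    change bs L l f v = 0 + bs L l f v
    rw [zero_add]
  | cons s u ih =>
    change Pi.single s.1 ((L s.1).φ l (RR ρ f (u ++ v)) s.2) + bs L (st (ρ s.1) l s.2) f (u ++ v) =
      (Pi.single s.1 ((L s.1).φ l (RR ρ (RR ρ f v) u) s.2) +
        bs L (st (ρ s.1) l s.2) (RR ρ f v) u) + bs L (LL ρ (st (ρ s.1) l s.2) u) f v
    rw [ih, RR_append, add_assoc]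

theorem RR_iv (f : SignType) (t : List (Σ x, C x)) : RR ρ f (iv t) = LL ρ f t := by
  induction t generalizing f with
  | nil => rfl
  | cons s t ih =>
    rw [iv_cons, RR_append, ih]
    change LL ρ (st (ρ s.1) f (s.2⁻¹)⁻¹) t = _
    rw [inv_inv]
    rfl

theorem LL_iv (l : SignType) (t : List (Σ x, C x)) : LL ρ l (iv t) = RR ρ l t := by
  induction t generalizing l with
  | nil => rfl
  | cons s t ih =>
    rw [iv_cons, LL_append, ih]
    rfl

theorem bs_iv (l f : SignType) (t : List (Σ x, C x)) : bs L l f (iv t) = - bs L f l t := by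
  induction t generalizing f with
  | nil => simp [iv_nil, bs]
  | cons s t ih =>
    rw [iv_cons, bs_append]
    change bs L l (st (ρ s.1) f (s.2⁻¹)⁻¹) (iv t) +
      (Pi.single s.1 ((L s.1).φ (LL ρ l (iv t)) f s.2⁻¹) + 0) = _
    rw [ih, inv_inv, LL_iv, (L s.1).inv, add_zero]
    change _ = -(Pi.single s.1 ((L s.1).φ f (RR ρ l t) s.2) + bs L (st (ρ s.1) f s.2) l t)
    rw [Pi.single_neg]
    abel

/-- change of the signs of all exponents -/
def ng (l : List (Σ x, C x)) : List (Σ x, C x) := fl (fun _ => invMonoidHom) l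

theorem ng_cons (s : Σ x, C x) (t : List (Σ x, C x)) : ng (s :: t) = ⟨s.1, s.2⁻¹⟩ :: ng t := rfl

theorem RR_ng (f : SignType) (t : List (Σ x, C x)) : RR ρ (-f) (ng t) = - RR ρ f t := by
  induction t with
  | nil => rfl
  | cons s t ih =>
    rw [ng_cons]
    change st (ρ s.1) (RR ρ (-f) (ng t)) (s.2⁻¹)⁻¹ = - st (ρ s.1) (RR ρ f t) s.2⁻¹
    rw [ih, st_neg]

theorem bs_ng (l f : SignType) (t : List (Σ x, C x)) : bs L (-l) (-f) (ng t) = - bs L l f t := by
  induction t generalizing l with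
  | nil => simp [ng, fl, bs]
  | cons s t ih =>
    rw [ng_cons]
    change Pi.single s.1 ((L s.1).φ (-l) (RR ρ (-f) (ng t)) s.2⁻¹) +
      bs L (st (ρ s.1) (-l) s.2⁻¹) (-f) (ng t) = _
    rw [RR_ng, (L s.1).neg, st_neg, ih]
    change _ = -(Pi.single s.1 ((L s.1).φ l (RR ρ f t) s.2) + bs L (st (ρ s.1) l s.2) f t)
    rw [Pi.single_neg]
    abel

theorem same' (x : S) (z : SignType) : (L x).φ z 1 (ρ x)⁻¹ = (L x).φ 0 1 (ρ x)⁻¹ := by
  have h1 := (L x).neg (-z) (-1) (ρ x)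
  have h2 := (L x).neg 0 (-1) (ρ x)
  rw [neg_neg, neg_neg] at h1
  rw [neg_zero, neg_neg] at h2
  rw [h1, h2, (L x).same]

theorem act' (x : S) : (L x).φ (-1) 0 (ρ x)⁻¹ = (L x).φ 0 0 (ρ x)⁻¹ := by
  have h1 := (L x).neg 1 0 (ρ x)
  have h2 := (L x).neg 0 0 (ρ x)
  rw [neg_zero] at h1 h2
  rw [h1, h2, (L x).act]

/-- if the path is in the region of the last vertex, the type at the first vertex does not matter -/
theorem bs_indep (z f : SignType) (t : List (Σ x, C x)) (h : RR ρ f t ≠ 0) :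
    bs L z f t = bs L 0 f t := by
  induction t generalizing z with
  | nil => rfl
  | cons s t ih =>
    change Pi.single s.1 ((L s.1).φ z (RR ρ f t) s.2) + bs L (st (ρ s.1) z s.2) f t =
      Pi.single s.1 ((L s.1).φ 0 (RR ρ f t) s.2) + bs L (st (ρ s.1) 0 s.2) f t
    have h' : st (ρ s.1) (RR ρ f t) s.2⁻¹ ≠ 0 := h
    have h0 := st_r_ne (ρ s.1) h'
    rw [st_zero, ih (st (ρ s.1) z s.2) h0]
    congr 2
    rcases st_ne (ρ s.1) h' with ⟨e1, e2⟩ | ⟨e1, e2⟩
    · have e3 : s.2 = (ρ s.1)⁻¹ := by rw [← e2, inv_inv]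
      rw [e1, e3]
      exact same' L s.1 z
    · have e3 : s.2 = ρ s.1 := inv_injective e2
      rw [e1, e3]
      exact (L s.1).same z

variable [Fintype S]

/-- the type at the first vertex changes the sum by at most one -/
theorem bs_one (z f : SignType) (t : List (Σ x, C x)) : nm (bs L z f t - bs L 0 f t) ≤ 1 := by
  induction t generalizing z with
  | nil =>
    change nm ((0 : S → ℝ) - 0) ≤ 1
    rw [sub_zero, nm_zero]
    norm_num
  | cons s t ih =>
    have e : bs L z f (s :: t) - bs L 0 f (s :: t) =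
        Pi.single s.1 ((L s.1).φ z (RR ρ f t) s.2 - (L s.1).φ 0 (RR ρ f t) s.2) +
        (bs L (st (ρ s.1) z s.2) f t - bs L 0 f t) := by
      change (Pi.single s.1 ((L s.1).φ z (RR ρ f t) s.2) + bs L (st (ρ s.1) z s.2) f t) -
        (Pi.single s.1 ((L s.1).φ 0 (RR ρ f t) s.2) + bs L (st (ρ s.1) 0 s.2) f t) = _
      rw [st_zero, Pi.single_sub]
      abel
    rw [e]
    by_cases h0 : RR ρ f t = 0
    · by_cases h1 : st (ρ s.1) z s.2 = 0
      · rw [h1, sub_self, add_zero, nm_single]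
        exact (L s.1).one _ _ _
      · have e2 : (L s.1).φ z (RR ρ f t) s.2 = (L s.1).φ 0 (RR ρ f t) s.2 := by
          rw [h0]
          rcases st_ne (ρ s.1) h1 with ⟨e1, e2⟩ | ⟨e1, e2⟩
          · rw [e1, e2]
            exact (L s.1).act
          · rw [e1, e2]
            exact act' L s.1
        rw [e2, sub_self, Pi.single_zero, zero_add]
        exact ih _
    · rw [bs_indep L _ f t h0, sub_self, add_zero, nm_single]
      exact (L s.1).one _ _ _

/-- the difference of two types at the first vertex -/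
noncomputable def DD (f : SignType) (t : List (Σ x, C x)) (z : SignType) : S → ℝ :=
  bs L z f t - bs L 0 f t

theorem DD_le (f : SignType) (t : List (Σ x, C x)) (z : SignType) :
    nm (DD L f t z) ≤ if RR ρ f t = 0 ∧ z ≠ 0 then 1 else 0 := by
  unfold DD
  split_ifs with h
  · exact bs_one L z f t
  · rw [not_and_or, not_not] at h
    rcases h with h | h
    · rw [bs_indep L z f t h, sub_self, nm_zero]
    · rw [h, sub_self, nm_zero]

/-- The homogeneous version. -/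
noncomputable def QQ (s0 s1 s2 : SignType) (a0 a1 a2 : CoprodI C) : S → ℝ :=
  bs L s0 s1 (ls (a0⁻¹ * a1)) + bs L s1 s2 (ls (a1⁻¹ * a2)) - bs L s0 s2 (ls (a0⁻¹ * a2))

theorem nm6 (v : S → ℝ) (a b c' d e f : S → ℝ) :
    nm (v + ((a - b) + (c' - d) + (e - f))) ≤ nm v + (nm a + nm b + (nm c' + nm d) + (nm e + nm f)) := by
  have h1 := nm_add v ((a - b) + (c' - d) + (e - f))
  have h2 := nm_add ((a - b) + (c' - d)) (e - f)
  have h3 := nm_add (a - b) (c' - d)
  have h4 := nm_sub a b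
  have h5 := nm_sub c' d
  have h6 := nm_sub e f
  linarith

/-- **The bound.** -/
theorem QQ_le (s0 s1 s2 : SignType) (a0 a1 a2 : CoprodI C) : nm (QQ L s0 s1 s2 a0 a1 a2) ≤ 2 := by
  rcases cen a0 a1 a2 with ⟨m, t0, t1, t2, r0, r1, r2, d01, d12, d02, rfl, rfl, rfl⟩ |
    ⟨m, i, c0, c1, c2, t0, t1, t2, h01, h12, h02, r0, r1, r2, n0, n1, n2, rfl, rfl, rfl⟩
  · unfold QQ
    rw [ls_vtx r0 r1 d01, ls_vtx r1 r2 d12, ls_vtx r0 r2 d02, bs_append, bs_append, bs_append,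
      bs_iv, bs_iv, bs_iv, LL_iv, LL_iv]
    set u0 := RR ρ s0 t0
    set u1 := RR ρ s1 t1
    set u2 := RR ρ s2 t2
    have e : -bs L u1 s0 t0 + bs L u0 s1 t1 + (-bs L u2 s1 t1 + bs L u1 s2 t2) -
        (-bs L u2 s0 t0 + bs L u0 s2 t2) = 0 + ((DD L s0 t0 u2 - DD L s0 t0 u1) +
        (DD L s1 t1 u0 - DD L s1 t1 u2) + (DD L s2 t2 u1 - DD L s2 t2 u0)) := by
      unfold DD
      abel
    rw [e]
    refine le_trans (nm6 _ _ _ _ _ _ _) ?_
    rw [nm_zero]
    have g1 := DD_le L s0 t0 u2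
    have g2 := DD_le L s0 t0 u1
    have g3 := DD_le L s1 t1 u0
    have g4 := DD_le L s1 t1 u2
    have g5 := DD_le L s2 t2 u1
    have g6 := DD_le L s2 t2 u0
    change _ ≤ (if u0 = 0 ∧ u2 ≠ 0 then (1 : ℝ) else 0) at g1
    change _ ≤ (if u0 = 0 ∧ u1 ≠ 0 then (1 : ℝ) else 0) at g2
    change _ ≤ (if u1 = 0 ∧ u0 ≠ 0 then (1 : ℝ) else 0) at g3
    change _ ≤ (if u1 = 0 ∧ u2 ≠ 0 then (1 : ℝ) else 0) at g4
    change _ ≤ (if u2 = 0 ∧ u1 ≠ 0 then (1 : ℝ) else 0) at g5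
    change _ ≤ (if u2 = 0 ∧ u0 ≠ 0 then (1 : ℝ) else 0) at g6
    generalize nm (DD L s0 t0 u2) = A1 at g1 ⊢
    generalize nm (DD L s0 t0 u1) = A2 at g2 ⊢
    generalize nm (DD L s1 t1 u0) = A3 at g3 ⊢
    generalize nm (DD L s1 t1 u2) = A4 at g4 ⊢
    generalize nm (DD L s2 t2 u1) = A5 at g5 ⊢
    generalize nm (DD L s2 t2 u0) = A6 at g6 ⊢
    by_cases k0 : u0 = 0 <;> by_cases k1 : u1 = 0 <;> by_cases k2 : u2 = 0 <;>
      simp only [k0, k1, k2, ne_eq, not_true_eq_false, not_false_eq_true, and_true, and_false,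
        if_true, if_false] at g1 g2 g3 g4 g5 g6 <;> linarith
  · unfold QQ
    rw [ls_cos r0 r1 h01 n0 n1, ls_cos r1 r2 h12 n1 n2, ls_cos r0 r2 h02 n0 n2, bs_append,
      bs_append, bs_append]
    have eR : ∀ (f : SignType) (d : C i) (t : List (Σ x, C x)),
        RR ρ f (⟨i, d⟩ :: t) = st (ρ i) (RR ρ f t) d⁻¹ := fun _ _ _ => rfl
    have eB : ∀ (l f : SignType) (d : C i) (t : List (Σ x, C x)), bs L l f (⟨i, d⟩ :: t) =
        Pi.single i ((L i).φ l (RR ρ f t) d) + bs L (st (ρ i) l d) f t := fun _ _ _ _ => rfl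
    rw [eR, eR, eR, eB, eB, eB, bs_iv, bs_iv, bs_iv, LL_iv, LL_iv]
    set u0 := RR ρ s0 t0
    set u1 := RR ρ s1 t1
    set u2 := RR ρ s2 t2
    have i01 : (c0⁻¹ * c1)⁻¹ = c1⁻¹ * c0 := by rw [mul_inv_rev, inv_inv]
    have i12 : (c1⁻¹ * c2)⁻¹ = c2⁻¹ * c1 := by rw [mul_inv_rev, inv_inv]
    have i02 : (c0⁻¹ * c2)⁻¹ = c2⁻¹ * c0 := by rw [mul_inv_rev, inv_inv]
    rw [i01, i12, i02]
    have e : -bs L (st (ρ i) u1 (c1⁻¹ * c0)) s0 t0 +
          (Pi.single i ((L i).φ u0 u1 (c0⁻¹ * c1)) + bs L (st (ρ i) u0 (c0⁻¹ * c1)) s1 t1) +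
        (-bs L (st (ρ i) u2 (c2⁻¹ * c1)) s1 t1 +
          (Pi.single i ((L i).φ u1 u2 (c1⁻¹ * c2)) + bs L (st (ρ i) u1 (c1⁻¹ * c2)) s2 t2)) -
        (-bs L (st (ρ i) u2 (c2⁻¹ * c0)) s0 t0 +
          (Pi.single i ((L i).φ u0 u2 (c0⁻¹ * c2)) + bs L (st (ρ i) u0 (c0⁻¹ * c2)) s2 t2)) =
        Pi.single i ((L i).φ u0 u1 (c0⁻¹ * c1) + (L i).φ u1 u2 (c1⁻¹ * c2) -
          (L i).φ u0 u2 (c0⁻¹ * c2)) +
        ((DD L s0 t0 (st (ρ i) u2 (c2⁻¹ * c0)) - DD L s0 t0 (st (ρ i) u1 (c1⁻¹ * c0))) +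
        (DD L s1 t1 (st (ρ i) u0 (c0⁻¹ * c1)) - DD L s1 t1 (st (ρ i) u2 (c2⁻¹ * c1))) +
        (DD L s2 t2 (st (ρ i) u1 (c1⁻¹ * c2)) - DD L s2 t2 (st (ρ i) u0 (c0⁻¹ * c2)))) := by
      unfold DD
      rw [Pi.single_sub, Pi.single_add]
      abel
    rw [e]
    refine le_trans (nm6 _ _ _ _ _ _ _) ?_
    rw [nm_single]
    have g1 := DD_le L s0 t0 (st (ρ i) u2 (c2⁻¹ * c0))
    have g2 := DD_le L s0 t0 (st (ρ i) u1 (c1⁻¹ * c0))
    have g3 := DD_le L s1 t1 (st (ρ i) u0 (c0⁻¹ * c1))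
    have g4 := DD_le L s1 t1 (st (ρ i) u2 (c2⁻¹ * c1))
    have g5 := DD_le L s2 t2 (st (ρ i) u1 (c1⁻¹ * c2))
    have g6 := DD_le L s2 t2 (st (ρ i) u0 (c0⁻¹ * c2))
    have hmain := (L i).main u0 u1 u2 c0 c1 c2 h01 h12 h02
    linarith

end

end Pool.Agent.J4.H27.UL
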