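import Pool.Agent.J4.H27.UL.Star

/-!
Twisted quasi-cocycles of free products.
-/

set_option autoImplicit false
set_option linter.unusedSectionVars false

open scoped Classical

namespace Pool.Agent.J4.H27.UL

open Monoid

section

variable {ι : Type} {G : ι → Type} [∀ i, Group (G i)] (ε : ∀ i, G i →* ℤˣ) {T : Type}

/-- the sign -/
noncomputable def EE : CoprodI G →* ℤˣ := CoprodI.lift ε

theorem EE_of {i : ι} (d : G i) : EE ε (CoprodI.of d) = ε i d := by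
  unfold EE
  rw [CoprodI.lift_of]

/-- the extension of functions on the factors -/
noncomputable def bl (b : ∀ i, G i → (T → ℝ)) : List (Σ i, G i) → (T → ℝ)
  | [] => 0
  | s :: t => b s.1 s.2 + rs (ε s.1 s.2) • bl b t

variable {ε} {b : ∀ i, G i → (T → ℝ)}

theorem rs_pr_iv (t : List (Σ i, G i)) : rs (EE ε (pr (iv t))) = rs (EE ε (pr t)) := by
  rw [pr_iv, map_inv, rs_inv]

theorem bl_append (u v : List (Σ i, G i)) :
    bl ε b (u ++ v) = bl ε b u + rs (EE ε (pr u)) • bl ε b v := by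
  induction u with
  | nil =>
    change bl ε b v = 0 + _
    rw [pr_nil, map_one, rs_one, one_smul, zero_add]
  | cons s u ih =>
    change b s.1 s.2 + rs (ε s.1 s.2) • bl ε b (u ++ v) =
      (b s.1 s.2 + rs (ε s.1 s.2) • bl ε b u) + _
    rw [ih, pr_cons, map_mul, EE_of, rs_mul, smul_add, smul_smul, add_assoc]

theorem bl_iv (hb : ∀ i g, b i g⁻¹ = -(rs (ε i g) • b i g)) (t : List (Σ i, G i)) :
    bl ε b (iv t) = -(rs (EE ε (pr t)) • bl ε b t) := by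
  induction t with
  | nil =>
    change (0 : T → ℝ) = -(_ • (0 : T → ℝ))
    simp
  | cons s t ih =>
    rw [iv_cons, bl_append, ih, rs_pr_iv, pr_cons, map_mul, EE_of, rs_mul]
    change -(rs (EE ε (pr t)) • bl ε b t) + rs (EE ε (pr t)) •
      (b s.1 s.2⁻¹ + rs (ε s.1 s.2⁻¹) • (0 : T → ℝ)) =
      -((rs (ε s.1 s.2) * rs (EE ε (pr t))) • (b s.1 s.2 + rs (ε s.1 s.2) • bl ε b t))
    rw [hb]
    have h := rs_sq (ε s.1 s.2)
    funext x
    simp only [Pi.add_apply, Pi.neg_apply, Pi.smul_apply, smul_eq_mul, Pi.zero_apply, mul_zero,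
      add_zero]
    linear_combination (rs (EE ε (pr t)) * bl ε b t x) * h

variable (ε b) in
/-- the homogeneous one-cochain -/
noncomputable def Bh (w w' : CoprodI G) : T → ℝ := rs (EE ε w) • bl ε b (ls (w⁻¹ * w'))

variable (ε b) in
/-- its coboundary -/
noncomputable def Ch (w0 w1 w2 : CoprodI G) : T → ℝ :=
  Bh ε b w0 w1 + Bh ε b w1 w2 - Bh ε b w0 w2

theorem Bh_swap (hb : ∀ i g, b i g⁻¹ = -(rs (ε i g) • b i g)) (w w' : CoprodI G) :
    Bh ε b w' w = - Bh ε b w w' := by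
  unfold Bh
  have e : w'⁻¹ * w = (w⁻¹ * w')⁻¹ := by rw [mul_inv_rev, inv_inv]
  rw [e, ls_inv, bl_iv hb, pr_ls, map_mul, map_inv, rs_mul, rs_inv, smul_neg, smul_smul]
  congr 1
  have h := rs_sq (EE ε w')
  congr 1
  linear_combination (rs (EE ε w)) * h

theorem Bh_self (w : CoprodI G) : Bh ε b w w = 0 := by
  unfold Bh
  rw [inv_mul_cancel, ls_one]
  change _ • (0 : T → ℝ) = 0
  rw [smul_zero]

theorem Ch_swap (hb : ∀ i g, b i g⁻¹ = -(rs (ε i g) • b i g)) (w0 w1 w2 : CoprodI G) :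
    Ch ε b w1 w0 w2 = - Ch ε b w0 w1 w2 := by
  unfold Ch
  rw [Bh_swap hb w0 w1]
  abel

theorem Ch_swap' (hb : ∀ i g, b i g⁻¹ = -(rs (ε i g) • b i g)) (w0 w1 w2 : CoprodI G) :
    Ch ε b w0 w2 w1 = - Ch ε b w0 w1 w2 := by
  unfold Ch
  rw [Bh_swap hb w1 w2]
  abel

theorem Ch_self (w0 w2 : CoprodI G) : Ch ε b w0 w0 w2 = 0 := by
  unfold Ch
  rw [Bh_self]
  abel

theorem Ch_coc (w0 w1 w2 w3 : CoprodI G) :
    Ch ε b w1 w2 w3 - Ch ε b w0 w2 w3 + Ch ε b w0 w1 w3 - Ch ε b w0 w1 w2 = 0 := by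
  unfold Ch
  abel

theorem Ch_mul (g w0 w1 w2 : CoprodI G) :
    Ch ε b (g * w0) (g * w1) (g * w2) = rs (EE ε g) • Ch ε b w0 w1 w2 := by
  have h : ∀ w w' : CoprodI G, Bh ε b (g * w) (g * w') = rs (EE ε g) • Bh ε b w w' := by
    intro w w'
    unfold Bh
    have e : (g * w)⁻¹ * (g * w') = w⁻¹ * w' := by group
    rw [e, map_mul, rs_mul, smul_smul]
  unfold Ch
  rw [h, h, h, smul_sub, smul_add]

/-- the coboundary is concentrated in one factor -/
theorem Ch_cases (hb : ∀ i g, b i g⁻¹ = -(rs (ε i g) • b i g)) (w0 w1 w2 : CoprodI G) :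
    Ch ε b w0 w1 w2 = 0 ∨ ∃ (m : CoprodI G) (i : ι) (c0 c1 c2 : G i), Ch ε b w0 w1 w2 =
      rs (EE ε m) • (rs (ε i c0) • b i (c0⁻¹ * c1) + rs (ε i c1) • b i (c1⁻¹ * c2) -
        rs (ε i c0) • b i (c0⁻¹ * c2)) := by
  rcases cen w0 w1 w2 with ⟨m, t0, t1, t2, r0, r1, r2, d01, d12, d02, rfl, rfl, rfl⟩ |
    ⟨m, i, c0, c1, c2, t0, t1, t2, h01, h12, h02, r0, r1, r2, n0, n1, n2, rfl, rfl, rfl⟩
  · left
    unfold Ch Bh
    rw [ls_vtx r0 r1 d01, ls_vtx r1 r2 d12, ls_vtx r0 r2 d02, bl_append, bl_append, bl_append,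
      bl_iv hb, bl_iv hb, rs_pr_iv, rs_pr_iv]
    simp only [map_mul, rs_mul]
    have h0 := rs_sq (EE ε (pr t0))
    have h1 := rs_sq (EE ε (pr t1))
    funext x
    simp only [Pi.add_apply, Pi.neg_apply, Pi.smul_apply, smul_eq_mul, Pi.zero_apply, Pi.sub_apply]
    generalize rs (EE ε (pr t0)) = e0 at h0 ⊢
    generalize rs (EE ε (pr t1)) = e1 at h1 ⊢
    generalize rs (EE ε m) = M
    linear_combination (M * (bl ε b t1 x - bl ε b t2 x)) * h0 +
      (M * (bl ε b t2 x - bl ε b t1 x)) * h1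
  · right
    refine ⟨m, i, c0, c1, c2, ?_⟩
    unfold Ch Bh
    rw [ls_cos r0 r1 h01 n0 n1, ls_cos r1 r2 h12 n1 n2, ls_cos r0 r2 h02 n0 n2, bl_append,
      bl_append, bl_append, bl_iv hb, bl_iv hb, rs_pr_iv, rs_pr_iv]
    have eB : ∀ (d : G i) (t : List (Σ i, G i)), bl ε b (⟨i, d⟩ :: t) =
        b i d + rs (ε i d) • bl ε b t := fun _ _ => rfl
    rw [eB, eB, eB]
    simp only [map_mul, rs_mul, EE_of, map_inv, rs_inv]
    have h0 := rs_sq (EE ε (pr t0))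
    have h1 := rs_sq (EE ε (pr t1))
    have k0 := rs_sq (ε i c0)
    have k1 := rs_sq (ε i c1)
    funext x
    simp only [Pi.add_apply, Pi.neg_apply, Pi.smul_apply, smul_eq_mul, Pi.sub_apply]
    generalize rs (EE ε (pr t0)) = e0 at h0 ⊢
    generalize rs (EE ε (pr t1)) = e1 at h1 ⊢
    generalize rs (EE ε m) = M
    generalize rs (ε i c0) = g0 at k0 ⊢
    generalize rs (ε i c1) = g1 at k1 ⊢
    generalize rs (ε i c2) = g2
    generalize b i (c0⁻¹ * c1) x = b01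
    generalize b i (c1⁻¹ * c2) x = b12
    generalize b i (c0⁻¹ * c2) x = b02
    generalize bl ε b t0 x = B0
    generalize bl ε b t1 x = B1
    generalize bl ε b t2 x = B2
    linear_combination (M * g0 * (-B0 + b01 + g0 * g1 * B1) - M * g0 * (-B0 + b02 + g0 * g2 * B2)) * h0 +
      (M * g1 * (-B1 + b12 + g1 * g2 * B2)) * h1 + (M * g1 * B1 - M * g2 * B2) * k0 +
      (M * g2 * B2) * k1

/-- cocycles on the factors give cocycles -/
theorem Ch_zero (hb : ∀ i g, b i g⁻¹ = -(rs (ε i g) • b i g))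
    (hc : ∀ i (c0 c1 c2 : G i), rs (ε i c0) • b i (c0⁻¹ * c1) + rs (ε i c1) • b i (c1⁻¹ * c2) -
        rs (ε i c0) • b i (c0⁻¹ * c2) = 0) (w0 w1 w2 : CoprodI G) : Ch ε b w0 w1 w2 = 0 := by
  rcases Ch_cases hb w0 w1 w2 with h | ⟨m, i, c0, c1, c2, h⟩
  · exact h
  · rw [h, hc, smul_zero]

/-- the bound -/
theorem Ch_le [Fintype T] (hb : ∀ i g, b i g⁻¹ = -(rs (ε i g) • b i g))
    (hc : ∀ i (c0 c1 c2 : G i), nm (rs (ε i c0) • b i (c0⁻¹ * c1) +
      rs (ε i c1) • b i (c1⁻¹ * c2) - rs (ε i c0) • b i (c0⁻¹ * c2)) ≤ 2)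
    (w0 w1 w2 : CoprodI G) : nm (Ch ε b w0 w1 w2) ≤ 2 := by
  rcases Ch_cases hb w0 w1 w2 with h | ⟨m, i, c0, c1, c2, h⟩
  · rw [h, nm_zero]
    norm_num
  · rw [h]
    have : ∀ (u : ℤˣ) (v : T → ℝ), nm (rs u • v) = nm v := by
      intro u v
      unfold nm
      refine Finset.sum_congr rfl fun x _ => ?_
      rw [Pi.smul_apply, smul_eq_mul, abs_mul, abs_rs, one_mul]
    rw [this]
    exact hc i c0 c1 c2

/-! ### automorphisms -/

variable {b' : ∀ i, G i → (T → ℝ)} {f : ∀ i, G i →* G i}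

theorem EE_fm (hε : ∀ i g, ε i (f i g) = ε i g) (w : CoprodI G) : EE ε (fm f w) = EE ε w := by
  have : (EE ε).comp (fm f) = EE ε := by
    apply CoprodI.ext_hom
    intro i
    ext d
    simp only [MonoidHom.comp_apply, fm_of, EE_of, hε]
  exact DFunLike.congr_fun this w

theorem bl_fl (hε : ∀ i g, ε i (f i g) = ε i g) (hf : ∀ i g, b i (f i g) = - b i g + b' i g)
    (t : List (Σ i, G i)) : bl ε b (fl f t) = - bl ε b t + bl ε b' t := by
  induction t with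
  | nil =>
    change (0 : T → ℝ) = -0 + 0
    simp
  | cons s t ih =>
    change b s.1 (f s.1 s.2) + rs (ε s.1 (f s.1 s.2)) • bl ε b (fl f t) =
      -(b s.1 s.2 + rs (ε s.1 s.2) • bl ε b t) + (b' s.1 s.2 + rs (ε s.1 s.2) • bl ε b' t)
    rw [ih, hε, hf, smul_add, smul_neg]
    abel

theorem bK_fm (hi : ∀ i, Function.Injective (f i)) (hε : ∀ i g, ε i (f i g) = ε i g)
    (hf : ∀ i g, b i (f i g) = - b i g + b' i g) (w : CoprodI G) :
    bl ε b (ls (fm f w)) = - bl ε b (ls w) + bl ε b' (ls w) := by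
  rw [ls_fm f hi, bl_fl hε hf]

theorem Ch_fm (hi : ∀ i, Function.Injective (f i)) (hε : ∀ i g, ε i (f i g) = ε i g)
    (hf : ∀ i g, b i (f i g) = - b i g + b' i g) (hb' : ∀ i g, b' i g⁻¹ = -(rs (ε i g) • b' i g))
    (hc' : ∀ i (c0 c1 c2 : G i), rs (ε i c0) • b' i (c0⁻¹ * c1) + rs (ε i c1) • b' i (c1⁻¹ * c2) -
        rs (ε i c0) • b' i (c0⁻¹ * c2) = 0) (w0 w1 w2 : CoprodI G) :
    Ch ε b (fm f w0) (fm f w1) (fm f w2) = - Ch ε b w0 w1 w2 := by
  have h : ∀ w w' : CoprodI G, Bh ε b (fm f w) (fm f w') = - Bh ε b w w' + Bh ε b' w w' := by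
    intro w w'
    unfold Bh
    rw [← map_inv, ← map_mul, bK_fm hi hε hf, EE_fm hε, smul_add, smul_neg]
  have h0 := Ch_zero hb' hc' w0 w1 w2
  have e : Ch ε b (fm f w0) (fm f w1) (fm f w2) = - Ch ε b w0 w1 w2 + Ch ε b' w0 w1 w2 := by
    unfold Ch
    rw [h, h, h]
    abel
  rw [e, h0, add_zero]

end

end Pool.Agent.J4.H27.UL
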