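import Pool.Agent.J4.H27.UL.Fin

/-!
The universal linear bound: the main theorem.
-/

set_option autoImplicit false
set_option linter.unusedSectionVars false

open scoped Classical

namespace Pool.Agent.J4.H27.UL

open Monoid
open Equiv (Perm)
open Pool.Agent.Q134.SV Pool.Agent.N13.QC Pool.Agent.J4.H27.EC

/-- `f` maps vertices with a finite label to equal vertices, or to vertices whose (finite) label divides
the given label. -/
def LMap {S S₀ : Type} (M : CoxeterMatrix S) (M₀ : CoxeterMatrix S₀) (f : S → S₀) : Prop :=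
  ∀ x y, x ≠ y → M x y ≠ 0 → f x = f y ∨ (f x ≠ f y ∧ M₀ (f x) (f y) ≠ 0 ∧ M₀ (f x) (f y) ∣ M x y)

/-- an even Coxeter matrix whose generators are properly coloured by `0, …, 2k-1` -/
def Even2 (k : ℕ) {S₀ : Type} (M₀ : CoxeterMatrix S₀) (col : S₀ → ℕ) : Prop :=
  (∀ x, col x < 2 * k) ∧ ∀ x y, x ≠ y → M₀ x y ≠ 0 → col x ≠ col y ∧ 2 ∣ M₀ x y

/-- the vertices of the colours `0, 1, …`, and the labels between the colours `2i` and `2i+1` are at
least four -/
def Srt {k : ℕ} {S₀ : Type} (M₀ : CoxeterMatrix S₀) (col : S₀ → ℕ) (u : Fin (2 * k) → S₀) : Prop :=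
  (∀ j, col (u j) = j) ∧
    ∀ i : Fin k, 4 ≤ M₀ (u ⟨2 * i, by omega⟩) (u ⟨2 * i + 1, by omega⟩)

/-- **The universal linear bound.** -/
theorem linear {k : ℕ} {S S₀ W : Type} [Fintype S] [Fintype S₀] [Group W] {M : CoxeterMatrix S}
    (cs : CoxeterSystem M W) (M₀ : CoxeterMatrix S₀) (col : S₀ → ℕ) (h₀ : Even2 k M₀ col)
    (f : S → S₀) (hf : LMap M M₀ f) {a : (Fin (2 * k) → S) → ℝ} (ha : IsCyc (2 * k) (finG M) a)
    (hs : Sph cs a) {H : Subgroup W} (hH : H.index ≠ 0) (hε : H ≤ (sgn cs).ker) :
    (H.index : ℝ) * ∑ u : Fin (2 * k) → S₀, (if Srt M₀ col u then |push f a u| else 0) ≤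
      4 ^ k * svol (sgn cs) cs.simple (2 * k) a H := by
  obtain ⟨hcol, h0⟩ := h₀
  set γ : S₀ → (Fin k → Perm (KK (mm M₀ col))) := gp (pc col hcol) (Rg M₀ col) with hγ
  have hl := liftable' M₀ col M hcol h0 f hf
  let π : W →* (Fin k → Perm (KK (mm M₀ col))) := cs.lift ⟨_, hl⟩
  have hπ : ∀ x, π (cs.simple x) = γ (f x) := fun x => cs.lift_apply_simple hl x
  -- the signs
  let Θ : (Fin k → S₀ × S₀) → ℝ := fun e => (if 0 ≤ push f a (je e) then 1 else -1) * (-1) ^ k
  have hΘ : ∀ e, |Θ e| ≤ 1 := by
    intro e
    simp only [Θ]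
    rw [abs_mul, abs_pow, abs_neg, abs_one, one_pow, mul_one]
    split_ifs <;> simp
  let c : (Fin (2 * k + 1) → W) → ℝ := fun g =>
    (1 / 2) ^ k * cT Θ (Fe (mm M₀ col)) fun i => π (g i)
  have hfin : ∀ v, a v ≠ 0 → ∀ j, Finite (C cs.simple v j) := by
    intro v hv j
    have := hs v hv
    have hle : C cs.simple v j ≤ Subgroup.closure (cs.simple '' Set.range v) := by
      apply Subgroup.closure_mono
      apply Set.image_mono
      rintro _ ⟨l, -, rfl⟩
      exact ⟨l, rfl⟩
    exact Finite.of_injective _ (Subgroup.inclusion_injective hle)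
  have h1 := svol_lower (ε := sgn cs) (γ := cs.simple) (a := a) hH hε hfin c ?_ ?_ ?_
  · -- the evaluation
    let Val : (Fin (2 * k) → S₀) → ℝ := fun u => av (cT Θ (Fe (mm M₀ col)))
      (fun j : Fin (2 * k + 1) => C γ u j) 1
    have h2 : ∀ v, a v * av c (fun i : Fin (2 * k + 1) => C cs.simple v i) 1 =
        (1 / 2) ^ k * (a v * Val (f ∘ v)) := by
      intro v
      by_cases hv : a v = 0
      · rw [hv, zero_mul, zero_mul, mul_zero]
      · have hfv' : ∀ i : Fin (2 * k + 1), Finite (C cs.simple v i) := fun i => hfin v hv i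
        have h3 : (fun i : Fin (2 * k + 1) => (C cs.simple v i).map π) =
            fun i : Fin (2 * k + 1) => C γ (f ∘ v) i := by
          funext i
          exact C_map f cs.simple γ π hπ v i
        have h4 := av_map π (cT Θ (Fe (mm M₀ col))) (fun i : Fin (2 * k + 1) => C cs.simple v i)
        rw [h3] at h4
        have h5 : av c (fun i : Fin (2 * k + 1) => C cs.simple v i) 1 = (1 / 2) ^ k *
            av (fun g => cT Θ (Fe (mm M₀ col)) fun i => π (g i))
            (fun i : Fin (2 * k + 1) => C cs.simple v i) 1 := by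
          unfold av
          exact mean_mul _ _
        rw [h5, h4]
        simp only [Val]
        ring
    have h3 : ∑ v, a v * av c (fun i : Fin (2 * k + 1) => C cs.simple v i) 1 =
        (1 / 2) ^ k * ∑ u, push f a u * Val u := by
      rw [Finset.sum_congr rfl fun v _ => h2 v, ← Finset.mul_sum, sum_push f a Val]
    have hpush := ha.push (G₀ := finG M₀) f (by
      rintro x y ⟨hxy, hM⟩
      rcases hf x y hxy hM with h | ⟨h, h', -⟩
      · exact Or.inl h
      · exact Or.inr ⟨h, h'⟩)
    have h4 : ∀ u, push f a u * Val u = (1 / 2) ^ k * (if Srt M₀ col u then |push f a u| else 0) := by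
      intro u
      by_cases hu : push f a u = 0
      · rw [hu, zero_mul, abs_zero, ite_self, mul_zero]
      · have hcu : ∀ i j, i ≠ j → col (u i) ≠ col (u j) := by
          intro i j hij
          have := hpush.supp u hu i j hij
          exact (h0 _ _ this.1 this.2).1
        have hfu : ∀ j, Finite (C γ u j) := by
          have : ∃ v, a v ≠ 0 ∧ f ∘ v = u := by
            by_contra hcon
            push Not at hcon
            apply hu
            unfold push
            refine Finset.sum_eq_zero fun v _ => ?_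
            split_ifs with h
            · by_contra hv
              exact hcon v hv h
            · rfl
          obtain ⟨v, hv, rfl⟩ := this
          intro j
          rw [← C_map f cs.simple γ π hπ v j]
          have := hfin v hv j
          exact Finite.of_surjective (fun x : C cs.simple v j =>
            (⟨π x, Subgroup.mem_map_of_mem π x.2⟩ : (C cs.simple v j).map π)) (by
              rintro ⟨y, hy⟩
              obtain ⟨x, hx, rfl⟩ := Subgroup.mem_map.1 hy
              exact ⟨⟨x, hx⟩, rfl⟩)
        have h5 : Val u = _ := val_flag M₀ col hcol Θ u hcu hfu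
        rw [h5]
        by_cases hso : ∀ j : Fin (2 * k), col (u j) = j
        · rw [if_pos hso, Finset.prod_mul_distrib, Finset.prod_const, Finset.card_univ,
            Fintype.card_fin]
          have h6 : ∏ i : Fin k, wt (M₀ (u ⟨2 * i, by omega⟩) (u ⟨2 * i + 1, by omega⟩)) =
              if Srt M₀ col u then 1 else 0 := by
            unfold wt
            rw [Finset.prod_ite_zero]
            simp only [Finset.mem_univ, true_implies, Finset.prod_const_one]
            by_cases h7 : ∀ i : Fin k, 4 ≤ M₀ (u ⟨2 * i, by omega⟩) (u ⟨2 * i + 1, by omega⟩)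
            · rw [if_pos h7, if_pos ⟨hso, h7⟩]
            · rw [if_neg h7, if_neg fun h => h7 h.2]
          rw [h6]
          have h8 : Θ (pe u) = (if 0 ≤ push f a u then 1 else -1) * (-1) ^ k := by
            simp only [Θ]
            rw [je_pe]
          rw [h8]
          have h9 : (-(1 / 2 : ℝ)) ^ k = (-1) ^ k * (1 / 2) ^ k := by
            rw [← mul_pow]
            norm_num
          have h10 : ((-1 : ℝ) ^ k) * (-1) ^ k = 1 := by
            rw [← mul_pow]
            norm_num
          have h11 : push f a u * (if 0 ≤ push f a u then 1 else -1) = |push f a u| := by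
            split_ifs with h
            · rw [mul_one, abs_of_nonneg h]
            · rw [abs_of_neg (not_le.1 h)]
              ring
          rw [h9]
          by_cases hS : Srt M₀ col u
          · rw [if_pos hS, if_pos hS]
            linear_combination ((1 / 2) ^ k * ((-1 : ℝ) ^ k) * (-1) ^ k) * h11 +
              ((1 / 2) ^ k * |push f a u|) * h10
          · rw [if_neg hS, if_neg hS]
            ring
        · rw [if_neg hso, if_neg fun h => hso h.1]
          ring
    have h5 : ∑ u, push f a u * Val u = (1 / 2) ^ k *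
        ∑ u, (if Srt M₀ col u then |push f a u| else 0) := by
      rw [Finset.sum_congr rfl fun u _ => h4 u, Finset.mul_sum]
    rw [h3, h5] at h1
    have hnn : 0 ≤ ∑ u, (if Srt M₀ col u then |push f a u| else 0) :=
      Finset.sum_nonneg fun u _ => by split_ifs <;> positivity
    rw [abs_of_nonneg (by positivity)] at h1
    have h6 : (4 : ℝ) ^ k * ((1 / 2) ^ k * (1 / 2) ^ k) = 1 := by
      rw [← mul_pow, ← mul_pow]
      norm_num
    calc (H.index : ℝ) * ∑ u, (if Srt M₀ col u then |push f a u| else 0)
        = 4 ^ k * ((H.index : ℝ) * ((1 / 2) ^ k * ((1 / 2) ^ k *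
          ∑ u, (if Srt M₀ col u then |push f a u| else 0)))) := by
          linear_combination (-(H.index : ℝ) * ∑ u, (if Srt M₀ col u then |push f a u| else 0)) * h6
      _ ≤ _ := mul_le_mul_of_nonneg_left h1 (by positivity)
  · intro w g
    refine equivar cs.simple cs.subgroup_closure_range_simple (sgn cs)
      (fun x => cs.lift_apply_simple _ x) c ?_ w g
    intro x g
    simp only [c, map_mul, hπ]
    have := cT_neg (pc col hcol) (Rg M₀ col) (Θ := Θ) (F := Fe (mm M₀ col))
      (fun e v a b c => Fe_Rg M₀ col e v a b c) (f x) fun i => π (g i)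
    rw [← hγ] at this
    rw [this]
    ring
  · intro g
    have h2 := cT_coc (Θ := Θ) (F := Fe (mm M₀ col)) (fun e => Fe_coc (mm M₀ col) e)
      fun i => π (g i)
    have h3 : cobd c g = (1 / 2) ^ k * cobd (cT Θ (Fe (mm M₀ col))) fun i => π (g i) := by
      unfold cobd
      rw [Finset.mul_sum]
      refine Finset.sum_congr rfl fun j _ => ?_
      change (-1 : ℝ) ^ (j : ℕ) * ((1 / 2) ^ k * cT Θ (Fe (mm M₀ col))
        fun i => π (g (j.succAbove i))) = (1 / 2) ^ k * ((-1 : ℝ) ^ (j : ℕ) *
        cT Θ (Fe (mm M₀ col)) fun i => π (g (j.succAbove i)))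
      ring
    rw [h3, h2, mul_zero]
  · intro g
    have h2 := cT_le (B := 2) (Θ := Θ) (F := Fe (mm M₀ col)) hΘ (Fe_sum (mm M₀ col))
      fun i => π (g i)
    simp only [c]
    rw [abs_mul, abs_of_nonneg (by positivity)]
    calc (1 / 2 : ℝ) ^ k * _ ≤ (1 / 2) ^ k * 2 ^ k := mul_le_mul_of_nonneg_left h2 (by positivity)
      _ = 1 := by
        rw [← mul_pow]
        norm_num

end Pool.Agent.J4.H27.UL
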