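import Mathlib

/-!
The local functions: positions on the sides of a polygon.
-/

set_option autoImplicit false
set_option linter.unusedSectionVars false

open scoped Classical

namespace Pool.Agent.J4.H27.UL

section

variable {C : Type} [CommGroup C] (ρ : C)

/-- the transition: the region of the type `l` at a vertex contains the side to the next vertex `j`;
its type at the next vertex -/
noncomputable def st (l : SignType) (j : C) : SignType :=
  if l = 1 ∧ j = ρ then -1 else if l = -1 ∧ j = ρ⁻¹ then 1 else 0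

theorem st_zero (j : C) : st ρ 0 j = 0 := by
  unfold st
  rw [if_neg (by rintro ⟨h, -⟩; exact absurd h (by decide)),
    if_neg (by rintro ⟨h, -⟩; exact absurd h (by decide))]

theorem st_ne {l : SignType} {j : C} (h : st ρ l j ≠ 0) : (l = 1 ∧ j = ρ) ∨ (l = -1 ∧ j = ρ⁻¹) := by
  unfold st at h
  split_ifs at h with h1 h2
  · exact Or.inl h1
  · exact Or.inr h2
  · exact absurd rfl h

theorem st_one : st ρ 1 ρ = -1 := by
  unfold st
  rw [if_pos ⟨rfl, rfl⟩]

theorem st_neg_one : st ρ (-1) ρ⁻¹ = 1 := by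
  unfold st
  rw [if_neg (by rintro ⟨h, -⟩; exact absurd h (by decide)), if_pos ⟨rfl, rfl⟩]

theorem st_neg (l : SignType) (j : C) : st ρ (-l) j⁻¹ = - st ρ l j := by
  rcases l.trichotomy with rfl | rfl | rfl
  · unfold st
    simp only [neg_neg]
    by_cases h : j = ρ⁻¹
    · subst h
      simp
    · have h' : ¬ j⁻¹ = ρ := fun e => h (by rw [← e, inv_inv])
      have e1 : (1 : SignType) ≠ -1 := by decide
      simp [h, h', e1]
  · rw [neg_zero, st_zero, st_zero, neg_zero]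
  · unfold st
    by_cases h : j = ρ
    · subst h
      simp
    · have e1 : ((-1 : SignType)) ≠ 1 := by decide
      have e2 : ¬ ((1 : SignType)) = -1 := by decide
      simp [h, e1, e2]

/-- The local functions. -/
structure Loc (c : ℝ) where
  φ : SignType → SignType → C → ℝ
  zero : ∀ l r, φ l r 1 = 0
  neg : ∀ l r j, φ (-l) (-r) j⁻¹ = - φ l r j
  inv : ∀ l r j, φ r l j⁻¹ = - φ l r j
  flip : ∀ r j, φ 1 (-r) (ρ * j⁻¹) + φ 1 r j = c
  same : ∀ z, φ z (-1) ρ = φ 0 (-1) ρ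
  act : φ 1 0 ρ = φ 0 0 ρ
  one : ∀ z r j, |φ z r j - φ 0 r j| ≤ 1
  main : ∀ r0 r1 r2 c0 c1 c2, c0 ≠ c1 → c1 ≠ c2 → c0 ≠ c2 →
    |φ r0 r1 (c0⁻¹ * c1) + φ r1 r2 (c1⁻¹ * c2) - φ r0 r2 (c0⁻¹ * c2)| +
      (((if r0 = 0 ∧ st ρ r1 (c1⁻¹ * c0) ≠ 0 then (1 : ℝ) else 0) +
        (if r0 = 0 ∧ st ρ r2 (c2⁻¹ * c0) ≠ 0 then 1 else 0)) +
      ((if r1 = 0 ∧ st ρ r0 (c0⁻¹ * c1) ≠ 0 then 1 else 0) +
        (if r1 = 0 ∧ st ρ r2 (c2⁻¹ * c1) ≠ 0 then 1 else 0)) +
      ((if r2 = 0 ∧ st ρ r0 (c0⁻¹ * c2) ≠ 0 then 1 else 0) +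
        (if r2 = 0 ∧ st ρ r1 (c1⁻¹ * c2) ≠ 0 then 1 else 0))) ≤ 2

/-- counting -/
theorem count {K : ℝ} {P01 P02 P10 P12 P20 P21 : Prop} [Decidable P01] [Decidable P02]
    [Decidable P10] [Decidable P12] [Decidable P20] [Decidable P21] (F1 : |K| ≤ 2)
    (F2a : P01 ∨ P02 → |K| ≤ 1) (F2b : P10 ∨ P12 → |K| ≤ 1) (F2c : P20 ∨ P21 → |K| ≤ 1)
    (F3a : P01 ∨ P02 → (¬ P10 ∧ ¬ P12) ∧ ¬ P20 ∧ ¬ P21)
    (F3b : P10 ∨ P12 → ¬ P20 ∧ ¬ P21)
    (F4a : P01 → P02 → K = 0) (F4b : P10 → P12 → K = 0) (F4c : P20 → P21 → K = 0) :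
    |K| + (((if P01 then (1 : ℝ) else 0) + (if P02 then 1 else 0)) +
      ((if P10 then 1 else 0) + (if P12 then 1 else 0)) +
      ((if P20 then 1 else 0) + (if P21 then 1 else 0))) ≤ 2 := by
  by_cases hA : P01 ∨ P02
  · obtain ⟨⟨n1, n2⟩, n3, n4⟩ := F3a hA
    have h1 := F2a hA
    rw [if_neg n1, if_neg n2, if_neg n3, if_neg n4]
    by_cases h01 : P01
    · by_cases h02 : P02
      · rw [if_pos h01, if_pos h02, F4a h01 h02]
        norm_num
      · rw [if_pos h01, if_neg h02]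
        linarith
    · rw [if_neg h01]
      split_ifs <;> linarith
  · have hA1 : ¬ P01 := fun h => hA (Or.inl h)
    have hA2 : ¬ P02 := fun h => hA (Or.inr h)
    rw [if_neg hA1, if_neg hA2]
    by_cases hB : P10 ∨ P12
    · obtain ⟨n3, n4⟩ := F3b hB
      have h1 := F2b hB
      rw [if_neg n3, if_neg n4]
      by_cases h01 : P10
      · by_cases h02 : P12
        · rw [if_pos h01, if_pos h02, F4b h01 h02]
          norm_num
        · rw [if_pos h01, if_neg h02]
          linarith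
      · rw [if_neg h01]
        split_ifs <;> linarith
    · have hB1 : ¬ P10 := fun h => hB (Or.inl h)
      have hB2 : ¬ P12 := fun h => hB (Or.inr h)
      rw [if_neg hB1, if_neg hB2]
      by_cases hC : P20 ∨ P21
      · have h1 := F2c hC
        by_cases h01 : P20
        · by_cases h02 : P21
          · rw [if_pos h01, if_pos h02, F4c h01 h02]
            norm_num
          · rw [if_pos h01, if_neg h02]
            linarith
        · rw [if_neg h01]
          split_ifs <;> linarith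
      · have hC1 : ¬ P20 := fun h => hC (Or.inl h)
        have hC2 : ¬ P21 := fun h => hC (Or.inr h)
        rw [if_neg hC1, if_neg hC2]
        linarith

/-- two branches in the same direction -/
theorem excl {r : SignType} {a b c : C} (h1 : st ρ r (c⁻¹ * a) ≠ 0) (h2 : st ρ r (c⁻¹ * b) ≠ 0) :
    a = b := by
  rcases st_ne ρ h1 with ⟨e1, f1⟩ | ⟨e1, f1⟩ <;> rcases st_ne ρ h2 with ⟨e2, f2⟩ | ⟨e2, f2⟩
  · exact mul_left_cancel (f1.trans f2.symm)
  · rw [e1] at e2
    exact absurd e2 (by decide)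
  · rw [e1] at e2
    exact absurd e2 (by decide)
  · exact mul_left_cancel (f1.trans f2.symm)

theorem st_r_ne {r : SignType} {a : C} (h1 : st ρ r a ≠ 0) : r ≠ 0 := by
  rintro rfl
  exact h1 (st_zero ρ a)

/-- the combinatorial part of `main` -/
theorem main_of {φ : SignType → SignType → C → ℝ} (r0 r1 r2 : SignType) (c0 c1 c2 : C)
    (h01 : c0 ≠ c1) (h12 : c1 ≠ c2) (h02 : c0 ≠ c2) {K : ℝ}
    (hK : K = φ r0 r1 (c0⁻¹ * c1) + φ r1 r2 (c1⁻¹ * c2) - φ r0 r2 (c0⁻¹ * c2))
    (F1 : |K| ≤ 2)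
    (F2a : (r0 = 0 ∧ st ρ r1 (c1⁻¹ * c0) ≠ 0) ∨ (r0 = 0 ∧ st ρ r2 (c2⁻¹ * c0) ≠ 0) → |K| ≤ 1)
    (F2b : (r1 = 0 ∧ st ρ r0 (c0⁻¹ * c1) ≠ 0) ∨ (r1 = 0 ∧ st ρ r2 (c2⁻¹ * c1) ≠ 0) → |K| ≤ 1)
    (F2c : (r2 = 0 ∧ st ρ r0 (c0⁻¹ * c2) ≠ 0) ∨ (r2 = 0 ∧ st ρ r1 (c1⁻¹ * c2) ≠ 0) → |K| ≤ 1)
    (F4a : (r0 = 0 ∧ st ρ r1 (c1⁻¹ * c0) ≠ 0) → (r0 = 0 ∧ st ρ r2 (c2⁻¹ * c0) ≠ 0) → K = 0)
    (F4b : (r1 = 0 ∧ st ρ r0 (c0⁻¹ * c1) ≠ 0) → (r1 = 0 ∧ st ρ r2 (c2⁻¹ * c1) ≠ 0) → K = 0)
    (F4c : (r2 = 0 ∧ st ρ r0 (c0⁻¹ * c2) ≠ 0) → (r2 = 0 ∧ st ρ r1 (c1⁻¹ * c2) ≠ 0) → K = 0) :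
    |φ r0 r1 (c0⁻¹ * c1) + φ r1 r2 (c1⁻¹ * c2) - φ r0 r2 (c0⁻¹ * c2)| +
      (((if r0 = 0 ∧ st ρ r1 (c1⁻¹ * c0) ≠ 0 then (1 : ℝ) else 0) +
        (if r0 = 0 ∧ st ρ r2 (c2⁻¹ * c0) ≠ 0 then 1 else 0)) +
      ((if r1 = 0 ∧ st ρ r0 (c0⁻¹ * c1) ≠ 0 then 1 else 0) +
        (if r1 = 0 ∧ st ρ r2 (c2⁻¹ * c1) ≠ 0 then 1 else 0)) +
      ((if r2 = 0 ∧ st ρ r0 (c0⁻¹ * c2) ≠ 0 then 1 else 0) +
        (if r2 = 0 ∧ st ρ r1 (c1⁻¹ * c2) ≠ 0 then 1 else 0))) ≤ 2 := by
  rw [← hK]
  refine count F1 F2a F2b F2c ?_ ?_ F4a F4b F4c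
  · rintro (⟨e, h⟩ | ⟨e, h⟩)
    · have hr := st_r_ne ρ h
      refine ⟨⟨fun h' => hr h'.1, fun h' => hr h'.1⟩, fun h' => ?_, fun h' => ?_⟩
      · exact st_r_ne ρ h'.2 e
      · exact h02 (excl ρ h h'.2)
    · have hr := st_r_ne ρ h
      refine ⟨⟨fun h' => ?_, fun h' => ?_⟩, fun h' => hr h'.1, fun h' => hr h'.1⟩
      · exact st_r_ne ρ h'.2 e
      · exact h01 (excl ρ h h'.2)
  · rintro (⟨e, h⟩ | ⟨e, h⟩)
    · have hr := st_r_ne ρ h
      refine ⟨fun h' => ?_, fun h' => ?_⟩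
      · exact h12 (excl ρ h h'.2)
      · exact st_r_ne ρ h'.2 e
    · have hr := st_r_ne ρ h
      exact ⟨fun h' => hr h'.1, fun h' => hr h'.1⟩

/-- the zero functions -/
def locZero : Loc ρ 0 where
  φ := fun _ _ _ => 0
  zero := fun _ _ => rfl
  neg := fun _ _ _ => by simp
  inv := fun _ _ _ => by simp
  flip := fun _ _ => by simp
  same := fun _ => rfl
  act := rfl
  one := fun _ _ _ => by simp
  main := fun r0 r1 r2 c0 c1 c2 h01 h12 h02 =>
    main_of ρ (φ := fun _ _ _ => 0) r0 r1 r2 c0 c1 c2 h01 h12 h02 (K := 0) (by simp) (by simp)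
      (fun _ => by simp) (fun _ => by simp) (fun _ => by simp) (fun _ _ => rfl) (fun _ _ => rfl)
      (fun _ _ => rfl)

end

/-! ### the functions for the polygons -/

section

/-- the truncated distance on the circle with `2 m` positions -/
noncomputable def tau (m : ℕ) (p : ZMod (2 * m)) : ℝ :=
  if p.val = 0 then 0 else if p.val = 2 then 1 else if p.val + 2 = 2 * m then -1 else
    if p.val < m then 1 / 2 else if p.val = m then 0 else -1 / 2

variable {m : ℕ} (hm : 4 ≤ m)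

include hm

theorem tau_zero : tau m 0 = 0 := by
  unfold tau
  rw [ZMod.val_zero, if_pos rfl]

theorem vlt (p : ZMod (2 * m)) : p.val < 2 * m := by
  have : NeZero (2 * m) := ⟨by omega⟩
  exact ZMod.val_lt p

theorem val_c (n : ℕ) (hn : n < 2 * m) : ((n : ZMod (2 * m))).val = n := by
  rw [ZMod.val_natCast, Nat.mod_eq_of_lt hn]

theorem tau_nat (n : ℕ) (hn : n < 2 * m) : tau m (n : ZMod (2 * m)) =
    if n = 0 then 0 else if n = 2 then 1 else if n + 2 = 2 * m then -1 else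
    if n < m then 1 / 2 else if n = m then 0 else -1 / 2 := by
  unfold tau
  rw [val_c hm n hn]

theorem tau_one : tau m 1 = 1 / 2 := by
  have := tau_nat hm 1 (by omega)
  rw [Nat.cast_one] at this
  rw [this, if_neg (by omega), if_neg (by omega), if_neg (by omega), if_pos (by omega)]

theorem tau_two : tau m 2 = 1 := by
  have := tau_nat hm 2 (by omega)
  rw [Nat.cast_ofNat] at this
  rw [this, if_neg (by omega), if_pos rfl]

theorem tau_four : 0 ≤ tau m 4 := by
  have := tau_nat hm 4 (by omega)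
  rw [Nat.cast_ofNat] at this
  rw [this, if_neg (by omega), if_neg (by omega), if_neg (by omega)]
  split_ifs with h1 h2
  · norm_num
  · norm_num
  · omega

theorem tau_neg (p : ZMod (2 * m)) : tau m (-p) = - tau m p := by
  have : NeZero (2 * m) := ⟨by omega⟩
  have hp := vlt hm p
  unfold tau
  rw [ZMod.neg_val]
  by_cases h : p = 0
  · rw [if_pos h, h, ZMod.val_zero]
    simp
  · have h0 : p.val ≠ 0 := fun e => h ((ZMod.val_eq_zero p).1 e)
    rw [if_neg h]
    by_cases h2 : p.val = 2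
    · rw [if_neg (by omega), if_neg (by omega), if_pos (by omega), if_neg h0, if_pos h2]
    · by_cases h3 : p.val + 2 = 2 * m
      · rw [if_neg (by omega), if_pos (by omega), if_neg h0, if_neg h2, if_pos h3, neg_neg]
      · rw [if_neg (by omega), if_neg (by omega), if_neg (by omega), if_neg h0, if_neg h2,
          if_neg h3]
        rcases lt_trichotomy p.val m with h4 | h4 | h4
        · rw [if_neg (by omega), if_neg (by omega), if_pos h4]
          norm_num
        · rw [if_neg (by omega), if_pos (by omega), if_neg (by omega), if_pos h4]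
          norm_num
        · rw [if_pos (by omega), if_neg (by omega), if_neg (by omega)]
          norm_num

theorem tau_le (p : ZMod (2 * m)) : tau m p ≤ 1 / 2 ∨ p = 2 := by
  by_cases h : p = 2
  · exact Or.inr h
  · left
    have h2 : p.val ≠ 2 := by
      intro e
      apply h
      have : NeZero (2 * m) := ⟨by omega⟩
      have := ZMod.natCast_zmod_val p
      rw [e] at this
      rw [← this]
      norm_num
    unfold tau
    rw [if_neg h2]
    split_ifs <;> norm_num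

theorem tau_le_one (p : ZMod (2 * m)) : tau m p ≤ 1 := by
  unfold tau
  split_ifs <;> norm_num

/-- the sum over a triangle -/
theorem tau_tri' (a b : ZMod (2 * m)) : tau m a + tau m b - tau m (a + b) ≤ 2 := by
  have e : - tau m (a + b) = tau m (-(a + b)) := (tau_neg hm _).symm
  have h : tau m a + tau m b + tau m (-(a + b)) ≤ 2 := by
    have n4 : tau m (-(4 : ZMod (2 * m))) ≤ 0 := by
      rw [tau_neg hm]
      have := tau_four hm
      linarith
    have ga := tau_le_one hm a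
    have gb := tau_le_one hm b
    have gc := tau_le_one hm (-(a + b))
    rcases tau_le hm a with ha | ha <;> rcases tau_le hm b with hb | hb
    · linarith
    · rcases tau_le hm (-(a + b)) with hc | hc
      · linarith
      · have : a = -4 := by
          rw [hb] at hc
          linear_combination -hc
        have g0 : tau m a ≤ 0 := by rw [this]; exact n4
        linarith
    · rcases tau_le hm (-(a + b)) with hc | hc
      · linarith
      · have : b = -4 := by
          rw [ha] at hc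
          linear_combination -hc
        have g0 : tau m b ≤ 0 := by rw [this]; exact n4
        linarith
    · have : -(a + b) = -4 := by
        rw [ha, hb]
        norm_num
      rw [this]
      linarith
  linarith

theorem tau_tri (a b : ZMod (2 * m)) : |tau m a + tau m b - tau m (a + b)| ≤ 2 := by
  rw [abs_le]
  refine ⟨?_, tau_tri' hm a b⟩
  have := tau_tri' hm (-a) (-b)
  have e : -a + -b = -(a + b) := by ring
  rw [e, tau_neg hm, tau_neg hm, tau_neg hm] at this
  linarith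

theorem tau_lip (p : ZMod (2 * m)) : |tau m (p + 1) - tau m p| ≤ 1 / 2 := by
  have : NeZero (2 * m) := ⟨by omega⟩
  have hp := vlt hm p
  have h1 : (1 : ZMod (2 * m)).val = 1 := by
    have := val_c hm 1 (by omega)
    rwa [Nat.cast_one] at this
  have hv : (p + 1).val = if p.val + 1 = 2 * m then 0 else p.val + 1 := by
    rw [ZMod.val_add, h1]
    split_ifs with h
    · rw [h, Nat.mod_self]
    · exact Nat.mod_eq_of_lt (by omega)
  unfold tau
  rw [hv]
  by_cases h : p.val + 1 = 2 * m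
  · rw [if_pos h, if_pos rfl, if_neg (by omega), if_neg (by omega), if_neg (by omega),
      if_neg (by omega), if_neg (by omega)]
    norm_num
  · rw [if_neg h, if_neg (by omega)]
    split_ifs <;> first | (exfalso; omega) | (norm_num [abs_le])

/-- the local function -/
noncomputable def phi (m : ℕ) (dbl : ZMod m →+ ZMod (2 * m)) (l r : SignType)
    (j : Multiplicative (ZMod m)) : ℝ :=
  (((l : ℤ) : ℝ) - ((r : ℤ) : ℝ)) / 2 +
    tau m (dbl (Multiplicative.toAdd j) + (((r : ℤ) : ZMod (2 * m)) - ((l : ℤ) : ZMod (2 * m))))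

omit hm in
theorem exists_dbl (m : ℕ) : ∃ dbl : ZMod m →+ ZMod (2 * m), dbl 1 = 2 := by
  refine ⟨ZMod.lift m ⟨zmultiplesHom (ZMod (2 * m)) 2, ?_⟩, ?_⟩
  · rw [zmultiplesHom_apply]
    have : ((m : ℤ) • (2 : ZMod (2 * m))) = ((2 * m : ℕ) : ZMod (2 * m)) := by
      rw [zsmul_eq_mul]
      push_cast
      ring
    rw [this, ZMod.natCast_self]
  · have := ZMod.lift_coe m ⟨zmultiplesHom (ZMod (2 * m)) 2, by
      rw [zmultiplesHom_apply]
      have : ((m : ℤ) • (2 : ZMod (2 * m))) = ((2 * m : ℕ) : ZMod (2 * m)) := by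
        rw [zsmul_eq_mul]
        push_cast
        ring
      rw [this, ZMod.natCast_self]⟩ 1
    rw [Int.cast_one] at this
    rw [this]
    change (zmultiplesHom (ZMod (2 * m)) 2) 1 = 2
    rw [zmultiplesHom_apply, one_zsmul]

theorem phi_lip (p : ZMod (2 * m)) (z : SignType) :
    |((z : ℤ) : ℝ) / 2 + tau m (p - ((z : ℤ) : ZMod (2 * m))) - tau m p| ≤ 1 := by
  rcases z.trichotomy with rfl | rfl | rfl
  · have e : p - (((-1 : SignType) : ℤ) : ZMod (2 * m)) = p + 1 := by simp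
    rw [e]
    have := tau_lip hm p
    rw [abs_le] at this ⊢
    simp only [SignType.coe_neg_one]
    push_cast
    constructor <;> linarith
  · simp
  · have e : p - (((1 : SignType) : ℤ) : ZMod (2 * m)) = p - 1 := by simp
    rw [e]
    have := tau_lip hm (p - 1)
    rw [sub_add_cancel, abs_le] at this
    rw [abs_le]
    simp only [SignType.coe_one]
    push_cast
    constructor <;> linarith

end

end Pool.Agent.J4.H27.UL
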