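import Pool.Agent.J4.H27.UL.Cells
import Mathlib.GroupTheory.SpecificGroups.Dihedral

/-!
Spherical subsets of even Coxeter groups are cliques, and order complexes.
-/

set_option autoImplicit false
set_option linter.unusedSectionVars false

open scoped Classical

namespace Pool.Agent.J4.H27.UL

open Pool.Agent.Q134.SV Pool.Agent.N13.QC Pool.Agent.J4.H27.EC

variable {S W : Type} [Group W] {M : CoxeterMatrix S}

/-- The spherical subsets of an even Coxeter group are cliques of the graph of the finite labels. -/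
theorem clique_of (cs : CoxeterSystem M W) (hev : ∀ x y, x ≠ y → 2 ∣ M x y) (T : Finset S)
    (hT : Finite (spc cs T)) {x y : S} (hx : x ∈ T) (hy : y ∈ T) (hxy : x ≠ y) : M x y ≠ 0 := by
  intro h0
  let g : S → DihedralGroup 0 := fun z =>
    if z = x then DihedralGroup.sr 0 else if z = y then DihedralGroup.sr 1 else 1
  have gx : g x = DihedralGroup.sr 0 := if_pos rfl
  have gy : g y = DihedralGroup.sr 1 := by
    change (if y = x then _ else if y = y then _ else _) = _
    rw [if_neg hxy.symm, if_pos rfl]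
  have gz : ∀ z, z ≠ x → z ≠ y → g z = 1 := by
    intro z h1 h2
    change (if z = x then _ else if z = y then _ else _) = _
    rw [if_neg h1, if_neg h2]
  have gsq : ∀ z, g z * g z = 1 := by
    intro z
    change (if z = x then _ else if z = y then _ else _) *
      (if z = x then _ else if z = y then _ else _) = _
    split_ifs
    · exact DihedralGroup.sr_mul_self _
    · exact DihedralGroup.sr_mul_self _
    · exact mul_one 1
  have hlift : M.IsLiftable g := by
    intro z w
    by_cases hzw : z = w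
    · subst hzw
      rw [M.diagonal, pow_one, gsq]
    · by_cases h : (z = x ∨ z = y) ∧ (w = x ∨ w = y)
      · rcases h.1 with rfl | rfl
        · rcases h.2 with rfl | rfl
          · exact absurd rfl hzw
          · rw [h0, pow_zero]
        · rcases h.2 with rfl | rfl
          · rw [M.symmetric, h0, pow_zero]
          · exact absurd rfl hzw
      · obtain ⟨l, hl⟩ := hev z w hzw
        rw [hl, pow_mul]
        have : (g z * g w) ^ 2 = 1 := by
          rw [not_and_or, not_or, not_or] at h
          rcases h with h | h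
          · rw [gz z h.1 h.2, one_mul, pow_two, gsq]
          · rw [gz w h.1 h.2, mul_one, pow_two, gsq]
        rw [this, one_pow]
  let δ : W →* DihedralGroup 0 := cs.lift ⟨_, hlift⟩
  have hδ : ∀ z, δ (cs.simple z) = g z := fun z => cs.lift_apply_simple hlift z
  have hfin : IsOfFinOrder (cs.simple x * cs.simple y) := by
    have h1 : cs.simple x * cs.simple y ∈ spc cs T :=
      mul_mem (Subgroup.subset_closure ⟨x, hx, rfl⟩) (Subgroup.subset_closure ⟨y, hy, rfl⟩)
    have := isOfFinOrder_of_finite (⟨_, h1⟩ : spc cs T)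
    exact (Submonoid.isOfFinOrder_coe (H := (spc cs T).toSubmonoid)).2 this
  have h2 := δ.isOfFinOrder hfin
  rw [map_mul, hδ, hδ, gx, gy, DihedralGroup.sr_mul_sr, sub_zero] at h2
  have h3 : orderOf (DihedralGroup.r 1 : DihedralGroup 0) = 0 := DihedralGroup.orderOf_r_one
  rw [orderOf_eq_zero_iff] at h3
  exact h3 h2

/-- the labels of a poset with a rank function -/
noncomputable def ordF {P : Type} [PartialOrder P] (rk : P → ℕ) (lab : P → P → ℕ) (x y : P) : ℕ :=
  if x = y then 1 else
    if x < y then (if rk x % 2 = 0 ∧ rk y = rk x + 1 then lab x y else 2) else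
    if y < x then (if rk y % 2 = 0 ∧ rk x = rk y + 1 then lab y x else 2) else 0

/-- The Coxeter matrix of a poset with a rank function: the label of `x < y` is `lab x y` if the rank of
`x` is even and the rank of `y` is larger by one, and two otherwise; the labels of incomparable elements
are infinite. -/
noncomputable def ordM {P : Type} [PartialOrder P] (rk : P → ℕ) (lab : P → P → ℕ)
    (hlab : ∀ x y, 4 ≤ lab x y) : CoxeterMatrix P where
  M := Matrix.of (ordF rk lab)
  isSymm := by
    refine Matrix.ext fun x y => ?_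
    change ordF rk lab y x = ordF rk lab x y
    unfold ordF
    by_cases h : x = y
    · subst h
      rfl
    · rw [if_neg h, if_neg (Ne.symm h)]
      by_cases h1 : x < y
      · rw [if_neg (lt_asymm h1), if_pos h1, if_pos h1]
      · rw [if_neg h1, if_neg h1]
  diagonal := fun x => if_pos rfl
  off_diagonal := fun x y h => by
    change ordF rk lab x y ≠ 1
    unfold ordF
    rw [if_neg h]
    have h1 := hlab x y
    have h2 := hlab y x
    split_ifs <;> omega

theorem ordM_lt {P : Type} [PartialOrder P] (rk : P → ℕ) (lab : P → P → ℕ)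
    (hlab : ∀ x y, 4 ≤ lab x y) {x y : P} (h : x < y) : ordM rk lab hlab x y =
      if rk x % 2 = 0 ∧ rk y = rk x + 1 then lab x y else 2 := by
  change ordF rk lab x y = _
  unfold ordF
  rw [if_neg h.ne, if_pos h]

theorem ordM_cmp {P : Type} [PartialOrder P] (rk : P → ℕ) (lab : P → P → ℕ)
    (hlab : ∀ x y, 4 ≤ lab x y) {x y : P} (hxy : x ≠ y) (h : ordM rk lab hlab x y ≠ 0) :
    x < y ∨ y < x := by
  by_contra hc
  rw [not_or] at hc
  apply h
  change ordF rk lab x y = _
  unfold ordF
  rw [if_neg hxy, if_neg hc.1, if_neg hc.2]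

/-- the conditions for the flag case -/
def PFlag (k : ℕ) {S : Type} (M : CoxeterMatrix S) (col : S → ℕ) : Prop :=
  (∀ x, col x < 2 * k) ∧ ∀ x y, x ≠ y → M x y ≠ 0 → col x ≠ col y ∧ 2 ∣ M x y ∧
    (col x / 2 ≠ col y / 2 → M x y = 2) ∧ (col x / 2 = col y / 2 → 4 ≤ M x y)

theorem pflag_ord {k : ℕ} {P : Type} [PartialOrder P] (rk : P → ℕ) (hrk : StrictMono rk)
    (hk : ∀ x, rk x < 2 * k) (lab : P → P → ℕ) (hlab : ∀ x y, 4 ≤ lab x y)
    (hev : ∀ x y, 2 ∣ lab x y) : PFlag k (ordM rk lab hlab) rk := by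
  refine ⟨hk, ?_⟩
  have key : ∀ x y : P, x < y → rk x ≠ rk y ∧ 2 ∣ ordM rk lab hlab x y ∧
      (rk x / 2 ≠ rk y / 2 → ordM rk lab hlab x y = 2) ∧
      (rk x / 2 = rk y / 2 → 4 ≤ ordM rk lab hlab x y) := by
    intro x y h
    have h1 := hrk h
    rw [ordM_lt rk lab hlab h]
    refine ⟨h1.ne, ?_, ?_, ?_⟩
    · split_ifs
      · exact hev x y
      · exact dvd_rfl
    · intro h2
      rw [if_neg]
      omega
    · intro h2
      rw [if_pos (by omega)]
      exact hlab x y
  intro x y hxy h0
  rcases ordM_cmp rk lab hlab hxy h0 with h | h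
  · exact key x y h
  · have h1 := key y x h
    rw [(ordM rk lab hlab).symmetric] at h1
    exact ⟨h1.1.symm, h1.2.1, fun h2 => h1.2.2.1 fun h3 => h2 h3.symm, fun h2 => h1.2.2.2 h2.symm⟩

/-- The flag case. -/
theorem flag_case [Fintype S] {k : ℕ} (cs : CoxeterSystem M W) (col : S → ℕ) (hf : PFlag k M col)
    {a : (Fin (2 * k) → S) → ℝ} (ha : IsCyc (2 * k) (finG M) a)
    {H : Subgroup W} (hH : H.index ≠ 0) (hε : H ≤ (sgn cs).ker) :
    Sph cs a ∧ (H.index : ℝ) * ∑ v : Fin (2 * k) → S, (if ∀ j, col (v j) = j then |a v| else 0) ≤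
        4 ^ k * svol (sgn cs) cs.simple (2 * k) a H ∧
      ((∀ v, (∀ i j, i ≠ j → (finG M).Adj (v i) (v j)) → |a v| = 1) →
        (∀ T : Finset S, (finG M).IsClique (T : Set S) →
          ∃ v : Fin (2 * k) → S, (∀ i j, i ≠ j → (finG M).Adj (v i) (v j)) ∧
            (T : Set S) ⊆ Set.range v) →
        (∀ h ∈ H, IsOfFinOrder h → h = 1) →
        ∑ T : Finset S, (cells cs H T : ℝ) ≤ 9 ^ k * svol (sgn cs) cs.simple (2 * k) a H ∧
        |(chiQ cs H : ℝ)| ≤ 9 ^ k * svol (sgn cs) cs.simple (2 * k) a H) := by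
  have h₀ : Even2 k M col := ⟨hf.1, fun x y h h' => ⟨(hf.2 x y h h').1, (hf.2 x y h h').2.1⟩⟩
  have hs : Sph cs a := fun w hw =>
    sph_of cs col hf.1 (fun x y h h' => ⟨(hf.2 x y h h').1, (hf.2 x y h h').2.2.1⟩) w (ha.supp w hw)
  have hl : ∀ x y, M x y ≠ 0 → col x % 2 = 0 → col y = col x + 1 → 4 ≤ M x y := by
    intro x y h h1 h2
    refine (hf.2 x y ?_ h).2.2.2 (by omega)
    rintro rfl
    omega
  have hev : ∀ x y, x ≠ y → 2 ∣ M x y := by
    intro x y hxy
    by_cases h : M x y = 0
    · rw [h]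
      exact dvd_zero 2
    · exact (hf.2 x y hxy h).2.1
  refine ⟨hs, ?_, ?_⟩
  · have hlin := linear cs M col h₀ id (fun x y hxy hM => Or.inr ⟨hxy, hM, dvd_rfl⟩) ha hs hH hε
    rw [push_id] at hlin
    refine le_trans (mul_le_mul_of_nonneg_left (Finset.sum_le_sum fun v _ => ?_)
      (Nat.cast_nonneg _)) hlin
    by_cases hv : a v = 0
    · rw [hv, abs_zero, ite_self, ite_self]
    · by_cases hc : ∀ j, col (v j) = j
      · have hsrt : Srt M col v := by
          refine ⟨hc, fun i => ?_⟩
          have c1 := hc ⟨2 * i, by omega⟩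
          have c2 := hc ⟨2 * i + 1, by omega⟩
          simp only at c1 c2
          refine hl _ _ (ha.supp v hv _ _ ?_).2 (by omega) (by omega)
          rw [Ne, Fin.mk.injEq]
          omega
        rw [if_pos hc, if_pos hsrt]
      · rw [if_neg hc, if_neg fun h => hc h.1]
  · intro h1 hp ht
    have h1' : ∀ v, a v ≠ 0 → 1 ≤ |a v| := fun v hv => (h1 v (ha.supp v hv)).ge
    have hp' : ∀ T : Finset S, Finite (spc cs T) → ∃ v, a v ≠ 0 ∧ (T : Set S) ⊆ Set.range v := by
      intro T hT
      obtain ⟨v, hv, hTv⟩ := hp T fun x hx y hy hxy =>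
        ⟨hxy, clique_of cs hev T hT hx hy hxy⟩
      refine ⟨v, ?_, hTv⟩
      intro h
      have := h1 v hv
      rw [h, abs_zero] at this
      exact zero_ne_one this
    exact ⟨cells_le cs col h₀ hl ha hs h1' hp' hH hε ht, chi_le cs col h₀ hl ha hs h1' hp' hH hε ht⟩

end Pool.Agent.J4.H27.UL
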