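import Pool.Agent.J4.H27.UL.Lb
import Pool.Agent.J4.H27.UL.Ev

/-!
The cocycles of a bipartite graph with labels.
-/

set_option autoImplicit false
set_option linter.unusedSectionVars false

open scoped Classical

namespace Pool.Agent.J4.H27.UL

open Monoid
open Equiv (Perm)
open Pool.Agent.J4.H27.EC

/-- the weight of a label -/
noncomputable def wt (n : ℕ) : ℝ := if 4 ≤ n then 1 else 0

theorem exists_loc (n : ℕ) : Nonempty (Loc (Multiplicative.ofAdd (1 : ZMod n)) (wt n)) := by
  by_cases h : 4 ≤ n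
  · have e : wt n = 1 := if_pos h
    rw [e]
    obtain ⟨dbl, hd⟩ := exists_dbl n
    exact ⟨locPoly h dbl hd⟩
  · have e : wt n = 0 := if_neg h
    rw [e]
    exact ⟨locZero _⟩

section

variable {S : Type} (m : S → S → ℕ)

/-- the cyclic groups -/
abbrev Cy (y x : S) : Type := Multiplicative (ZMod (m y x))

/-- the group of the star of `y` -/
abbrev PY (y : S) : Type := PP (Cy m y)

/-- the free product of the groups of the stars -/
abbrev KK : Type := CoprodI (PY m)

/-- the inclusion of a factor -/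
noncomputable abbrev io (y : S) : PY m y →* KK m := CoprodI.of (M := PY m) (i := y)

/-- the generators of the cyclic groups -/
def rho (y x : S) : Cy m y x := Multiplicative.ofAdd 1

/-- the local functions -/
noncomputable def Lc (y x : S) : Loc (rho m y x) (wt (m y x)) := Classical.choice (exists_loc _)

/-- a function on the leaves of the star of `y` -/
noncomputable def emb (y : S) (v : S → ℝ) : S × S → ℝ := fun e => if e.1 = y then v e.2 else 0

theorem emb_smul (y : S) (t : ℝ) (v : S → ℝ) : emb y (t • v) = t • emb y v := by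
  funext e
  unfold emb
  simp only [Pi.smul_apply, smul_eq_mul]
  split_ifs
  · rfl
  · rw [mul_zero]

theorem emb_add (y : S) (v w : S → ℝ) : emb y (v + w) = emb y v + emb y w := by
  funext e
  unfold emb
  simp only [Pi.add_apply]
  split_ifs
  · rfl
  · rw [add_zero]

theorem emb_sub (y : S) (v w : S → ℝ) : emb y (v - w) = emb y v - emb y w := by
  funext e
  unfold emb
  simp only [Pi.sub_apply]
  split_ifs
  · rfl
  · rw [sub_zero]

theorem emb_neg (y : S) (v : S → ℝ) : emb y (-v) = - emb y v := by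
  funext e
  unfold emb
  simp only [Pi.neg_apply]
  split_ifs
  · rfl
  · rw [neg_zero]

theorem emb_zero (y : S) : emb y (0 : S → ℝ) = 0 := by
  funext e
  unfold emb
  simp

theorem nm_emb [Fintype S] (y : S) (v : S → ℝ) : nm (emb y v) = nm v := by
  unfold nm emb
  rw [Fintype.sum_prod_type, Finset.sum_eq_single y]
  · simp
  · intro z _ hz
    refine Finset.sum_eq_zero fun x _ => ?_
    simp only
    rw [if_neg hz, abs_zero]
  · intro h
    exact absurd (Finset.mem_univ _) h

/-- the signs -/
noncomputable def eps (y : S) : PY m y →* ℤˣ := SemidirectProduct.rightHom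

theorem eps_apply (y : S) (p : PY m y) : eps m y p = p.right := rfl

/-- the functions on the factors -/
noncomputable def bb (y : S) (p : PY m y) : S × S → ℝ := emb y (bF (Lc m y) p)

/-- the correction -/
noncomputable def bc (x : S) (y : S) (p : PY m y) : S × S → ℝ :=
  (1 - rs p.right) • emb y (Pi.single x (wt (m y x)))

theorem bb_inv (y : S) (p : PY m y) : bb m y p⁻¹ = -(rs (eps m y p) • bb m y p) := by
  unfold bb
  rw [bF_inv, emb_neg, emb_smul, eps_apply]

theorem bb_le [Fintype S] (y : S) (c0 c1 c2 : PY m y) : nm (rs (eps m y c0) • bb m y (c0⁻¹ * c1) +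
    rs (eps m y c1) • bb m y (c1⁻¹ * c2) - rs (eps m y c0) • bb m y (c0⁻¹ * c2)) ≤ 2 := by
  unfold bb
  rw [← emb_smul, ← emb_smul, ← emb_smul, ← emb_add, ← emb_sub, nm_emb]
  exact star_le (Lc m y) c0 c1 c2

theorem bc_inv (x y : S) (p : PY m y) : bc m x y p⁻¹ = -(rs (eps m y p) • bc m x y p) := by
  unfold bc
  rw [eps_apply, smul_smul, SemidirectProduct.inv_right, rs_inv, ← neg_smul]
  congr 1
  have h := rs_sq p.right
  linear_combination -h

theorem bc_coc (x y : S) (c0 c1 c2 : PY m y) : rs (eps m y c0) • bc m x y (c0⁻¹ * c1) +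
    rs (eps m y c1) • bc m x y (c1⁻¹ * c2) - rs (eps m y c0) • bc m x y (c0⁻¹ * c2) = 0 := by
  unfold bc
  rw [smul_smul, smul_smul, smul_smul, ← add_smul, ← sub_smul]
  have e : rs (eps m y c0) * (1 - rs (c0⁻¹ * c1).right) + rs (eps m y c1) *
      (1 - rs (c1⁻¹ * c2).right) - rs (eps m y c0) * (1 - rs (c0⁻¹ * c2).right) = 0 := by
    rw [inv_mul_right, inv_mul_right, inv_mul_right, rs_mul, rs_mul, rs_mul, rs_inv, rs_inv,
      eps_apply, eps_apply]
    have h0 := rs_sq c0.right
    have h1 := rs_sq c1.right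
    linear_combination (rs c2.right - rs c1.right) * h0 - (rs c2.right) * h1
  rw [e, zero_smul]

/-- conjugation by the leaf `x` in all factors -/
noncomputable def cj (x : S) (y : S) : PY m y →* PY m y :=
  (MulAut.conj (Xg (rho m y) x)).toMonoidHom

theorem cj_apply (x y : S) (p : PY m y) :
    cj m x y p = Xg (rho m y) x * p * (Xg (rho m y) x)⁻¹ := rfl

theorem cj_inj (x y : S) : Function.Injective (cj m x y) := (MulAut.conj (Xg (rho m y) x)).injective

theorem cj_cj (x y : S) (p : PY m y) : cj m x y (cj m x y p) = p := by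
  rw [cj_apply, cj_apply, X_inv]
  have := X_sq (ρ := rho m y) x
  calc Xg (rho m y) x * (Xg (rho m y) x * p * Xg (rho m y) x) * Xg (rho m y) x
      = (Xg (rho m y) x * Xg (rho m y) x) * p * (Xg (rho m y) x * Xg (rho m y) x) := by group
    _ = p := by rw [this, one_mul, mul_one]

theorem cj_eps (x y : S) (p : PY m y) : eps m y (cj m x y p) = eps m y p := by
  rw [cj_apply, map_mul, map_mul, map_inv, mul_comm (eps m y (Xg (rho m y) x)), mul_assoc,
    mul_inv_cancel, mul_one]

variable (hm : ∀ y x, m y x ≠ 1)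

include hm in
theorem rho_ne (y x : S) : rho m y x ≠ 1 := by
  intro e
  have h1 : (1 : ZMod (m y x)) = 0 := e
  have : Nontrivial (ZMod (m y x)) := by
    have h := hm y x
    rcases Nat.eq_zero_or_pos (m y x) with h0 | h0
    · rw [h0]
      infer_instance
    · have : Fact (1 < m y x) := ⟨by omega⟩
      infer_instance
  exact one_ne_zero h1

include hm in
theorem bb_cj (x y : S) (p : PY m y) : bb m y (cj m x y p) = - bb m y p + bc m x y p := by
  unfold bb bc
  rw [cj_apply, bF_conj (Lc m y) (fun x => rho_ne m hm y x), emb_add, emb_neg, emb_smul]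

/-- the permutation of a leaf -/
noncomputable def ap (x : S) : Perm (KK m) where
  toFun := fm (cj m x)
  invFun := fm (cj m x)
  left_inv := fun g => by
    rw [fm_comp]
    exact fm_id _ (fun y d => cj_cj m x y d) g
  right_inv := fun g => by
    rw [fm_comp]
    exact fm_id _ (fun y d => cj_cj m x y d) g

/-- the permutation of a centre -/
noncomputable def lp (y : S) : Perm (KK m) := Equiv.mulLeft (io m y Yg)

theorem ap_apply (x : S) (w : KK m) : ap m x w = fm (cj m x) w := rfl

theorem lp_apply (y : S) (w : KK m) : lp m y w = io m y Yg * w := rfl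

theorem ap_sq (x : S) : ap m x * ap m x = 1 := by
  ext w
  exact (ap m x).left_inv w

theorem lp_sq (y : S) : lp m y * lp m y = 1 := by
  apply Equiv.ext
  intro w
  change io m y Yg * (io m y Yg * w) = w
  rw [← mul_assoc, ← map_mul, Y_sq, map_one, one_mul]

theorem ap_lp_sq (x y : S) (w : KK m) : (ap m x * lp m y) ((ap m x * lp m y) w) =
    io m y ((Xg (rho m y) x * Yg : PY m y) ^ 2) * w := by
  change fm (cj m x) (io m y Yg * fm (cj m x) (io m y Yg * w)) = _
  have h : fm (cj m x) (fm (cj m x) (io m y Yg * w)) =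
      io m y Yg * w := (ap m x).left_inv _
  rw [map_mul, h, fm_of, ← mul_assoc, ← map_mul]
  congr 2
  rw [cj_apply, X_inv, pow_two]
  group

theorem ap_lp_pow (x y : S) (n : ℕ) (h2 : 2 ∣ n) (h : m y x ∣ n) : (ap m x * lp m y) ^ n = 1 := by
  obtain ⟨l, rfl⟩ := h2
  have e : ∀ (j : ℕ) (w : KK m), ((ap m x * lp m y) ^ (2 * j)) w =
      io m y ((Xg (rho m y) x * Yg : PY m y) ^ (2 * j)) * w := by
    intro j
    induction j with
    | zero =>
      intro w
      simp
    | succ j ih =>
      intro w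
      have e1 : 2 * (j + 1) = 2 * j + 2 := by ring
      rw [e1, pow_add, pow_add, Equiv.Perm.mul_apply, ih, pow_two (ap m x * lp m y),
        Equiv.Perm.mul_apply, ap_lp_sq, map_mul, mul_assoc]
  apply Equiv.ext
  intro w
  rw [e, XY_pow x (2 * l), map_one, one_mul]
  · rfl
  · obtain ⟨q, hq⟩ := h
    rw [hq, pow_mul]
    have : (rho m y x) ^ (m y x) = 1 := by
      change Multiplicative.ofAdd ((m y x) • (1 : ZMod (m y x))) = 1
      rw [nsmul_one, ZMod.natCast_self]
      rfl
    rw [this, one_pow]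

/-- the cochain on the permutations -/
noncomputable def Fe (e : S × S) (g0 g1 g2 : Perm (KK m)) : ℝ :=
  Ch (eps m) (bb m) (g0 1) (g1 1) (g2 1) e

theorem Fe_swap (e : S × S) (a b c : Perm (KK m)) : Fe m e b a c = - Fe m e a b c := by
  unfold Fe
  rw [Ch_swap (bb_inv m)]
  rfl

theorem Fe_swap' (e : S × S) (a b c : Perm (KK m)) : Fe m e a c b = - Fe m e a b c := by
  unfold Fe
  rw [Ch_swap' (bb_inv m)]
  rfl

theorem Fe_coc (e : S × S) (g₀ g₁ g₂ g₃ : Perm (KK m)) :
    Fe m e g₁ g₂ g₃ - Fe m e g₀ g₂ g₃ + Fe m e g₀ g₁ g₃ - Fe m e g₀ g₁ g₂ = 0 := by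
  have := Ch_coc (ε := eps m) (b := bb m) (g₀ 1) (g₁ 1) (g₂ 1) (g₃ 1)
  exact congrFun this e

theorem Fe_lp (e : S × S) (y : S) (a b c : Perm (KK m)) :
    Fe m e (lp m y * a) (lp m y * b) (lp m y * c) = - Fe m e a b c := by
  unfold Fe
  change Ch (eps m) (bb m) (io m y Yg * a 1) (io m y Yg * b 1)
    (io m y Yg * c 1) e = _
  rw [Ch_mul, EE_of]
  have : eps m y (Yg : PY m y) = -1 := rfl
  rw [this, rs_neg_one]
  simp

include hm in
theorem Fe_ap (e : S × S) (x : S) (a b c : Perm (KK m)) :
    Fe m e (ap m x * a) (ap m x * b) (ap m x * c) = - Fe m e a b c := by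
  unfold Fe
  change Ch (eps m) (bb m) (fm (cj m x) (a 1)) (fm (cj m x) (b 1)) (fm (cj m x) (c 1)) e = _
  rw [Ch_fm (b' := bc m x) (cj_inj m x) (cj_eps m x) (bb_cj m hm x) (bc_inv m x) (bc_coc m x)]
  rfl

theorem Fe_sum [Fintype S] (g0 g1 g2 : Perm (KK m)) : ∑ e, |Fe m e g0 g1 g2| ≤ 2 :=
  Ch_le (bb_inv m) (bb_le m) _ _ _

theorem Fe_one (e : S × S) (g0 g1 g2 : Perm (KK m)) (h : g0 1 = g1 1) : Fe m e g0 g1 g2 = 0 := by
  unfold Fe
  rw [h, Ch_self]
  rfl

/-- the function on the free product -/
noncomputable def bK (w : KK m) : S × S → ℝ := bl (eps m) (bb m) (ls w)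

theorem bl_of {b : ∀ y, PY m y → (S × S → ℝ)} (h1 : ∀ y, b y 1 = 0) (y : S) (p : PY m y) :
    bl (eps m) b (ls (io m y p)) = b y p := by
  rw [ls_of]
  unfold rc
  split_ifs with h
  · rw [h, h1]
    rfl
  · change b y p + rs (eps m y p) • (0 : S × S → ℝ) = _
    rw [smul_zero, add_zero]

theorem Fe_val (e : S × S) (g1 g2 : Perm (KK m)) : Fe m e 1 g1 g2 =
    bK m (g1 1) e + rs (EE (eps m) (g1 1)) * bK m ((g1 1)⁻¹ * (g2 1)) e - bK m (g2 1) e := by
  unfold Fe Ch Bh bK
  simp only [Equiv.Perm.coe_one, id_eq, inv_one, one_mul, map_one, rs_one, one_smul,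
    Pi.add_apply, Pi.sub_apply, Pi.smul_apply, smul_eq_mul]

include hm in
/-- the mean over the dihedral group -/
theorem mean_dihedral (e : S × S) (x y : S) [Finite (Subgroup.closure {lp m y, ap m x})] :
    mean (Subgroup.closure {lp m y, ap m x}) (fun h => Fe m e 1 (lp m y) h) =
      -(if e = (y, x) then wt (m y x) else 0) := by
  set D := Subgroup.closure {lp m y, ap m x} with hD
  have hA : lp m y ∈ D := Subgroup.subset_closure (by simp)
  have hB : ap m x ∈ D := Subgroup.subset_closure (by simp)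
  -- the orbit of one
  have horb : ∀ h ∈ D, ∃ p : PY m y, h 1 = io m y p := by
    intro h hh
    have h1 := closure_sub ({lp m y, ap m x} : Set (Perm (KK m)))
      {g | ∃ p : PY m y, g 1 = io m y p} ⟨1, by simp⟩ (by
        intro a ha
        rcases ha with rfl | ha
        · exact lp_sq m y
        · rw [Set.mem_singleton_iff.1 ha]
          exact ap_sq m x) (by
        rintro a ha t ⟨p, hp⟩
        rcases ha with rfl | ha
        · refine ⟨Yg * p, ?_⟩
          change io m y Yg * t 1 = _
          rw [hp, map_mul]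
        · rw [Set.mem_singleton_iff.1 ha]
          refine ⟨cj m x y p, ?_⟩
          change fm (cj m x) (t 1) = _
          rw [hp, fm_of])
    exact h1 hh
  have hb1 : ∀ y, bb m y 1 = 0 := by
    intro y
    unfold bb
    rw [bF_one, emb_zero]
  have hc1 : ∀ y, bc m x y 1 = 0 := by
    intro y
    unfold bc
    rw [SemidirectProduct.one_right, rs_one, sub_self, zero_smul]
  have hinv : ∀ (f : Perm (KK m) → ℝ) (a : Perm (KK m)), a ∈ D →
      mean D (fun h => f (a * h)) = mean D (fun h => f h) := by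
    intro f a ha
    exact mean_equiv (Equiv.mulLeft (⟨a, ha⟩ : D)) (fun h : D => f h)
  -- the signs
  have hg : mean D (fun h => rs (EE (eps m) ((h : Perm (KK m)) 1))) = 0 := by
    have h1 := hinv (fun h => rs (EE (eps m) (h 1))) (lp m y) hA
    have h2 : ∀ h : D, rs (EE (eps m) ((lp m y * (h : Perm (KK m))) 1)) =
        - rs (EE (eps m) ((h : Perm (KK m)) 1)) := by
      intro h
      change rs (EE (eps m) (io m y Yg * (h : Perm (KK m)) 1)) = _
      rw [map_mul, rs_mul, EE_of]
      have : eps m y (Yg : PY m y) = -1 := rfl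
      rw [this, rs_neg_one, neg_one_mul]
    simp only [h2] at h1
    rw [mean_neg] at h1
    linarith
  -- the values
  have hf : mean D (fun h => bK m ((h : Perm (KK m)) 1) e) =
      (1 / 2) * (if e = (y, x) then wt (m y x) else 0) := by
    have h1 := hinv (fun h => bK m (h 1) e) (ap m x) hB
    have h2 : ∀ h : D, bK m ((ap m x * (h : Perm (KK m))) 1) e =
        (- bK m ((h : Perm (KK m)) 1) e + (if e = (y, x) then wt (m y x) else 0)) +
        (- (if e = (y, x) then wt (m y x) else 0)) * rs (EE (eps m) ((h : Perm (KK m)) 1)) := by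
      intro h
      have h3 := bK_fm (b' := bc m x) (cj_inj m x) (cj_eps m x) (bb_cj m hm x)
        ((h : Perm (KK m)) 1)
      have h4 : bK m ((ap m x * (h : Perm (KK m))) 1) =
        bl (eps m) (bb m) (ls (fm (cj m x) ((h : Perm (KK m)) 1))) := rfl
      rw [h4, h3]
      obtain ⟨p, hp⟩ := horb h h.2
      rw [hp, bl_of m hc1 y p, EE_of, eps_apply]
      unfold bK
      simp only [Pi.add_apply, Pi.neg_apply]
      unfold bc emb
      simp only [Pi.smul_apply, smul_eq_mul]
      obtain ⟨e1, e2⟩ := e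
      simp only [Prod.mk.injEq]
      by_cases g1 : e1 = y
      · by_cases g2 : e2 = x
        · rw [if_pos g1, g2, Pi.single_eq_same, if_pos ⟨g1, rfl⟩]
          ring
        · rw [if_pos g1, Pi.single_eq_of_ne g2, if_neg (fun h => g2 h.2)]
          ring
      · rw [if_neg g1, if_neg (fun h => g1 h.1)]
        ring
    simp only [h2] at h1
    rw [mean_add, mean_add, mean_neg, mean_const, mean_mul, hg, mul_zero, add_zero] at h1
    linarith
  have h5 : ∀ h : D, Fe m e 1 (lp m y) (h : Perm (KK m)) =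
      - bK m ((lp m y * (h : Perm (KK m))) 1) e + - bK m ((h : Perm (KK m)) 1) e := by
    intro h
    rw [Fe_val]
    have e1 : lp m y 1 = io m y Yg := by
      rw [lp_apply, mul_one]
    have e2 : bK m (io m y Yg) = 0 := by
      unfold bK
      rw [bl_of m hb1]
      unfold bb
      rw [bF_Y, emb_zero]
    have e3 : (io m y Yg)⁻¹ * (h : Perm (KK m)) 1 =
        (lp m y * (h : Perm (KK m))) 1 := by
      rw [← map_inv, Y_inv]
      rfl
    rw [e1, e2, e3, EE_of]
    have : eps m y (Yg : PY m y) = -1 := rfl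
    rw [this, rs_neg_one, Pi.zero_apply]
    ring
  simp only [h5]
  rw [mean_add, mean_neg, mean_neg, hf]
  have h6 := hinv (fun h => bK m (h 1) e) (lp m y) hA
  rw [h6, hf]
  ring

include hm in
theorem flag_lp (e : S × S) (x y : S) [Finite (Subgroup.closure {lp m y, ap m x})] :
    M3 (Fe m e) ⊥ (Subgroup.closure {lp m y}) (Subgroup.closure {lp m y, ap m x}) =
      -(1 / 2) * (if e = (y, x) then wt (m y x) else 0) := by
  rw [M3_flag (Fe m e) (lp m y) (ap m x) (lp_sq m y), mean_dihedral m hm]
  have : mean (Subgroup.closure {lp m y, ap m x}) (fun h => Fe m e 1 1 h) = 0 := by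
    have h : ∀ h : Subgroup.closure {lp m y, ap m x}, Fe m e 1 1 (h : Perm (KK m)) = 0 :=
      fun h => Fe_one m e _ _ _ rfl
    simp only [h]
    exact mean_zero
  rw [this]
  ring

theorem flag_ap (e : S × S) (x : S) (B : Perm (KK m)) [Finite (Subgroup.closure {ap m x, B})] :
    M3 (Fe m e) ⊥ (Subgroup.closure {ap m x}) (Subgroup.closure {ap m x, B}) = 0 := by
  rw [M3_flag (Fe m e) (ap m x) B (ap_sq m x)]
  have h1 : ∀ h : Subgroup.closure {ap m x, B}, Fe m e 1 1 (h : Perm (KK m)) = 0 :=
    fun h => Fe_one m e _ _ _ rfl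
  have h2 : ∀ h : Subgroup.closure {ap m x, B}, Fe m e 1 (ap m x) (h : Perm (KK m)) = 0 := by
    intro h
    refine Fe_one m e _ _ _ ?_
    change (1 : KK m) = fm (cj m x) 1
    rw [map_one]
  simp only [h1, h2]
  rw [mean_zero]
  norm_num

end

end Pool.Agent.J4.H27.UL
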