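import Pool.Agent.J4.H27.UL.La

/-!
The Coxeter group of a star: the semidirect product of a free product of cyclic groups with a group of
order two.
-/

set_option autoImplicit false
set_option linter.unusedSectionVars false

open scoped Classical

namespace Pool.Agent.J4.H27.UL

open Monoid

section

variable {S : Type} (C : S → Type) [∀ x, CommGroup (C x)]

/-- inversion of the letters -/
noncomputable def barE : MulAut (CoprodI C) where
  toFun := fm fun _ => invMonoidHom
  invFun := fm fun _ => invMonoidHom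
  left_inv := fun g => by
    rw [fm_comp]
    exact fm_id _ (fun i d => by simp) g
  right_inv := fun g => by
    rw [fm_comp]
    exact fm_id _ (fun i d => by simp) g
  map_mul' := fun a b => map_mul _ a b

/-- the action of the group of order two -/
noncomputable def psi : ℤˣ →* MulAut (CoprodI C) where
  toFun u := if u = 1 then 1 else barE C
  map_one' := if_pos rfl
  map_mul' u v := by
    have hb : barE C * barE C = 1 := by
      ext g
      exact (barE C).left_inv g
    rcases Int.units_eq_one_or u with rfl | rfl <;> rcases Int.units_eq_one_or v with rfl | rfl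
    · simp
    · simp
    · simp
    · have e1 : ((-1 : ℤˣ)) ≠ 1 := by decide
      have e2 : ((-1 : ℤˣ)) * (-1) = 1 := by decide
      rw [e2, if_pos rfl, if_neg e1, hb]

/-- the group of a star -/
abbrev PP : Type := SemidirectProduct (CoprodI C) ℤˣ (psi C)

variable {C}

theorem psi_neg (g : CoprodI C) : psi C (-1) g = fm (fun _ => invMonoidHom) g := by
  change (if (-1 : ℤˣ) = 1 then (1 : MulAut (CoprodI C)) else barE C) g = _
  rw [if_neg (by decide)]
  rfl

/-- the sign as a real number -/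
noncomputable def rs (u : ℤˣ) : ℝ := ((u : ℤ) : ℝ)

theorem rs_one : rs 1 = 1 := by simp [rs]

theorem rs_neg_one : rs (-1) = -1 := by simp [rs]

theorem rs_mul (u v : ℤˣ) : rs (u * v) = rs u * rs v := by simp [rs]

theorem rs_sq (u : ℤˣ) : rs u * rs u = 1 := by
  rcases Int.units_eq_one_or u with rfl | rfl
  · rw [rs_one, one_mul]
  · rw [rs_neg_one]
    norm_num

theorem rs_inv (u : ℤˣ) : rs u⁻¹ = rs u := by
  rcases Int.units_eq_one_or u with rfl | rfl
  · rw [inv_one]
  · have : (-1 : ℤˣ)⁻¹ = -1 := by decide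
    rw [this]

theorem abs_rs (u : ℤˣ) : |rs u| = 1 := by
  rcases Int.units_eq_one_or u with rfl | rfl
  · rw [rs_one, abs_one]
  · rw [rs_neg_one]
    norm_num

/-- the type of a sign -/
def sg (u : ℤˣ) : SignType := if u = 1 then 1 else -1

theorem sg_one : sg 1 = 1 := rfl

theorem sg_neg_one : sg (-1) = -1 := rfl

theorem sg_neg (u : ℤˣ) : sg (-u) = - sg u := by
  rcases Int.units_eq_one_or u with rfl | rfl <;> decide

variable {ρ : ∀ x, C x} {c : S → ℝ} (L : ∀ x, Loc (ρ x) (c x))

/-- the function on the group of the star -/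
noncomputable def bF (p : PP C) : S → ℝ := bs L 1 (sg p.right) (ls p.left)

/-- the homogeneous version -/
noncomputable def BB (p q : PP C) : S → ℝ := bs L (sg p.right) (sg q.right) (ls (p.left⁻¹ * q.left))

theorem inv_mul_left (p q : PP C) : (p⁻¹ * q).left = psi C p.right⁻¹ (p.left⁻¹ * q.left) := by
  rw [SemidirectProduct.mul_left, SemidirectProduct.inv_left, SemidirectProduct.inv_right, map_mul]

theorem inv_mul_right (p q : PP C) : (p⁻¹ * q).right = p.right⁻¹ * q.right := by
  rw [SemidirectProduct.mul_right, SemidirectProduct.inv_right]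

theorem BB_eq (p q : PP C) : rs p.right • bF L (p⁻¹ * q) = BB L p q := by
  unfold bF BB
  rw [inv_mul_left, inv_mul_right]
  rcases Int.units_eq_one_or p.right with h | h
  · rw [h, inv_one, one_mul, rs_one, one_smul, map_one, sg_one]
    rfl
  · have e1 : (-1 : ℤˣ)⁻¹ = -1 := by decide
    have e2 : (-1 : ℤˣ) * q.right = - q.right := by rw [neg_one_mul]
    rw [h, e1, e2, psi_neg, ls_fm _ (fun _ => inv_injective), sg_neg, rs_neg_one]
    have := bs_ng L (-1) (sg q.right) (ls (p.left⁻¹ * q.left))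
    rw [neg_neg] at this
    change (-1 : ℝ) • bs L 1 (-sg q.right) (ng (ls (p.left⁻¹ * q.left))) = _
    rw [this, sg_neg_one, neg_smul, one_smul, neg_neg]

theorem BB_swap (p q : PP C) : BB L q p = - BB L p q := by
  unfold BB
  have : q.left⁻¹ * p.left = (p.left⁻¹ * q.left)⁻¹ := by rw [mul_inv_rev, inv_inv]
  rw [this, ls_inv, bs_iv]

theorem bF_inv (p : PP C) : bF L p⁻¹ = -(rs p.right • bF L p) := by
  have h1 := BB_eq L p 1
  have h2 := BB_eq L 1 p
  rw [mul_one] at h1
  rw [inv_one, one_mul, SemidirectProduct.one_right, rs_one, one_smul] at h2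
  rw [BB_swap, ← h2] at h1
  have h3 : bF L p⁻¹ = rs p.right • (rs p.right • bF L p⁻¹) := by
    rw [smul_smul, rs_sq, one_smul]
  rw [h3, h1, smul_neg]

theorem bF_one : bF L (1 : PP C) = 0 := by
  unfold bF
  rw [SemidirectProduct.one_left, ls_one]
  rfl

/-- the generator of the centre -/
noncomputable def Yg : PP C := ⟨1, -1⟩

/-- the generators of the leaves -/
noncomputable def Xg (ρ : ∀ x, C x) (x : S) : PP C := ⟨CoprodI.of (ρ x), -1⟩

theorem bF_Y : bF L (Yg : PP C) = 0 := by
  unfold bF Yg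
  rw [ls_one]
  rfl

theorem Y_sq : (Yg : PP C) * Yg = 1 := by
  apply SemidirectProduct.ext
  · rw [SemidirectProduct.mul_left]
    change (1 : CoprodI C) * psi C (-1) 1 = 1
    rw [map_one, one_mul]
  · change (-1 : ℤˣ) * (-1) = 1
    decide

theorem X_sq (x : S) : Xg ρ x * Xg ρ x = (1 : PP C) := by
  apply SemidirectProduct.ext
  · rw [SemidirectProduct.mul_left]
    change CoprodI.of (ρ x) * psi C (-1) (CoprodI.of (ρ x)) = 1
    rw [psi_neg, fm_of, ← map_mul]
    simp
  · change (-1 : ℤˣ) * (-1) = 1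
    decide

theorem X_inv (x : S) : (Xg ρ x : PP C)⁻¹ = Xg ρ x := inv_eq_of_mul_eq_one_left (X_sq x)

theorem Y_inv : (Yg : PP C)⁻¹ = Yg := inv_eq_of_mul_eq_one_left Y_sq

theorem XY (x : S) : (Xg ρ x * Yg : PP C) = ⟨CoprodI.of (ρ x), 1⟩ := by
  apply SemidirectProduct.ext
  · rw [SemidirectProduct.mul_left]
    change CoprodI.of (ρ x) * psi C (-1) 1 = _
    rw [map_one, mul_one]
  · rfl

theorem XY_pow (x : S) (n : ℕ) (h : ρ x ^ n = 1) : (Xg ρ x * Yg : PP C) ^ n = 1 := by
  have e : ∀ j : ℕ, (Xg ρ x * Yg : PP C) ^ j = ⟨CoprodI.of (ρ x ^ j), 1⟩ := by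
    intro j
    induction j with
    | zero =>
      rw [pow_zero, pow_zero, map_one]
      rfl
    | succ j ih =>
      rw [pow_succ, ih, XY]
      apply SemidirectProduct.ext
      · rw [SemidirectProduct.mul_left]
        change CoprodI.of (ρ x ^ j) * psi C 1 (CoprodI.of (ρ x)) = _
        rw [map_one]
        change CoprodI.of (ρ x ^ j) * CoprodI.of (ρ x) = _
        rw [← map_mul, ← pow_succ]
      · rfl
  rw [e, h, map_one]
  rfl

/-- the types after a letter, with the trivial letter -/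
noncomputable def st0 (x : S) (l : SignType) (d : C x) : SignType := if d = 1 then l else st (ρ x) l d

theorem bs_rc (l f : SignType) {x : S} (d : C x) (t : List (Σ x, C x)) :
    bs L l f (rc d t) = Pi.single x ((L x).φ l (RR ρ f t) d) + bs L (st0 (ρ := ρ) x l d) f t := by
  unfold rc st0
  split_ifs with h
  · rw [h, (L x).zero, Pi.single_zero, zero_add]
  · rfl

theorem st0_flip (hρ : ∀ x, ρ x ≠ 1) (x : S) (d : C x) :
    st0 (ρ := ρ) x 1 (ρ x * d⁻¹) = - st0 (ρ := ρ) x 1 d := by
  unfold st0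
  by_cases h1 : d = 1
  · rw [h1, inv_one, mul_one, if_neg (hρ x), if_pos rfl, st_one]
  · by_cases h2 : d = ρ x
    · rw [h2, mul_inv_cancel, if_pos rfl, if_neg (hρ x), st_one, neg_neg]
    · have n1 : ρ x * d⁻¹ ≠ 1 := fun e => h2 (mul_inv_eq_one.1 e).symm
      have n2 : ρ x * d⁻¹ ≠ ρ x := fun e => h1 (by simpa using e)
      rw [if_neg n1, if_neg h1]
      have e1 : (1 : SignType) ≠ -1 := by decide
      unfold st
      rw [if_neg (fun h => n2 h.2), if_neg (fun h => e1 h.1), if_neg (fun h => h2 h.2),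
        if_neg (fun h => e1 h.1)]
      rfl

/-- left multiplication by a leaf generator -/
theorem bF_X_mul (hρ : ∀ x, ρ x ≠ 1) (x : S) (p : PP C) :
    bF L (Xg ρ x * p) = Pi.single x (c x) - bF L p := by
  obtain ⟨d, t, ht, hn, hd⟩ := split x p.left
  have h1 : (Xg ρ x * p).left = CoprodI.of (ρ x * d⁻¹) * pr (ng t) := by
    rw [SemidirectProduct.mul_left]
    change CoprodI.of (ρ x) * psi C (-1) p.left = _
    rw [psi_neg, hd, map_mul, fm_of, map_mul]
    have e : pr (ng t) = fm (fun _ => invMonoidHom) (pr t) := pr_fl _ _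
    rw [e, mul_assoc]
    rfl
  have h2 : (Xg ρ x * p).right = - p.right := by
    rw [SemidirectProduct.mul_right]
    change (-1 : ℤˣ) * p.right = _
    rw [neg_one_mul]
  have hng : Red (ng t) := red_fl _ (fun _ => inv_injective) ht
  have hnn : nh x (ng t) := (nh_fl _ _).2 hn
  unfold bF
  rw [h1, h2, ls_of_mul _ hng hnn, sg_neg, bs_rc, hd, ls_of_mul _ ht hn, bs_rc, RR_ng,
    st0_flip hρ]
  have h3 := bs_ng L (st0 (ρ := ρ) x 1 d) (sg p.right) t
  rw [h3]
  have h4 := (L x).flip (RR ρ (sg p.right) t) d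
  have h5 : (Pi.single x (c x) : S → ℝ) =
      Pi.single x ((L x).φ 1 (-RR ρ (sg p.right) t) (ρ x * d⁻¹)) +
      Pi.single x ((L x).φ 1 (RR ρ (sg p.right) t) d) := by
    rw [← Pi.single_add, h4]
  rw [h5]
  abel

theorem bF_mul_X (hρ : ∀ x, ρ x ≠ 1) (x : S) (p : PP C) :
    bF L (p * Xg ρ x) = bF L p + rs p.right • Pi.single x (c x) := by
  have h1 : p * Xg ρ x = (Xg ρ x * p⁻¹)⁻¹ := by
    rw [mul_inv_rev, inv_inv, X_inv]
  have h2 : (Xg ρ x * p⁻¹).right = - p.right := by
    rw [SemidirectProduct.mul_right, SemidirectProduct.inv_right]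
    change (-1 : ℤˣ) * p.right⁻¹ = _
    rw [neg_one_mul, Int.units_inv_eq_self]
  have h3 : rs (- p.right) = - rs p.right := by
    unfold rs
    simp
  rw [h1, bF_inv, h2, bF_X_mul L hρ, bF_inv, h3]
  rw [neg_smul, neg_neg, sub_neg_eq_add, smul_add, smul_smul, rs_sq, one_smul]
  abel

/-- conjugation by a leaf generator -/
theorem bF_conj (hρ : ∀ x, ρ x ≠ 1) (x : S) (p : PP C) :
    bF L (Xg ρ x * p * (Xg ρ x)⁻¹) = - bF L p + (1 - rs p.right) • Pi.single x (c x) := by
  rw [X_inv, mul_assoc, bF_X_mul L hρ, bF_mul_X L hρ, sub_smul, one_smul]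
  abel

variable [Fintype S]

/-- the bound of the coboundary -/
theorem star_le (p0 p1 p2 : PP C) : nm (rs p0.right • bF L (p0⁻¹ * p1) +
    rs p1.right • bF L (p1⁻¹ * p2) - rs p0.right • bF L (p0⁻¹ * p2)) ≤ 2 := by
  rw [BB_eq, BB_eq, BB_eq]
  exact QQ_le L _ _ _ _ _ _

end

end Pool.Agent.J4.H27.UL
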